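import Pool.Agent.Y229.PA.Uni
import Pool.Agent.W206.CU.Rat

/-!
# Polynomials over the integers become trilinear, with coefficients `0`, `1`, `-1`
-/

set_option autoImplicit false

namespace Pool.Agent.Q59.TR.Pa

open MvPolynomial Pool.Agent.W206.CU Pool.Agent.Y229.PA

section split
variable {n : ℕ}

/-- the first variable of a monomial is replaced by its copy -/
noncomputable def split (d : Fin n →₀ ℕ) : Fin n ⊕ Fin n →₀ ℕ :=
  if h : d.support.Nonempty then
    Finsupp.single (Sum.inl (d.support.min' h)) 1 +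
      (d - Finsupp.single (d.support.min' h) 1).mapDomain Sum.inr
  else 0

theorem fold_split (d : Fin n →₀ ℕ) : (split d).mapDomain (Sum.elim id id) = d := by
  unfold split
  split_ifs with h
  · rw [Finsupp.mapDomain_add, Finsupp.mapDomain_single, ← Finsupp.mapDomain_comp]
    have h1 : (Sum.elim id id : Fin n ⊕ Fin n → Fin n) ∘ Sum.inr = id := rfl
    rw [h1, Finsupp.mapDomain_id, Sum.elim_inl, id]
    apply add_tsub_cancel_of_le
    rw [Finsupp.single_le_iff]
    have h2 := Finset.min'_mem d.support h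
    rw [Finsupp.mem_support_iff] at h2
    omega
  · rw [Finset.not_nonempty_iff_eq_empty, Finsupp.support_eq_empty] at h
    rw [h, Finsupp.mapDomain_zero]

theorem split_inl (d : Fin n →₀ ℕ) : ∑ i, split d (Sum.inl i) ≤ 1 := by
  unfold split
  split_ifs with h
  · have h1 : ∀ i, (Finsupp.single (Sum.inl (d.support.min' h)) 1 +
      (d - Finsupp.single (d.support.min' h) 1).mapDomain Sum.inr : Fin n ⊕ Fin n →₀ ℕ)
        (Sum.inl i) = if d.support.min' h = i then 1 else 0 := by
      intro i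
      rw [Finsupp.add_apply, Finsupp.mapDomain_of_notMem_range _ _ (by simp), add_zero,
        Finsupp.single_apply]
      simp
    rw [Finset.sum_congr rfl fun i _ => h1 i]
    simp
  · simp

theorem split_inr {d : Fin n →₀ ℕ} (hd : d.degree ≤ 2) : ∑ i, split d (Sum.inr i) ≤ 1 := by
  unfold split
  split_ifs with h
  · have h1 : ∀ i, (Finsupp.single (Sum.inl (d.support.min' h)) 1 +
      (d - Finsupp.single (d.support.min' h) 1).mapDomain Sum.inr : Fin n ⊕ Fin n →₀ ℕ)
        (Sum.inr i) = (d - Finsupp.single (d.support.min' h) 1 : Fin n →₀ ℕ) i := by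
      intro i
      rw [Finsupp.add_apply, Finsupp.mapDomain_apply Sum.inr_injective, Finsupp.single_apply]
      simp
    rw [Finset.sum_congr rfl fun i _ => h1 i]
    have h2 : Finsupp.single (d.support.min' h) 1 ≤ d := by
      rw [Finsupp.single_le_iff]
      have h2 := Finset.min'_mem d.support h
      rw [Finsupp.mem_support_iff] at h2
      omega
    have h3 := congrArg Finsupp.degree (add_tsub_cancel_of_le h2)
    rw [map_add, Finsupp.degree_single] at h3
    exact (Finsupp.degree_eq_sum _).symm.le.trans (by omega)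
  · simp

/-- the polynomial with the first variable of each monomial replaced by its copy -/
noncomputable def bil (q : MvPolynomial (Fin n) ℤ) : MvPolynomial (Fin n ⊕ Fin n) ℤ :=
  ∑ d ∈ q.support, monomial (split d) (q.coeff d)

theorem rename_bil (q : MvPolynomial (Fin n) ℤ) : rename (Sum.elim id id) (bil q) = q := by
  unfold bil
  rw [map_sum]
  conv_rhs => rw [q.as_sum]
  refine Finset.sum_congr rfl fun d _ => ?_
  rw [rename_monomial, fold_split]

theorem coeff_bil (q : MvPolynomial (Fin n) ℤ) (e : Fin n ⊕ Fin n →₀ ℕ) :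
    (bil q).coeff e = 0 ∨
      ((bil q).coeff e = q.coeff (e.mapDomain (Sum.elim id id)) ∧
        e = split (e.mapDomain (Sum.elim id id))) := by
  classical
  unfold bil
  rw [coeff_sum]
  by_cases h : e = split (e.mapDomain (Sum.elim id id))
  · right
    refine ⟨?_, h⟩
    rw [Finset.sum_eq_single (e.mapDomain (Sum.elim id id))]
    · rw [coeff_monomial, if_pos h.symm]
    · intro d _ hd
      rw [coeff_monomial, if_neg]
      intro h1
      apply hd
      rw [← h1, fold_split]
    · intro h1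
      rw [notMem_support_iff] at h1
      rw [h1, monomial_zero, coeff_zero]
  · left
    refine Finset.sum_eq_zero fun d _ => ?_
    rw [coeff_monomial, if_neg]
    intro h1
    apply h
    rw [← h1, fold_split]

end split

/-- `∑_j t_j q_j(x, y)` -/
noncomputable def triSum {m m' k : ℕ} (q : Fin k → MvPolynomial (Fin m ⊕ Fin m') ℤ) :
    MvPolynomial ((Fin m ⊕ Fin m') ⊕ Fin k) ℤ :=
  ∑ j, X (Sum.inr j) * rename Sum.inl (q j)

/-- The polynomials `q_j(x, y)` are of degree at most one in `x` and of degree at most one in `y`,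
have coefficients `0`, `1`, `-1`, and are not all zero. -/
def IsBilinear {m m' k : ℕ} (q : Fin k → MvPolynomial (Fin m ⊕ Fin m') ℤ) : Prop :=
  q ≠ 0 ∧ (∀ j d, (q j).coeff d = 0 ∨ (q j).coeff d = 1 ∨ (q j).coeff d = -1) ∧
    ∀ j, ∀ d ∈ (q j).support, ∑ i, d (Sum.inl i) ≤ 1 ∧ ∑ i, d (Sum.inr i) ≤ 1

/-- `∑_j t_j q_j(x, z)`, before the variables are rearranged -/
noncomputable def bilPhi {n k : ℕ} (q : Fin k → MvPolynomial (Fin n) ℤ) :
    MvPolynomial ((Fin n ⊕ Fin k) ⊕ Fin n) ℤ :=
  ∑ j, X (Sum.inl (Sum.inr j)) *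
    rename (Sum.elim (fun a => Sum.inl (Sum.inl a)) Sum.inr) (bil (q j))

theorem bilPhi_eval {n k : ℕ} (q : Fin k → MvPolynomial (Fin n) ℤ) :
    aeval (Sum.elim X fun i => X (Sum.inl i)) (bilPhi q) = quadSum q := by
  unfold bilPhi quadSum
  rw [map_sum]
  refine Finset.sum_congr rfl fun j _ => ?_
  rw [map_mul, aeval_X, Sum.elim_inl, aeval_rename]
  congr 1
  have h1 : (Sum.elim (X : Fin n ⊕ Fin k → MvPolynomial (Fin n ⊕ Fin k) ℤ)
      fun i : Fin n => X (Sum.inl i)) ∘
      (Sum.elim (fun a => Sum.inl (Sum.inl a)) Sum.inr) =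
      fun i : Fin n ⊕ Fin n => X ((Sum.inl ∘ Sum.elim id id) i) := by
    funext i
    rcases i with i | i <;> rfl
  rw [h1]
  have h2 : (aeval fun i : Fin n ⊕ Fin n =>
      (X ((Sum.inl ∘ Sum.elim id id) i) : MvPolynomial (Fin n ⊕ Fin k) ℤ)) =
      rename (Sum.inl ∘ Sum.elim id id) := by
    apply MvPolynomial.algHom_ext
    intro i
    rw [aeval_X, rename_X]
  rw [h2, ← rename_rename, rename_bil]

/-- the arrangement of the variables -/
def arr (n k : ℕ) : (Fin n ⊕ Fin k) ⊕ (Fin n ⊕ Fin n) ≃ (Fin n ⊕ Fin n) ⊕ Fin (k + n) where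
  toFun := Sum.elim (Sum.elim (fun a => Sum.inl (Sum.inl a)) fun j => Sum.inr (Fin.castAdd n j))
    (Sum.elim (fun i => Sum.inr (Fin.natAdd k i)) fun i => Sum.inl (Sum.inr i))
  invFun := Sum.elim (Sum.elim (fun a => Sum.inl (Sum.inl a)) fun i => Sum.inr (Sum.inr i))
    (Fin.addCases (fun j => Sum.inl (Sum.inr j)) fun i => Sum.inr (Sum.inl i))
  left_inv := by
    rintro ((a | j) | (i | i)) <;> simp
  right_inv := by
    rintro ((a | i) | j)
    · rfl
    · rfl
    · refine Fin.addCases (fun j => ?_) (fun i => ?_) j <;> simp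

/-- the new bilinear polynomials -/
noncomputable def bilQ {n k : ℕ} (q : Fin k → MvPolynomial (Fin n) ℤ) :
    Fin (k + n) → MvPolynomial (Fin n ⊕ Fin n) ℤ :=
  Fin.addCases (fun j => bil (q j)) fun i => X (Sum.inr i) - X (Sum.inl i)

theorem arr_graph {n k : ℕ} (q : Fin k → MvPolynomial (Fin n) ℤ) :
    renameEquiv ℤ (arr n k) (graphS (bilPhi q) fun i => X (Sum.inl i)) = triSum (bilQ q) := by
  unfold graphS triSum
  rw [renameEquiv_apply, map_add, Fin.sum_univ_add]
  congr 1
  · unfold bilPhi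
    rw [map_sum, map_sum]
    refine Finset.sum_congr rfl fun j _ => ?_
    unfold bilQ
    rw [Fin.addCases_left, map_mul, map_mul, rename_X, rename_X, rename_rename, rename_rename]
    congr 3
    funext i
    rcases i with i | i <;> rfl
  · rw [map_sum]
    refine Finset.sum_congr rfl fun i _ => ?_
    unfold bilQ
    rw [Fin.addCases_right, map_mul, map_sub, map_sub, rename_X, rename_X, rename_X, rename_X,
      rename_X, rename_X]
    rfl

theorem isBilinear_bilQ {n k : ℕ} {q : Fin k → MvPolynomial (Fin n) ℤ} (hq : IsQuadrics q) :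
    IsBilinear (bilQ q) := by
  classical
  obtain ⟨h0, h1, h2⟩ := hq
  refine ⟨fun h => h0 ?_, fun j => ?_, fun j => ?_⟩
  · funext j
    have h3 := congrFun h (Fin.castAdd n j)
    rw [bilQ, Fin.addCases_left, Pi.zero_apply] at h3
    rw [← rename_bil (q j), h3, map_zero, Pi.zero_apply]
  · refine Fin.addCases (fun j => ?_) (fun i => ?_) j
    · intro d
      rw [bilQ, Fin.addCases_left]
      rcases coeff_bil (q j) d with h | ⟨h, _⟩
      · exact Or.inl h
      · rw [h]
        exact h2 _ _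
    · intro d
      rw [bilQ, Fin.addCases_right, coeff_sub, coeff_X, coeff_X]
      split_ifs <;> simp
  · refine Fin.addCases (fun j => ?_) (fun i => ?_) j
    · intro d hd
      rw [bilQ, Fin.addCases_left, mem_support_iff] at hd
      rcases coeff_bil (q j) d with h | ⟨h, h3⟩
      · exact absurd h hd
      · rw [h3]
        rw [h] at hd
        refine ⟨split_inl _, split_inr ?_⟩
        exact (le_totalDegree (mem_support_iff.2 hd)).trans' (le_of_eq (by
          rw [Finsupp.degree_eq_sum, Finsupp.sum_fintype _ _ (fun _ => rfl)])) |>.trans (h1 j)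
    · intro d hd
      rw [bilQ, Fin.addCases_right, mem_support_iff, coeff_sub, coeff_X, coeff_X] at hd
      by_cases h3 : Finsupp.single (Sum.inr i) 1 = d
      · rw [← h3]
        constructor
        · simp
        · simp [Finsupp.single_apply]
      · by_cases h4 : Finsupp.single (Sum.inl i) 1 = d
        · rw [← h4]
          constructor
          · simp [Finsupp.single_apply]
          · simp
        · rw [if_neg h3, if_neg h4, sub_zero] at hd
          exact absurd rfl hd

variable {PP : ∀ (ρ : Type) [Finite ρ], ℕ → MvPolynomial ρ ℤ → Prop}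

/-- from quadratic to bilinear polynomials -/
theorem chain_bil (hc : Chain PP) {n k m : ℕ} {q : Fin k → MvPolynomial (Fin n) ℤ}
    (h : PP (Fin n ⊕ Fin k) m (quadSum q)) :
    PP ((Fin n ⊕ Fin n) ⊕ Fin (k + n)) (m + n) (triSum (bilQ q)) := by
  obtain ⟨ψ, hψ⟩ := gkS (bilPhi q) fun i => X (Sum.inl i)
  rw [bilPhi_eval] at hψ
  rw [← arr_graph, ← hψ]
  exact hc.iso _ _ (renameEquiv ℤ (arr n k)) _ _ (hc.iso _ _ ψ _ _ (chain_stabS hc h n))

theorem triSum_ne_zero {m m' k : ℕ} {q : Fin k → MvPolynomial (Fin m ⊕ Fin m') ℤ} (hq : q ≠ 0)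
    (c : ℤ) : triSum q ≠ C c := by
  intro h0
  apply hq
  funext j
  have h1 := congrArg (pderiv (Sum.inr j)) h0
  unfold triSum at h1
  rw [map_sum, pderiv_C, Finset.sum_eq_single j] at h1
  · rw [Derivation.leibniz, pderiv_X_self, pderiv_rename_of_not Sum.inl (Sum.inr j) (by simp),
      smul_zero, zero_add, smul_eq_mul, mul_one] at h1
    exact rename_injective _ Sum.inl_injective (by rw [h1, Pi.zero_apply, map_zero])
  · intro i _ hi
    rw [Derivation.leibniz, pderiv_X_of_ne (by simpa using hi),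
      pderiv_rename_of_not Sum.inl (Sum.inr j) (by simp), smul_zero, smul_zero, add_zero]
  · intro h2
    exact absurd (Finset.mem_univ _) h2

/-- **Every polynomial becomes trilinear.** -/
theorem universal3 {n : ℕ} (f : MvPolynomial (Fin n) ℤ) (hf : f ≠ 0) :
    ∃ (κ m k : ℕ) (q : Fin k → MvPolynomial (Fin m ⊕ Fin m) ℤ)
      (φ : MvPolynomial ((Fin n ⊕ Unit) ⊕ (Fin κ ⊕ Fin κ)) ℤ ≃ₐ[ℤ]
        MvPolynomial ((Fin m ⊕ Fin m) ⊕ Fin k) ℤ),
      1 ≤ κ ∧ IsBilinear q ∧ φ (stabS (uf f) κ) = triSum q := by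
  obtain ⟨κ, n', k, q, φ, h1, h2, h3⟩ := universal f hf
  have h4 : IsStab (uf f) (Fin n' ⊕ Fin k) κ (quadSum q) := ⟨φ, h3⟩
  obtain ⟨φ', h5⟩ := chain_bil (isStab_chain (uf f)) h4
  exact ⟨κ + n', n', k + n', bilQ q, φ', by omega, isBilinear_bilQ h2, h5⟩

/-- the same for a property which is followed along the moves -/
theorem follow3 {n : ℕ} (f : MvPolynomial (Fin n) ℤ) (hf : f ≠ 0) :
    ∃ (κ m k : ℕ) (q : Fin k → MvPolynomial (Fin m ⊕ Fin m) ℤ), 1 ≤ κ ∧ IsBilinear q ∧
      Follow f ((Fin m ⊕ Fin m) ⊕ Fin k) κ (triSum q) := by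
  obtain ⟨κ, m, k, q, φ, h1, h2, h3⟩ := universal3 f hf
  refine ⟨κ, m, k, q, h1, h2, ?_⟩
  rw [← h3]
  exact follow_stab hf φ

end Pool.Agent.Q59.TR.Pa
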