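import Pool.Agent.Q59.TR.IdZ
import Pool.Agent.Y229.PG.Idl2
import Pool.Agent.Y230.HS.Strong

/-!
# The functional equations of the ideals `(f_j)` and `(Lin f_j, l_i)`
-/

set_option autoImplicit false

namespace Pool.Agent.Q59.TR.Id

open MvPolynomial Pool.Agent.W574.SM Pool.Agent.W574.HS
open Pool.Agent.Y229.PG (rename_lin lin_deg becomes_global becomesG_emb BecomesG)
open Pool.Agent.Y229.RE (xv yv zv emb emb_l emb_r)

section

variable {n r κ : ℕ}

/-- the variables `x, z` among the variables `u, x, z` -/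
def io (n r κ : ℕ) : Fin (n + κ) → Fin ((r + n) + κ) :=
  Fin.append (fun i => Fin.castAdd κ (Fin.natAdd r i)) (fun i => Fin.natAdd (r + n) i)

theorem io_l (i : Fin n) : io n r κ (Fin.castAdd κ i) = Fin.castAdd κ (Fin.natAdd r i) := by
  rw [io, Fin.append_left]

theorem io_r (i : Fin κ) : io n r κ (Fin.natAdd n i) = Fin.natAdd (r + n) i := by
  rw [io, Fin.append_right]

/-- the extension of an endomorphism by the identity on the variables `u` -/
noncomputable def ext (r : ℕ) (A : MvPolynomial (Fin (n + κ)) ℂ →ₐ[ℂ] MvPolynomial (Fin (n + κ)) ℂ) :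
    MvPolynomial (Fin ((r + n) + κ)) ℂ →ₐ[ℂ] MvPolynomial (Fin ((r + n) + κ)) ℂ :=
  aeval (Fin.append (fun i => X (Fin.castAdd κ i))
    (fun i => rename (io n r κ) (A (X (Fin.natAdd n i)))))

theorem ext_l (A : MvPolynomial (Fin (n + κ)) ℂ →ₐ[ℂ] MvPolynomial (Fin (n + κ)) ℂ)
    (i : Fin (r + n)) : ext r A (X (Fin.castAdd κ i)) = X (Fin.castAdd κ i) := by
  rw [ext, aeval_X, Fin.append_left]

theorem ext_r (A : MvPolynomial (Fin (n + κ)) ℂ →ₐ[ℂ] MvPolynomial (Fin (n + κ)) ℂ)
    (i : Fin κ) : ext r A (X (Fin.natAdd (r + n) i)) =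
      rename (io n r κ) (A (X (Fin.natAdd n i))) := by
  rw [ext, aeval_X, Fin.append_right]

theorem ext_rename (A : MvPolynomial (Fin (n + κ)) ℂ →ₐ[ℂ] MvPolynomial (Fin (n + κ)) ℂ)
    (hA : ∀ i : Fin n, A (X (Fin.castAdd κ i)) = X (Fin.castAdd κ i))
    (p : MvPolynomial (Fin (n + κ)) ℂ) :
    ext r A (rename (io n r κ) p) = rename (io n r κ) (A p) := by
  have h : (ext r A).comp (rename (io n r κ)) = (rename (io n r κ)).comp A := by
    apply MvPolynomial.algHom_ext
    intro i
    refine Fin.addCases (fun i => ?_) (fun i => ?_) i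
    · rw [AlgHom.comp_apply, AlgHom.comp_apply, rename_X, io_l, ext_l, hA, rename_X, io_l]
    · rw [AlgHom.comp_apply, AlgHom.comp_apply, rename_X, io_r, ext_r]
  exact DFunLike.congr_fun h p

/-- the extension of an automorphism -/
noncomputable def extE (r : ℕ)
    (A : MvPolynomial (Fin (n + κ)) ℂ ≃ₐ[ℂ] MvPolynomial (Fin (n + κ)) ℂ)
    (hA : ∀ i : Fin n, A (X (Fin.castAdd κ i)) = X (Fin.castAdd κ i)) :
    MvPolynomial (Fin ((r + n) + κ)) ℂ ≃ₐ[ℂ] MvPolynomial (Fin ((r + n) + κ)) ℂ :=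
  AlgEquiv.ofAlgHom (ext r (A : MvPolynomial (Fin (n + κ)) ℂ →ₐ[ℂ] MvPolynomial (Fin (n + κ)) ℂ))
    (ext r (A.symm : MvPolynomial (Fin (n + κ)) ℂ →ₐ[ℂ] MvPolynomial (Fin (n + κ)) ℂ))
    (by
      apply MvPolynomial.algHom_ext
      intro i
      refine Fin.addCases (fun i => ?_) (fun i => ?_) i
      · rw [AlgHom.comp_apply, AlgHom.id_apply, ext_l, ext_l]
      · rw [AlgHom.comp_apply, AlgHom.id_apply, ext_r, ext_rename _ (fun i => hA i)]
        have h : (A : MvPolynomial (Fin (n + κ)) ℂ →ₐ[ℂ] MvPolynomial (Fin (n + κ)) ℂ)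
            ((A.symm : MvPolynomial (Fin (n + κ)) ℂ →ₐ[ℂ] MvPolynomial (Fin (n + κ)) ℂ)
              (X (Fin.natAdd n i))) = X (Fin.natAdd n i) := A.apply_symm_apply _
        rw [h, rename_X, io_r])
    (by
      have hA' : ∀ i : Fin n, A.symm (X (Fin.castAdd κ i)) = X (Fin.castAdd κ i) := fun i => by
        rw [AlgEquiv.symm_apply_eq, hA]
      apply MvPolynomial.algHom_ext
      intro i
      refine Fin.addCases (fun i => ?_) (fun i => ?_) i
      · rw [AlgHom.comp_apply, AlgHom.id_apply, ext_l, ext_l]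
      · rw [AlgHom.comp_apply, AlgHom.id_apply, ext_r, ext_rename _ (fun i => hA' i)]
        have h : (A.symm : MvPolynomial (Fin (n + κ)) ℂ →ₐ[ℂ] MvPolynomial (Fin (n + κ)) ℂ)
            ((A : MvPolynomial (Fin (n + κ)) ℂ →ₐ[ℂ] MvPolynomial (Fin (n + κ)) ℂ)
              (X (Fin.natAdd n i))) = X (Fin.natAdd n i) := A.symm_apply_apply _
        rw [h, rename_X, io_r])

/-- the variables `u, x, y, z` as the variables of `∑ y_j g_j` -/
def eqv (n r κ : ℕ) : Fin ((r + n) + (κ + κ)) ≃ Fin (r + κ) ⊕ Fin (n + κ) where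
  toFun := Fin.append (Fin.append (fun j => Sum.inl (Fin.castAdd κ j))
    (fun i => Sum.inr (Fin.castAdd κ i)))
    (Fin.append (fun i => Sum.inl (Fin.natAdd r i)) (fun i => Sum.inr (Fin.natAdd n i)))
  invFun := Sum.elim (Fin.append (fun j => Fin.castAdd (κ + κ) (Fin.castAdd n j))
      (fun i => Fin.natAdd (r + n) (Fin.castAdd κ i)))
    (Fin.append (fun i => Fin.castAdd (κ + κ) (Fin.natAdd r i))
      (fun i => Fin.natAdd (r + n) (Fin.natAdd κ i)))
  left_inv := by
    intro i
    refine Fin.addCases (fun i => ?_) (fun i => ?_) i <;>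
    refine Fin.addCases (fun i => ?_) (fun i => ?_) i <;>
    simp only [Fin.append_left, Fin.append_right, Sum.elim_inl, Sum.elim_inr]
  right_inv := by
    rintro (i | i) <;>
    refine Fin.addCases (fun i => ?_) (fun i => ?_) i <;>
    simp only [Fin.append_left, Fin.append_right, Sum.elim_inl, Sum.elim_inr]

theorem eqv_u (j : Fin r) : eqv n r κ (xv κ (Fin.castAdd n j)) = Sum.inl (Fin.castAdd κ j) := by
  show Fin.append _ _ _ = _
  unfold xv
  rw [Fin.append_left, Fin.append_left]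

theorem eqv_x (i : Fin n) : eqv n r κ (xv κ (Fin.natAdd r i)) = Sum.inr (Fin.castAdd κ i) := by
  show Fin.append _ _ _ = _
  unfold xv
  rw [Fin.append_left, Fin.append_right]

theorem eqv_y (i : Fin κ) : eqv n r κ (yv (r + n) i) = Sum.inl (Fin.natAdd r i) := by
  show Fin.append _ _ _ = _
  unfold yv
  rw [Fin.append_right, Fin.append_left]

theorem eqv_z (i : Fin κ) : eqv n r κ (zv (r + n) i) = Sum.inr (Fin.natAdd n i) := by
  show Fin.append _ _ _ = _
  unfold zv
  rw [Fin.append_right, Fin.append_right]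

theorem eqv_io (i : Fin (n + κ)) : eqv n r κ (emb (io n r κ i)) = Sum.inr i := by
  refine Fin.addCases (fun i => ?_) (fun i => ?_) i
  · rw [io_l, emb_l, eqv_x]
  · rw [io_r, emb_r, eqv_z]

/-- **The functional equation of the enlarged ideal.** Let `θ` be an automorphism of the ring of
polynomials in `x, z` over the one in `x`, and let `g_j ≡ f_j` modulo the `θ(z_i)`. -/
theorem functionalEq_ext {f : Fin r → MvPolynomial (Fin n) ℂ} (hf : ∃ j, f j ≠ 0)
    {b : Polynomial ℂ} (hb : IsFunctionalEq f b)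
    (θ : MvPolynomial (Fin (n + κ)) ℂ ≃ₐ[ℂ] MvPolynomial (Fin (n + κ)) ℂ)
    (hθ : ∀ i : Fin n, θ (X (Fin.castAdd κ i)) = X (Fin.castAdd κ i))
    (g : Fin r → MvPolynomial (Fin (n + κ)) ℂ)
    (q : Fin r → Fin κ → MvPolynomial (Fin (n + κ)) ℂ)
    (hg : ∀ j, g j = rename (Fin.castAdd κ) (f j) + ∑ i, q j i * θ (X (Fin.natAdd n i))) :
    IsFunctionalEq (Fin.append g fun i => θ (X (Fin.natAdd n i)))
      (b.comp (Polynomial.X + Polynomial.C (κ : ℂ))) := by
  classical
  have h1 := Pool.Agent.W366.SI.taskI1 f _ hb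
  have h2 := Pool.Agent.W578.SI.taskI2.1 (finSumFinEquiv : Fin r ⊕ Fin n ≃ Fin (r + n)) _ _ h1
  rw [rename_lin] at h2
  have h3 := becomesG_emb (∑ j : Fin r, X (Fin.castAdd κ (Fin.castAdd n j)) *
      rename (io n r κ) (g j)) (fun i => rename (io n r κ) (θ (X (Fin.natAdd n i))))
    (extE r θ hθ) (fun i => ext_l _ i) (fun i => ext_r _ i) (Pool.Agent.Y229.PG.lin f)
    (fun i => ∑ j : Fin r, X (Fin.castAdd κ (Fin.castAdd n j)) * rename (io n r κ) (q j i)) (by
      unfold Pool.Agent.Y229.PG.lin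
      rw [map_sum]
      simp only [Finset.sum_mul]
      rw [Finset.sum_comm, ← Finset.sum_add_distrib]
      refine Finset.sum_congr rfl fun j _ => ?_
      rw [hg j, map_add, map_sum, mul_add, Finset.mul_sum, map_mul, rename_X, rename_rename,
        rename_rename]
      have e1 : (io n r κ ∘ Fin.castAdd κ : Fin n → _) = Fin.castAdd κ ∘ Fin.natAdd r :=
        funext fun i => io_l i
      rw [e1]
      congr 1
      refine Finset.sum_congr rfl fun i _ => ?_
      rw [map_mul]
      ring)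
  obtain ⟨-, h4⟩ := becomes_global (lin_deg f hf) h2 h3
  have h5 := h4 b rfl
  have h6 := Pool.Agent.W578.SI.taskI2.1 (eqv n r κ) _ _ h5
  have h7 : rename (eqv n r κ) (rename emb (∑ j : Fin r, X (Fin.castAdd κ (Fin.castAdd n j)) *
      rename (io n r κ) (g j)) + ∑ i : Fin κ, X (yv (r + n) i) *
        rename emb (rename (io n r κ) (θ (X (Fin.natAdd n i))))) =
      univ (Fin.append g fun i => θ (X (Fin.natAdd n i))) := by
    have e2 : ∀ p : MvPolynomial (Fin (n + κ)) ℂ,
        rename (eqv n r κ) (rename emb (rename (io n r κ) p)) = rename Sum.inr p := by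
      intro p
      rw [rename_rename, rename_rename]
      congr 1
      congr 1
      funext i
      exact eqv_io i
    unfold univ
    rw [Fin.sum_univ_add, map_add, map_sum, map_sum, map_sum]
    congr 1
    · refine Finset.sum_congr rfl fun j _ => ?_
      rw [map_mul, map_mul, e2, Fin.append_left, rename_X, rename_X, emb_l, eqv_u]
    · refine Finset.sum_congr rfl fun i _ => ?_
      rw [map_mul, e2, Fin.append_right, rename_X, eqv_y]
  rw [h7] at h6
  obtain ⟨b', h8, h9⟩ := Pool.Agent.Y230.HS.functionalEq_of_univ_strong _ _ (by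
    obtain ⟨j, hj⟩ := hf
    by_contra hno
    push Not at hno
    apply hj
    have h10 := hno (Fin.castAdd κ j)
    rw [Fin.append_left] at h10
    have h11 : ∀ i, θ (X (Fin.natAdd n i)) = 0 := fun i => by
      have := hno (Fin.natAdd r i)
      rwa [Fin.append_right] at this
    rw [hg j] at h10
    simp only [h11, mul_zero, Finset.sum_const_zero, add_zero] at h10
    exact (rename_injective _ (Fin.castAdd_injective n κ)) (by rw [h10, map_zero])) h6
  have h12 : b.comp (Polynomial.X + Polynomial.C (κ : ℂ)) = b' := by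
    have h13 : (Polynomial.X + 1 : Polynomial ℂ) ≠ 0 := by
      rw [← Polynomial.C_1]
      exact Polynomial.X_add_C_ne_zero 1
    exact mul_left_cancel₀ h13 h8
  rw [h12]
  exact h9

end

end Pool.Agent.Q59.TR.Id
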