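import Pool.Agent.Q59.TR.Top
import Pool.Agent.TH192.MU.TDefs

/-!
# Jets and ideals: new coordinates, changes of the coordinates and of the generators
-/

set_option autoImplicit false

namespace Pool.Agent.Q59.TR.Id

open MvPolynomial Pool.Agent.W428.MOT Pool.Agent.W375.MT
open Pool.Agent.TH192.MT (JetF)
open Pool.Agent.Y812.MS (Fl card_Fl rsl exl)

variable {K : Type} [Field K] {n : ℕ}

/-- The `N`-jets with origin in `W` on which the ideal `(f_j)` has order at least `i`. -/
def TF {J : Type} (f : J → MvPolynomial (Fin n) K) (W : Set (Pt K (Fin n))) (i N : ℕ) :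
    Set (Pt K (Fin n × Fin (N + 1))) :=
  {z | (fun i => z (i, 0)) ∈ W ∧ ∀ j, ∀ k < i, PowerSeries.coeff k (aeval (arc z) (f j)) = 0}

theorem constr_TF {J : Type} [Finite J] (f : J → MvPolynomial (Fin n) K)
    {W : Set (Pt K (Fin n))} (hW : Constr W) (i N : ℕ) : Constr (TF f W i N) := by
  unfold TF
  refine Constr.and (hW.preimage _ fun i => IsPF.coord _) (Constr.all fun j =>
    Constr.allLt _ fun k _ => ?_)
  exact Constr.eqz (IsPA.aeval (fun i z => arc z i) (fun i => isPA_arc i) (f j) k)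

theorem jetF_eq {J : Type} (f : J → MvPolynomial (Fin n) K) (W : Set (Pt K (Fin n))) (N : ℕ) :
    JetF f W N = TF f W N N ∩ {z | ∃ j, PowerSeries.coeff N (aeval (arc z) (f j)) ≠ 0} := by
  ext z
  constructor
  · rintro ⟨h1, h2, h3⟩
    exact ⟨⟨h1, h2⟩, h3⟩
  · rintro ⟨⟨h1, h2⟩, h3⟩
    exact ⟨h1, h2, h3⟩

theorem constr_JetF {J : Type} [Finite J] (f : J → MvPolynomial (Fin n) K)
    {W : Set (Pt K (Fin n))} (hW : Constr W) (N : ℕ) : Constr (JetF f W N) := by
  rw [jetF_eq]
  refine (constr_TF f hW N N).inter (Constr.ex fun j => ?_)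
  exact (Constr.eqz (IsPA.aeval (fun i z => arc z i) (fun i => isPA_arc i) (f j) N)).not

variable {R : Type} [CommRing R] (M : Meas K R)

/-- order `N`, and order at least `N + 1` -/
theorem chi_split {J : Type} [Finite J] (f : J → MvPolynomial (Fin n) K)
    {W : Set (Pt K (Fin n))} (hW : Constr W) (N : ℕ) :
    M.χ _ (TF f W N N) = M.χ _ (JetF f W N) + M.χ _ (TF f W (N + 1) N) := by
  rw [← M.add _ _ (constr_JetF f hW N) (constr_TF f hW (N + 1) N)]
  · congr 1
    ext z
    rw [jetF_eq]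
    constructor
    · intro h
      by_cases h1 : ∃ j, PowerSeries.coeff N (aeval (arc z) (f j)) ≠ 0
      · exact Or.inl ⟨h, h1⟩
      · right
        push Not at h1
        refine ⟨h.1, fun j k hk => ?_⟩
        rcases Nat.lt_succ_iff_lt_or_eq.1 hk with h2 | rfl
        · exact h.2 j k h2
        · exact h1 j
    · rintro (h | h)
      · exact h.1
      · exact ⟨h.1, fun j k hk => h.2 j k (by omega)⟩
  · rw [Set.disjoint_left]
    rintro z hz1 hz2
    rw [jetF_eq] at hz1
    obtain ⟨j, hj⟩ := hz1.2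
    exact hj (hz2.2 j N (Nat.lt_succ_self N))

theorem tf_free {J : Type} (f : J → MvPolynomial (Fin n) K) (W : Set (Pt K (Fin n))) (i N : ℕ)
    (hi : i ≤ N + 1) (z w : Pt K (Fin n × Fin (N + 1 + 1))) (h : ∀ p, p ∉ Fl n N → w p = z p)
    (hz : z ∈ TF f W i (N + 1)) : w ∈ TF f W i (N + 1) := by
  obtain ⟨h1, h2⟩ := hz
  have h4 : ∀ l, ∀ j ≤ N, PowerSeries.coeff j (aeval (arc w) (f l)) =
      PowerSeries.coeff j (aeval (arc z) (f l)) := by
    intro l
    refine coeff_aeval_congr (f l) N (arc w) (arc z) ?_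
    intro i k hk
    rw [coeff_arc _ _ _ (by omega), coeff_arc _ _ _ (by omega)]
    exact h _ (by simp only [Fl, Finset.mem_filter, Finset.mem_univ, true_and]; omega)
  refine ⟨?_, fun l j hj => ?_⟩
  · have : (fun i => w (i, 0)) = fun i => z (i, 0) := by
      funext i
      exact h (i, 0) (by simp [Fl])
    rw [this]
    exact h1
  · rw [h4 l j (by omega)]
    exact h2 l j hj

theorem tf_eq {J : Type} [Finite J] (f : J → MvPolynomial (Fin n) K)
    {W : Set (Pt K (Fin n))} (hW : Constr W) (i N : ℕ) (hi : i ≤ N + 1) :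
    M.χ _ (TF f W i (N + 1) ∩ {z | ∀ p ∈ Fl n N, z p = 0}) = M.χ _ (TF f W i N) := by
  refine M.iso _ _ ((constr_TF f hW i (N + 1)).inter (Constr.ballFinset _ fun p _ =>
    Constr.eqz (IsPF.coord _))) (constr_TF f hW i N) rsl exl
    (regularOn_poly (fun p => IsPF.coord _) _) (regularOn_poly (fun p => ?_) _) ?_ ?_ ?_ ?_
  · unfold exl
    by_cases h : (p.2 : ℕ) < N + 1
    · simp only [dif_pos h]
      exact IsPF.coord _
    · simp only [dif_neg h]
      exact IsPF.zero
  · rintro z ⟨⟨h1, h2⟩, h3⟩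
    have h4 : ∀ l, ∀ j ≤ N, PowerSeries.coeff j (aeval (arc (rsl z)) (f l)) =
        PowerSeries.coeff j (aeval (arc z) (f l)) := by
      intro l
      refine coeff_aeval_congr (f l) N (arc (rsl z)) (arc z) ?_
      intro i k hk
      rw [coeff_arc _ _ _ (by omega), coeff_arc _ _ _ (by omega)]
      rfl
    refine ⟨h1, fun l j hj => ?_⟩
    rw [h4 l j (by omega)]
    exact h2 l j hj
  · rintro z ⟨h1, h2⟩
    have h4 : ∀ l, ∀ j ≤ N, PowerSeries.coeff j (aeval (arc (exl z)) (f l)) =
        PowerSeries.coeff j (aeval (arc z) (f l)) := by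
      intro l
      refine coeff_aeval_congr (f l) N (arc (exl z)) (arc z) ?_
      intro i k hk
      rw [coeff_arc _ _ _ (by omega), coeff_arc _ _ _ (by omega)]
      simp only [exl]
      rw [dif_pos (by omega)]
    refine ⟨⟨h1, fun l j hj => ?_⟩, ?_⟩
    · rw [h4 l j (by omega)]
      exact h2 l j hj
    · intro p hp
      simp only [Fl, Finset.mem_filter, Finset.mem_univ, true_and] at hp
      simp only [exl]
      rw [dif_neg (by omega)]
  · rintro z ⟨-, h3⟩
    funext p
    simp only [exl, rsl]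
    split_ifs with h
    · rfl
    · exact (h3 p (by
        have := p.2.2
        simp only [Fl, Finset.mem_filter, Finset.mem_univ, true_and]; omega)).symm
  · rintro z -
    funext p
    simp only [exl, rsl]
    rw [dif_pos p.2.2]

/-- one more coefficient -/
theorem tf_level {J : Type} [Finite J] (f : J → MvPolynomial (Fin n) K)
    {W : Set (Pt K (Fin n))} (hW : Constr W) (i N : ℕ) (hi : i ≤ N + 1) :
    M.χ _ (TF f W i N) * M.L ^ n = M.χ _ (TF f W i (N + 1)) := by
  classical
  have e1 := Pool.Agent.W417.MT.Free.main M (TF f W i (N + 1)) ∅ (Fl n N) (fun _ => 0)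
    (Finset.disjoint_empty_left _) (constr_TF f hW i (N + 1))
    (fun z w h hz => tf_free f W i N hi z w (fun p hp => h p (by simp) hp) hz)
  simp only [Finset.notMem_empty, false_implies, implies_true, Set.ofPred_true, Set.inter_univ,
    Finset.empty_union, map_zero, Finset.card_empty, pow_zero, mul_one] at e1
  rw [card_Fl, tf_eq M f hW i N hi] at e1
  exact e1.symm

/-! ### New coordinates -/

/-- the family `f_j, z_i` -/
noncomputable def addz {r : ℕ} (f : Fin r → MvPolynomial (Fin n) K) (κ : ℕ) :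
    Fin (r + κ) → MvPolynomial (Fin (n + κ)) K :=
  Fin.append (fun j => rename (Fin.castAdd κ) (f j)) fun i => X (Fin.natAdd n i)

/-- the origins for the new coordinates -/
def cyl (W : Set (Pt K (Fin n))) (κ : ℕ) : Set (Pt K (Fin (n + κ))) :=
  {w | (fun i => w (Fin.castAdd κ i)) ∈ W}

theorem constr_cyl {W : Set (Pt K (Fin n))} (hW : Constr W) (κ : ℕ) : Constr (cyl W κ) :=
  hW.preimage _ fun _ => IsPF.coord _

/-- restriction to the old coordinates -/
def rsz {κ N : ℕ} (z : Pt K (Fin (n + κ) × Fin (N + 1))) : Pt K (Fin n × Fin (N + 1)) :=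
  fun p => z (Fin.castAdd κ p.1, p.2)

/-- extension by zero -/
noncomputable def exz {κ N : ℕ} (z : Pt K (Fin n × Fin (N + 1))) :
    Pt K (Fin (n + κ) × Fin (N + 1)) :=
  fun p => Fin.append (fun i => z (i, p.2)) (fun _ => 0) p.1

theorem aeval_addz {r κ N : ℕ} (f : Fin r → MvPolynomial (Fin n) K) (j : Fin r)
    (z : Pt K (Fin (n + κ) × Fin (N + 1))) :
    aeval (arc z) (addz f κ (Fin.castAdd κ j)) = aeval (arc (rsz z)) (f j) := by
  unfold addz
  rw [Fin.append_left, aeval_rename]
  rfl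

theorem aeval_addz' {r κ N : ℕ} (f : Fin r → MvPolynomial (Fin n) K) (i : Fin κ)
    (z : Pt K (Fin (n + κ) × Fin (N + 1))) :
    aeval (arc z) (addz f κ (Fin.natAdd r i)) = arc z (Fin.natAdd n i) := by
  unfold addz
  rw [Fin.append_right, aeval_X]

/-- the last coefficients of the new coordinates -/
def Fz (n κ N : ℕ) : Finset (Fin (n + κ) × Fin (N + 1)) :=
  Finset.univ.image fun i : Fin κ => (Fin.natAdd n i, Fin.last N)

theorem card_Fz (n κ N : ℕ) : (Fz n κ N).card = κ := by
  unfold Fz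
  rw [Finset.card_image_of_injective, Finset.card_univ, Fintype.card_fin]
  intro i j h
  exact Fin.natAdd_injective _ _ (Prod.ext_iff.1 h).1

theorem mem_Fz {κ N : ℕ} (p : Fin (n + κ) × Fin (N + 1)) :
    p ∈ Fz n κ N ↔ ∃ i : Fin κ, p = (Fin.natAdd n i, Fin.last N) := by
  simp [Fz, eq_comm]

theorem mem_addz {r κ N : ℕ} (f : Fin r → MvPolynomial (Fin n) K) (W : Set (Pt K (Fin n)))
    (z : Pt K (Fin (n + κ) × Fin (N + 1))) :
    z ∈ TF (addz f κ) (cyl W κ) N N ↔ rsz z ∈ TF f W N N ∧
      ∀ (i : Fin κ) (k : Fin (N + 1)), (k : ℕ) < N → z (Fin.natAdd n i, k) = 0 := by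
  constructor
  · rintro ⟨h1, h2⟩
    refine ⟨⟨h1, fun j k hk => ?_⟩, fun i k hk => ?_⟩
    · have h3 := h2 (Fin.castAdd κ j) k hk
      rwa [aeval_addz] at h3
    · have h3 := h2 (Fin.natAdd r i) k hk
      rw [aeval_addz', coeff_arc _ _ _ k.2] at h3
      exact h3
  · rintro ⟨⟨h1, h2⟩, h3⟩
    refine ⟨h1, fun j => ?_⟩
    refine Fin.addCases (fun j => ?_) (fun i => ?_) j
    · intro k hk
      rw [aeval_addz]
      exact h2 j k hk
    · intro k hk
      rw [aeval_addz', coeff_arc _ _ _ (by omega)]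
      exact h3 i ⟨k, by omega⟩ hk

/-- **The classes for the ideal `(f_j, z_i)`.** -/
theorem chi_addz {r : ℕ} (f : Fin r → MvPolynomial (Fin n) K) {W : Set (Pt K (Fin n))}
    (hW : Constr W) (κ N : ℕ) :
    M.χ _ (TF (addz f κ) (cyl W κ) N N) = M.χ _ (TF f W N N) * M.L ^ κ := by
  classical
  have e1 := Pool.Agent.W417.MT.Free.main M (TF (addz f κ) (cyl W κ) N N) ∅ (Fz n κ N)
    (fun _ => 0) (Finset.disjoint_empty_left _) (constr_TF _ (constr_cyl hW κ) N N)
    (fun z w h hz => by
      rw [mem_addz] at hz ⊢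
      have hr : rsz w = rsz z := by
        funext p
        refine h _ (by simp) ?_
        rw [mem_Fz]
        rintro ⟨i, hi⟩
        have h3 := congrArg Fin.val (Prod.ext_iff.1 hi).1
        simp only [Fin.val_castAdd, Fin.val_natAdd] at h3
        have := p.1.2
        omega
      rw [hr]
      refine ⟨hz.1, fun i k hk => ?_⟩
      rw [h _ (by simp) ?_]
      · exact hz.2 i k hk
      · rw [mem_Fz]
        rintro ⟨i', hi'⟩
        have h3 := congrArg Fin.val (Prod.ext_iff.1 hi').2
        simp only [Fin.val_last] at h3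
        omega)
  simp only [Finset.notMem_empty, false_implies, implies_true, Set.ofPred_true, Set.inter_univ,
    Finset.empty_union, map_zero, Finset.card_empty, pow_zero, mul_one] at e1
  rw [card_Fz] at e1
  rw [e1]
  congr 1
  refine M.iso _ _ ((constr_TF _ (constr_cyl hW κ) N N).inter (Constr.ballFinset _ fun p _ =>
    Constr.eqz (IsPF.coord _))) (constr_TF f hW N N) rsz exz
    (regularOn_poly (fun p => IsPF.coord _) _) (regularOn_poly (fun p => ?_) _) ?_ ?_ ?_ ?_
  · unfold exz
    obtain ⟨i, k⟩ := p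
    refine Fin.addCases (fun i => ?_) (fun i => ?_) i
    · simp only [Fin.append_left]
      exact IsPF.coord _
    · simp only [Fin.append_right]
      exact IsPF.zero
  · rintro z ⟨h1, -⟩
    exact ((mem_addz f W z).1 h1).1
  · intro z hz
    have hr : rsz (exz (κ := κ) z) = z := by
      funext p
      simp only [rsz, exz, Fin.append_left]
    refine ⟨(mem_addz f W _).2 ⟨?_, fun i k _ => ?_⟩, fun p hp => ?_⟩
    · rw [hr]
      exact hz
    · simp only [exz, Fin.append_right]
    · obtain ⟨i, rfl⟩ := (mem_Fz p).1 hp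
      simp only [exz, Fin.append_right]
  · rintro z ⟨h1, h2⟩
    funext p
    obtain ⟨i, k⟩ := p
    revert i
    intro i
    refine Fin.addCases (fun i => ?_) (fun i => ?_) i
    · simp only [exz, rsz, Fin.append_left]
    · simp only [exz, Fin.append_right]
      by_cases hk : (k : ℕ) < N
      · exact (((mem_addz f W z).1 h1).2 i k hk).symm
      · have hk' : k = Fin.last N := Fin.ext (by rw [Fin.val_last]; omega)
        exact (h2 _ ((mem_Fz _).2 ⟨i, by rw [hk']⟩)).symm
  · intro z _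
    funext p
    simp only [rsz, exz, Fin.append_left]

/-! ### Changes of the coordinates -/

open Pool.Agent.Z864.MS (Tm Tm_Tm isPF_Tm coeff_Tm aeval_cmp)

theorem chi_iso {a b : ℕ} {J : Type} [Finite J]
    (ψ : MvPolynomial (Fin a) K ≃ₐ[K] MvPolynomial (Fin b) K) (f : J → MvPolynomial (Fin a) K)
    {W : Set (Pt K (Fin a))} (hW : Constr W) (i N : ℕ) (hi : i ≤ N + 1) :
    M.χ _ (TF (fun j => ψ (f j)) {w : Pt K (Fin b) | (fun i => aeval w (ψ (X i))) ∈ W} i N) =
      M.χ _ (TF f W i N) := by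
  have hW' : Constr {w : Pt K (Fin b) | (fun i => aeval w (ψ (X i))) ∈ W} :=
    hW.preimage _ fun i => IsPF.poly _
  have h1 : ∀ g, (ψ : MvPolynomial (Fin a) K →ₐ[K] MvPolynomial (Fin b) K)
      ((ψ.symm : MvPolynomial (Fin b) K →ₐ[K] MvPolynomial (Fin a) K) g) = g :=
    fun g => ψ.apply_symm_apply g
  have h2 : ∀ g, (ψ.symm : MvPolynomial (Fin b) K →ₐ[K] MvPolynomial (Fin a) K)
      ((ψ : MvPolynomial (Fin a) K →ₐ[K] MvPolynomial (Fin b) K) g) = g :=
    fun g => ψ.symm_apply_apply g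
  refine M.iso _ _ (constr_TF _ hW' i N) (constr_TF f hW i N)
    (Tm (ψ : MvPolynomial (Fin a) K →ₐ[K] MvPolynomial (Fin b) K) N)
    (Tm (ψ.symm : MvPolynomial (Fin b) K →ₐ[K] MvPolynomial (Fin a) K) N)
    (regularOn_poly (fun p => isPF_Tm _ p) _) (regularOn_poly (fun p => isPF_Tm _ p) _)
    ?_ ?_ (fun z _ => Tm_Tm _ _ h1 z) (fun z _ => Tm_Tm _ _ h2 z)
  · rintro z ⟨g1, g2⟩
    refine ⟨?_, fun l j hj => ?_⟩
    · have e : (fun i => Tm (ψ : MvPolynomial (Fin a) K →ₐ[K] MvPolynomial (Fin b) K) N z (i, 0)) =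
          fun i => aeval (fun i => z (i, 0)) (ψ (X i)) := by
        funext l
        change PowerSeries.coeff 0 (aeval (arc z) (ψ (X l))) = _
        rw [Pool.Agent.Z864.MS.coeff_zero_aeval]
      rw [e]
      exact g1
    · rw [coeff_Tm _ _ _ _ (by omega)]
      exact g2 l j hj
  · rintro z ⟨g1, g2⟩
    refine ⟨?_, fun l j hj => ?_⟩
    · have e : (fun i => Tm (ψ.symm : MvPolynomial (Fin b) K →ₐ[K] MvPolynomial (Fin a) K) N z
          (i, 0)) = fun i => aeval (fun i => z (i, 0))
            ((ψ.symm : MvPolynomial (Fin b) K →ₐ[K] MvPolynomial (Fin a) K) (X i)) := by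
        funext l
        change PowerSeries.coeff 0 (aeval (arc z) (ψ.symm (X l))) = _
        rw [Pool.Agent.Z864.MS.coeff_zero_aeval]
        rfl
      change (fun i => aeval (fun i => Tm (ψ.symm : MvPolynomial (Fin b) K →ₐ[K]
        MvPolynomial (Fin a) K) N z (i, 0)) (ψ (X i))) ∈ W
      rw [e]
      have e2 : (fun i => aeval (fun i => aeval (fun i => z (i, 0))
            ((ψ.symm : MvPolynomial (Fin b) K →ₐ[K] MvPolynomial (Fin a) K) (X i)))
            (ψ (X i))) = fun i => z (i, 0) := by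
        funext i
        rw [aeval_cmp]
        have e3 : (ψ.symm : MvPolynomial (Fin b) K →ₐ[K] MvPolynomial (Fin a) K) (ψ (X i)) =
            X i := ψ.symm_apply_apply (X i)
        rw [e3, aeval_X]
      rw [e2]
      exact g1
    · rw [coeff_Tm _ _ _ _ (by omega)]
      have e3 : (ψ.symm : MvPolynomial (Fin b) K →ₐ[K] MvPolynomial (Fin a) K) (ψ (f l)) = f l :=
        ψ.symm_apply_apply (f l)
      rw [e3]
      exact g2 l j hj

/-! ### Changes of the generators -/

theorem coeff_mem {N : ℕ} {J : Type} (f : J → MvPolynomial (Fin n) K)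
    (z : Pt K (Fin n × Fin (N + 1))) (i : ℕ)
    (h : ∀ j, ∀ k < i, PowerSeries.coeff k (aeval (arc z) (f j)) = 0)
    {g : MvPolynomial (Fin n) K} (hg : g ∈ Ideal.span (Set.range f)) :
    ∀ k < i, PowerSeries.coeff k (aeval (arc z) g) = 0 := by
  have hX : ∀ p : PowerSeries (AlgebraicClosure K), (∀ k < i, PowerSeries.coeff k p = 0) ↔
      (PowerSeries.X : PowerSeries (AlgebraicClosure K)) ^ i ∣ p := fun p =>
    PowerSeries.X_pow_dvd_iff.symm
  rw [hX]
  have h1 : ∀ j, (PowerSeries.X : PowerSeries (AlgebraicClosure K)) ^ i ∣ aeval (arc z) (f j) :=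
    fun j => (hX _).1 (h j)
  have h2 : Ideal.span (Set.range f) ≤ (Ideal.span {(PowerSeries.X :
      PowerSeries (AlgebraicClosure K)) ^ i}).comap
        (aeval (arc z) : MvPolynomial (Fin n) K →ₐ[K] _).toRingHom := by
    rw [Ideal.span_le]
    rintro _ ⟨j, rfl⟩
    exact Ideal.mem_span_singleton.2 (h1 j)
  exact Ideal.mem_span_singleton.1 (h2 hg)

/-- the order of an ideal does not depend on the generators -/
theorem tf_span {J J' : Type} (f : J → MvPolynomial (Fin n) K) (g : J' → MvPolynomial (Fin n) K)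
    (h : Ideal.span (Set.range f) = Ideal.span (Set.range g)) (W : Set (Pt K (Fin n)))
    (i N : ℕ) : TF f W i N = TF g W i N := by
  ext z
  constructor
  · rintro ⟨h1, h2⟩
    refine ⟨h1, fun j => coeff_mem f z i h2 ?_⟩
    rw [h]
    exact Ideal.subset_span ⟨j, rfl⟩
  · rintro ⟨h1, h2⟩
    refine ⟨h1, fun j => coeff_mem g z i h2 ?_⟩
    rw [← h]
    exact Ideal.subset_span ⟨j, rfl⟩

end Pool.Agent.Q59.TR.Id
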