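import Pool.Agent.Q59.TR.IdB

/-!
# Reduction of the strong monodromy conjecture for ideals to ideals generated by polynomials of
degree at most one and by polynomials `z - x y`
-/

set_option autoImplicit false

namespace Pool.Agent.Q59.TR.Id

open MvPolynomial Pool.Agent.W574.SM Pool.Agent.W574.HS Pool.Agent.W428.MOT Pool.Agent.W375.MT
open Pool.Agent.TH192.MU (IsTopZeta zetaId)

/-- every `f_j` is of degree at most one, or of the form `x_a - x_b x_c`, with `x_b` in the first
and `x_c` in the second of two groups of variables -/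
def Bil {K : Type} [CommRing K] {n r : ℕ} (f : Fin r → MvPolynomial (Fin n) K) : Prop :=
  ∃ col : Fin n → Fin 2, ∀ j, (f j).totalDegree ≤ 1 ∨
    ∃ a b c : Fin n, col b = 0 ∧ col c = 1 ∧ f j = X a - X b * X c

section words

variable {R : Type} [CommRing R] {n D κ : ℕ} (e : Zt n D ≃ Fin κ)

/-- the two groups -/
def c2 (i : Fin (n + κ)) : Fin 2 := if cxz e i = 2 then 1 else 0

theorem c2_cc (j : Fin n) : c2 e (Fin.natAdd n (e (Sum.inl j))) = 1 := by
  unfold c2 cxz
  rw [Fin.append_right, Equiv.symm_apply_apply]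
  rfl

theorem c2_x (j : Fin n) : c2 e (Fin.castAdd κ j) = 0 := by
  unfold c2 cxz
  rw [Fin.append_left]
  rfl

theorem c2_w (w : Wd n D) : c2 e (Fin.natAdd n (e (Sum.inr w))) = 0 := by
  unfold c2 cxz
  rw [Fin.append_right, Equiv.symm_apply_apply]
  rfl

theorem deg_X {M : Type} (i : M) : (X i : MvPolynomial M R).totalDegree ≤ 1 := by
  rcases subsingleton_or_nontrivial R with h | h
  · rw [Subsingleton.elim (X i : MvPolynomial M R) 0, totalDegree_zero]
    exact Nat.zero_le _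
  · rw [totalDegree_X]

theorem deg_V : ∀ w : List (Fin n), (V (R := R) e w).totalDegree ≤ 1
  | [] => by
    rw [V, totalDegree_one]
    exact Nat.zero_le _
  | [i] => by
    rw [V]
    exact deg_X _
  | i :: j :: w => by
    rw [V]
    split_ifs with h
    · exact deg_X _
    · rw [totalDegree_zero]
      exact Nat.zero_le _

theorem deg_Lin (f : MvPolynomial (Fin n) R) : (Lin e f).totalDegree ≤ 1 := by
  unfold Lin
  refine totalDegree_finsetSum_le fun m _ => ?_
  refine (totalDegree_mul _ _).trans ?_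
  rw [totalDegree_C, zero_add]
  exact deg_V e _

theorem V_var : ∀ w : List (Fin n), w ≠ [] → w.length ≤ D →
    ∃ b : Fin (n + κ), c2 e b = 0 ∧ V (R := R) e w = X b
  | [], h, _ => absurd rfl h
  | [i], _, _ => ⟨Fin.castAdd κ i, c2_x e i, by rw [V]; rfl⟩
  | i :: j :: w, _, h => ⟨_, c2_w e ⟨i :: j :: w, by simp, h⟩, by rw [V, dif_pos h]⟩

theorem ll_form (i : Fin κ) : (ll (R := R) e i).totalDegree ≤ 1 ∨
    ∃ a b c : Fin (n + κ), c2 e b = 0 ∧ c2 e c = 1 ∧ ll (R := R) e i = X a - X b * X c := by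
  unfold ll
  match e.symm i with
  | Sum.inl j =>
    left
    simp only [lZ]
    refine (totalDegree_sub _ _).trans (max_le (deg_X _) (deg_X _))
  | Sum.inr ⟨[], hw⟩ => exact absurd hw.1 (by simp)
  | Sum.inr ⟨[i], hw⟩ => exact absurd hw.1 (by simp)
  | Sum.inr ⟨i :: j :: w, hw⟩ =>
    right
    obtain ⟨a, -, ha⟩ := V_var (R := R) e (i :: j :: w) (by simp) hw.2
    obtain ⟨b, hb0, hb⟩ := V_var (R := R) e (j :: w) (by simp) (by
      have := hw.2
      simp only [List.length_cons] at this ⊢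
      omega)
    refine ⟨a, b, _, hb0, c2_cc e i, ?_⟩
    simp only [lZ]
    rw [ha, hb]
    rfl

end words

/-- **The normal form.** -/
theorem exists_bil {n r : ℕ} (f : Fin r → MvPolynomial (Fin n) ℂ) (hn : 0 < n)
    (hf : ∃ j, f j ≠ 0) :
    ∃ (κ : ℕ) (g : Fin (r + κ) → MvPolynomial (Fin (n + κ)) ℂ)
      (θ : MvPolynomial (Fin (n + κ)) ℂ ≃ₐ[ℂ] MvPolynomial (Fin (n + κ)) ℂ), 0 < κ ∧ Bil g ∧
      Ideal.span (Set.range fun j => θ (addz f κ j)) = Ideal.span (Set.range g) ∧
      ∀ b : Polynomial ℂ, IsFunctionalEq f b →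
        IsFunctionalEq g (b.comp (Polynomial.X + Polynomial.C (κ : ℂ))) := by
  classical
  set D := Finset.univ.sup fun j => (f j).totalDegree with hD
  obtain ⟨κ, ⟨e⟩⟩ := Finite.exists_equiv_fin (Zt n D)
  have hκ : 0 < κ := Fin.pos (e (Sum.inl ⟨0, hn⟩))
  have hDj : ∀ j, (f j).totalDegree ≤ D := fun j =>
    Finset.le_sup (f := fun j => (f j).totalDegree) (Finset.mem_univ j)
  choose q hq using fun j => exists_q e (f j) (hDj j)
  refine ⟨κ, Fin.append (fun j => Lin e (f j)) (fun i => ll e i), theta e, hκ,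
    ⟨c2 e, fun j => ?_⟩, ?_, fun b hb => ?_⟩
  · refine Fin.addCases (fun j => ?_) (fun i => ?_) j
    · left
      rw [Fin.append_left]
      exact deg_Lin e _
    · rw [Fin.append_right]
      exact ll_form e i
  · have e1 : ∀ j, theta e (addz f κ (Fin.castAdd κ j)) = rename (Fin.castAdd κ) (f j) := by
      intro j
      unfold addz
      rw [Fin.append_left]
      have h : ((theta e : MvPolynomial (Fin (n + κ)) ℂ ≃ₐ[ℂ] _) :
          MvPolynomial (Fin (n + κ)) ℂ →ₐ[ℂ] MvPolynomial (Fin (n + κ)) ℂ).comp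
          (rename (Fin.castAdd κ)) = rename (Fin.castAdd κ) := by
        apply MvPolynomial.algHom_ext
        intro i
        rw [AlgHom.comp_apply, rename_X]
        exact theta_x e i
      exact DFunLike.congr_fun h (f j)
    have e2 : ∀ i, theta e (addz f κ (Fin.natAdd r i)) = ll e i := by
      intro i
      unfold addz
      rw [Fin.append_right]
      exact theta_z e i
    apply le_antisymm
    · rw [Ideal.span_le]
      rintro _ ⟨j, rfl⟩
      refine Fin.addCases (fun j => ?_) (fun i => ?_) j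
      · beta_reduce
        rw [e1]
        have h := hq j
        have h2 : rename (Fin.castAdd κ) (f j) = Lin e (f j) - ∑ i, q j i * ll e i := by
          rw [h]
          ring
        rw [h2]
        refine Ideal.sub_mem _ (Ideal.subset_span ⟨Fin.castAdd κ j, Fin.append_left _ _ _⟩)
          (Ideal.sum_mem _ fun i _ => Ideal.mul_mem_left _ _
            (Ideal.subset_span ⟨Fin.natAdd r i, Fin.append_right _ _ _⟩))
      · beta_reduce
        rw [e2]
        exact Ideal.subset_span ⟨Fin.natAdd r i, Fin.append_right _ _ _⟩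
    · rw [Ideal.span_le]
      rintro _ ⟨j, rfl⟩
      refine Fin.addCases (fun j => ?_) (fun i => ?_) j
      · rw [Fin.append_left, hq j]
        refine Ideal.add_mem _ (Ideal.subset_span ⟨Fin.castAdd κ j, e1 j⟩)
          (Ideal.sum_mem _ fun i _ => Ideal.mul_mem_left _ _
            (Ideal.subset_span ⟨Fin.natAdd r i, e2 i⟩))
      · rw [Fin.append_right]
        exact Ideal.subset_span ⟨Fin.natAdd r i, e2 i⟩
  · have h := functionalEq_ext hf hb (theta e) (fun i => theta_x e i) (fun j => Lin e (f j)) q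
      (fun j => by simp only [theta_z]; exact hq j)
    simpa only [theta_z] using h

/-- if the enlarged ideal is the unit ideal, so is the ideal -/
theorem proper_of {n r κ : ℕ} (f : Fin r → MvPolynomial (Fin n) ℂ)
    (g : Fin (r + κ) → MvPolynomial (Fin (n + κ)) ℂ)
    (θ : MvPolynomial (Fin (n + κ)) ℂ ≃ₐ[ℂ] MvPolynomial (Fin (n + κ)) ℂ)
    (hg : Ideal.span (Set.range fun j => θ (addz f κ j)) = Ideal.span (Set.range g))
    (h : Ideal.span (Set.range g) = ⊤) : Ideal.span (Set.range f) = ⊤ := by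
  rw [← hg, Ideal.eq_top_iff_one] at h
  have h1 : Ideal.span (Set.range fun j => θ (addz f κ j)) ≤ (Ideal.span (Set.range f)).comap
      ((aeval (Fin.append (X : Fin n → MvPolynomial (Fin n) ℂ) fun _ => 0)).comp
        (θ.symm : MvPolynomial (Fin (n + κ)) ℂ →ₐ[ℂ] MvPolynomial (Fin (n + κ)) ℂ)).toRingHom := by
    rw [Ideal.span_le]
    rintro _ ⟨j, rfl⟩
    refine Ideal.mem_comap.2 ?_
    show (aeval (Fin.append (X : Fin n → MvPolynomial (Fin n) ℂ) fun _ => 0))
      (θ.symm (θ (addz f κ j))) ∈ _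
    rw [AlgEquiv.symm_apply_apply]
    refine Fin.addCases (fun j => ?_) (fun i => ?_) j
    · unfold addz
      rw [Fin.append_left, aeval_rename]
      have e1 : (Fin.append (X : Fin n → MvPolynomial (Fin n) ℂ) fun _ => 0) ∘ Fin.castAdd κ = X :=
        funext fun i => Fin.append_left _ _ _
      rw [e1, aeval_X_left_apply]
      exact Ideal.subset_span ⟨j, rfl⟩
    · unfold addz
      rw [Fin.append_right, aeval_X, Fin.append_right]
      exact Ideal.zero_mem _
  have h2 := h1 h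
  rw [Ideal.mem_comap, map_one] at h2
  exact (Ideal.eq_top_iff_one _).2 h2

/-- the zeta function of the enlarged ideal -/
theorem zeta_ext {n r κ : ℕ} (f : Fin r → MvPolynomial (Fin n) ℂ)
    (g : Fin (r + κ) → MvPolynomial (Fin (n + κ)) ℂ)
    (θ : MvPolynomial (Fin (n + κ)) ℂ ≃ₐ[ℂ] MvPolynomial (Fin (n + κ)) ℂ)
    (hg : Ideal.span (Set.range fun j => θ (addz f κ j)) = Ideal.span (Set.range g)) :
    zetaId (addz f κ) = zetaId g := by
  obtain ⟨M, hML, hχ⟩ := exists_measI ℂ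
  rw [zetaId_eq M hχ, zetaId_eq M hχ]
  have h1 := zI_iso (M := M) (Y := (((Lu ℂ)⁻¹ : (MK ℂ)ˣ) : MK ℂ)) rfl θ (addz f κ)
    (W := Set.univ) Constr.univ
  rw [← h1]
  have h2 : {w : Pt ℂ (Fin (n + κ)) | (fun i => aeval w (θ (X i))) ∈
      (Set.univ : Set (Pt ℂ (Fin (n + κ))))} = Set.univ := by
    ext w
    simp
  rw [h2]
  exact zI_span _ _ hg Constr.univ

section top

variable {R : Type} [CommRing R] [IsDomain R] {E : MK ℂ →+* R} {ε : R →+* ℂ}
  (h1 : ε (E ((Lu ℂ : (MK ℂ)ˣ) : MK ℂ)) = 1)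
  (hu : E ((Lu ℂ : (MK ℂ)ˣ) : MK ℂ) ≠ 1)

include h1 hu

/-- **The transfer.** -/
theorem transfer {n r : ℕ} (f : Fin r → MvPolynomial (Fin n) ℂ) (hf : ∃ j, f j ≠ 0)
    (hp : Ideal.span (Set.range f) ≠ ⊤) :
    ∃ (m q : ℕ) (g : Fin q → MvPolynomial (Fin m) ℂ), Bil g ∧ (∃ j, g j ≠ 0) ∧
      Ideal.span (Set.range g) ≠ ⊤ ∧
      ((∀ Z : RatFunc ℂ, IsTopZeta E ε (zetaId g) Z → ∀ s₀ : ℂ, Z.denom.eval s₀ = 0 →
        ∀ b : Polynomial ℂ, IsFunctionalEq g b → b.eval s₀ = 0) →
       ∀ Z : RatFunc ℂ, IsTopZeta E ε (zetaId f) Z → ∀ s₀ : ℂ, Z.denom.eval s₀ = 0 →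
        ∀ b : Polynomial ℂ, IsFunctionalEq f b → b.eval s₀ = 0) ∧
      ((∀ Z : RatFunc ℂ, IsTopZeta E ε (zetaId g) Z → ∀ b : Polynomial ℂ, IsFunctionalEq g b →
        ∃ P : Polynomial ℂ, algebraMap (Polynomial ℂ) (RatFunc ℂ) b * Z =
          algebraMap (Polynomial ℂ) (RatFunc ℂ) P) →
       ∀ Z : RatFunc ℂ, IsTopZeta E ε (zetaId f) Z → ∀ b : Polynomial ℂ, IsFunctionalEq f b →
        ∃ P : Polynomial ℂ, algebraMap (Polynomial ℂ) (RatFunc ℂ) b * Z =
          algebraMap (Polynomial ℂ) (RatFunc ℂ) P) := by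
  classical
  rcases Nat.eq_zero_or_pos n with rfl | hn
  · -- no variables
    refine ⟨0, r, f, ⟨fun i => i.elim0, fun j => Or.inl ?_⟩, hf, hp, id, id⟩
    rw [eq_C_of_isEmpty (f j), totalDegree_C]
    exact Nat.zero_le _
  · obtain ⟨κ, g, θ, hκ, hB, hs, hfe⟩ := exists_bil f hn hf
    have hz := zeta_ext f g θ hs
    have hg0 : ∃ j, g j ≠ 0 := by
      by_contra hno
      push Not at hno
      have h3 : Ideal.span (Set.range g) = ⊥ := by
        rw [Ideal.span_eq_bot]
        rintro _ ⟨j, rfl⟩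
        exact hno j
      rw [h3, Ideal.span_eq_bot] at hs
      have h4 := hs _ ⟨Fin.natAdd r (⟨0, hκ⟩ : Fin κ), rfl⟩
      rw [map_eq_zero_iff _ θ.injective] at h4
      unfold addz at h4
      rw [Fin.append_right] at h4
      exact X_ne_zero _ h4
    refine ⟨n + κ, r + κ, g, hB, hg0, fun h => hp (proper_of f g θ hs h), fun H Z hZ s₀ hs₀ b hb => ?_,
      fun H Z hZ b hb => ?_⟩
    · obtain ⟨Z', h3, h4, -⟩ := top_addz h1 hu f hZ hκ hz
      have h5 := H Z' h3 _ (h4 s₀ hs₀) _ (hfe b hb)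
      rw [Polynomial.eval_comp, Polynomial.eval_add, Polynomial.eval_X, Polynomial.eval_C,
        sub_add_cancel] at h5
      exact h5
    · obtain ⟨Z', h3, -, h4⟩ := top_addz h1 hu f hZ hκ hz
      obtain ⟨P, hP⟩ := H Z' h3 _ (hfe b hb)
      obtain ⟨c, rfl⟩ := h4 b P hP
      refine ⟨Z.num * c, ?_⟩
      have h7 : algebraMap (Polynomial ℂ) (RatFunc ℂ) Z.denom ≠ 0 := by
        rw [Ne, map_eq_zero_iff _ (RatFunc.algebraMap_injective ℂ)]
        exact Z.denom_ne_zero
      have h8 := (div_eq_iff h7).1 (RatFunc.num_div_denom Z)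
      rw [map_mul, map_mul, h8]
      ring

end top

end Pool.Agent.Q59.TR.Id
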