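import Pool.Agent.Q59.TR.IdJ

/-!
# The zeta functions of the ideals `(f_j)` and `(f_j, z_i)`
-/

set_option autoImplicit false

namespace Pool.Agent.Q59.TR.Id

open MvPolynomial Pool.Agent.W428.MOT Pool.Agent.W375.MT
open Pool.Agent.TH192.MT (JetF)
open Pool.Agent.TH192.MU (SpecAt IsTopZeta specAt_add specAt_mul specAt_C specAt_X specAt_geo
  zetaId)
open Pool.Agent.Q59.TR (uE uE_val uE_inv eps_inv spec_rescale top_denom top_mk)
open Pool.Agent.Y229.MS (rescale_C' rescale_X')

section

variable {K : Type} [Field K] {n : ℕ}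

/-- the measure with values in the localised Grothendieck ring -/
theorem exists_measI (K : Type) [Field K] [CharZero K] : ∃ M : Meas K (MK K),
    M.L = ((Lu K : (MK K)ˣ) : MK K) ∧
    ∀ (ι : Type) [Fintype ι] (S : Set (Pt K ι)), M.χ ι S = algebraMap (K0 K) (MK K) (cls ι S) := by
  obtain ⟨M₀, hM₀⟩ := Pool.Agent.W417.MT.K0.main K
  have h1 : ∀ (ι : Type) [Fintype ι] (S : Set (Pt K ι)),
      (Pool.Agent.W63.MTFin.mapMeas M₀ (algebraMap (K0 K) (MK K))).χ ι S =
        algebraMap (K0 K) (MK K) (cls ι S) := by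
    intro ι _ S
    rw [← hM₀]
    rfl
  refine ⟨_, ?_, h1⟩
  unfold Meas.L
  rw [h1]
  rfl

variable {R : Type} [CommRing R] (M : Meas K R) (Y : R)

/-- the zeta function -/
noncomputable def zI {J : Type} (f : J → MvPolynomial (Fin n) K) (W : Set (Pt K (Fin n))) :
    PowerSeries R :=
  PowerSeries.mk fun N => M.χ _ (JetF f W N) * Y ^ (n * N)

/-- the series of the volumes of `ord ≥ N` -/
noncomputable def pI {J : Type} (f : J → MvPolynomial (Fin n) K) (W : Set (Pt K (Fin n))) :
    PowerSeries R :=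
  PowerSeries.mk fun N => M.χ _ (TF f W N N) * Y ^ (n * N)

variable {M Y} (hL : M.L * Y = 1)

include hL

theorem pI_succ {J : Type} [Finite J] (f : J → MvPolynomial (Fin n) K)
    {W : Set (Pt K (Fin n))} (hW : Constr W) (N : ℕ) :
    M.χ _ (TF f W (N + 1) (N + 1)) * Y ^ (n * (N + 1)) =
      M.χ _ (TF f W (N + 1) N) * Y ^ (n * N) := by
  rw [← tf_level M f hW (N + 1) N le_rfl, mul_add, mul_one, pow_add]
  have h : M.L ^ n * Y ^ n = 1 := by rw [← mul_pow, hL, one_pow]
  linear_combination (M.χ _ (TF f W (N + 1) N) * Y ^ (n * N)) * h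

theorem pI_eq {J : Type} [Finite J] (f : J → MvPolynomial (Fin n) K)
    {W : Set (Pt K (Fin n))} (hW : Constr W) :
    pI M Y f W * (1 - PowerSeries.X) =
      PowerSeries.C (M.χ _ (TF f W 0 0)) - PowerSeries.X * zI M Y f W := by
  have h1 : ∀ N, PowerSeries.coeff N (pI M Y f W) =
      PowerSeries.coeff (N + 1) (pI M Y f W) + PowerSeries.coeff N (zI M Y f W) := by
    intro N
    unfold zI pI
    rw [PowerSeries.coeff_mk, PowerSeries.coeff_mk, PowerSeries.coeff_mk, pI_succ hL f hW N,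
      chi_split M f hW N]
    ring
  ext N
  rw [mul_sub, mul_one, map_sub, map_sub]
  rcases N with _ | N
  · simp [pI]
  · rw [PowerSeries.coeff_succ_mul_X, PowerSeries.coeff_succ_X_mul, PowerSeries.coeff_C,
      if_neg (by omega), h1 N]
    ring

omit hL in
theorem pI_addz {r : ℕ} (f : Fin r → MvPolynomial (Fin n) K) {W : Set (Pt K (Fin n))}
    (hW : Constr W) (κ : ℕ) :
    pI M Y (addz f κ) (cyl W κ) =
      PowerSeries.C (M.L ^ κ) * PowerSeries.rescale (Y ^ κ) (pI M Y f W) := by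
  ext N
  unfold pI
  rw [PowerSeries.coeff_C_mul, PowerSeries.coeff_rescale, PowerSeries.coeff_mk,
    PowerSeries.coeff_mk, chi_addz M f hW κ N, add_mul, pow_add, pow_mul Y κ N]
  ring

/-- **The zeta function of `(f_j, z_i)` in terms of the one of `(f_j)`.** -/
theorem zI_addz {r : ℕ} (f : Fin r → MvPolynomial (Fin n) K) {W : Set (Pt K (Fin n))}
    (hW : Constr W) (κ : ℕ) :
    (1 - PowerSeries.C (Y ^ κ) * PowerSeries.X) * zI M Y (addz f κ) (cyl W κ) =
      PowerSeries.C (M.χ _ (TF f W 0 0) * (M.L ^ κ - 1)) +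
        (1 - PowerSeries.X) * PowerSeries.rescale (Y ^ κ) (zI M Y f W) := by
  have e1 := pI_eq hL (addz f κ) (constr_cyl hW κ)
  have e2 := congrArg (PowerSeries.rescale (Y ^ κ)) (pI_eq hL f hW)
  rw [pI_addz f hW κ, chi_addz M f hW κ 0] at e1
  rw [map_mul, map_sub, map_sub, map_one, map_mul, rescale_X', rescale_C'] at e2
  have h4 : PowerSeries.C (M.L ^ κ) * PowerSeries.C (Y ^ κ) = (1 : PowerSeries R) := by
    rw [← map_mul, ← mul_pow, hL, one_pow, map_one]
  set zr := PowerSeries.rescale (Y ^ κ) (zI M Y f W)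
  set pr := PowerSeries.rescale (Y ^ κ) (pI M Y f W)
  set v := M.χ _ (TF f W 0 0)
  set L := PowerSeries.C (M.L ^ κ)
  set y := PowerSeries.C (Y ^ κ)
  have h5 : PowerSeries.X * ((1 - y * PowerSeries.X) * zI M Y (addz f κ) (cyl W κ)) =
      PowerSeries.X * (PowerSeries.C (v * (M.L ^ κ - 1)) + (1 - PowerSeries.X) * zr) := by
    have h6 : PowerSeries.C (v * (M.L ^ κ - 1)) = PowerSeries.C v * (L - 1) := by
      rw [map_mul, map_sub, map_one]
    have h7 : PowerSeries.C (v * M.L ^ κ) = PowerSeries.C v * L := by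
      rw [map_mul]
    rw [h6]
    rw [h7] at e1
    linear_combination (1 - y * PowerSeries.X) * e1 - (L * (1 - PowerSeries.X)) * e2 -
      (PowerSeries.X * (PowerSeries.C v - (1 - PowerSeries.X) * zr)) * h4
  exact PowerSeries.X_mul_cancel h5

omit hL in
theorem zI_iso {a b : ℕ} (hab : a = b) {J : Type} [Finite J]
    (ψ : MvPolynomial (Fin a) K ≃ₐ[K] MvPolynomial (Fin b) K) (f : J → MvPolynomial (Fin a) K)
    {W : Set (Pt K (Fin a))} (hW : Constr W) :
    zI M Y (fun j => ψ (f j)) {w : Pt K (Fin b) | (fun i => aeval w (ψ (X i))) ∈ W} =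
      zI M Y f W := by
  have hW' : Constr {w : Pt K (Fin b) | (fun i => aeval w (ψ (X i))) ∈ W} :=
    hW.preimage _ fun i => IsPF.poly _
  ext N
  unfold zI
  rw [PowerSeries.coeff_mk, PowerSeries.coeff_mk]
  have h1 := chi_split M f hW N
  have h2 := chi_split M (fun j => ψ (f j)) hW' N
  rw [chi_iso M ψ f hW N N (by omega), chi_iso M ψ f hW (N + 1) N le_rfl] at h2
  subst hab
  congr 1
  linear_combination h1 - h2

omit hL in
theorem zI_span {J J' : Type} [Finite J] [Finite J'] (f : J → MvPolynomial (Fin n) K)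
    (g : J' → MvPolynomial (Fin n) K)
    (h : Ideal.span (Set.range f) = Ideal.span (Set.range g)) {W : Set (Pt K (Fin n))}
    (hW : Constr W) : zI M Y f W = zI M Y g W := by
  ext N
  unfold zI
  rw [PowerSeries.coeff_mk, PowerSeries.coeff_mk]
  have h1 := chi_split M f hW N
  have h2 := chi_split M g hW N
  rw [tf_span f g h W N N, tf_span f g h W (N + 1) N] at h1
  congr 1
  linear_combination h2 - h1

end

/-! ### Topological zeta functions -/

section top

/-- the zeta function over `ℂ` -/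
theorem zetaId_eq {n : ℕ} {J : Type} (M : Meas ℂ (MK ℂ))
    (hχ : ∀ (ι : Type) [Fintype ι] (S : Set (Pt ℂ ι)),
      M.χ ι S = algebraMap (K0 ℂ) (MK ℂ) (cls ι S)) (f : J → MvPolynomial (Fin n) ℂ) :
    zetaId f = zI M (((Lu ℂ)⁻¹ : (MK ℂ)ˣ) : MK ℂ) f Set.univ := by
  ext N
  unfold zetaId zI
  rw [PowerSeries.coeff_mk, PowerSeries.coeff_mk, hχ, Fintype.card_fin, zpow_neg, zpow_natCast,
    ← inv_pow, Units.val_pow_eq_pow_val]

variable {R : Type} [CommRing R] [IsDomain R] {E : MK ℂ →+* R} {ε : R →+* ℂ}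

theorem spec_rescale_pow {Z : PowerSeries R} : ∀ (κ : ℕ) {s : ℕ} {c : ℂ},
    SpecAt (uE E) ε Z (s + κ) c →
    SpecAt (uE E) ε (PowerSeries.rescale ((((uE E)⁻¹ : Rˣ) : R) ^ κ) Z) s c
  | 0, s, c, h => by
    rw [pow_zero, PowerSeries.rescale_one]
    exact h
  | κ + 1, s, c, h => by
    have h1 := spec_rescale_pow (Z := Z) κ (s := s + 1) (c := c) (by
      rw [show s + 1 + κ = s + (κ + 1) by ring]
      exact h)
    have h2 := spec_rescale h1
    rw [PowerSeries.rescale_rescale] at h2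
    rw [pow_succ]
    exact h2

variable (h1 : ε (E ((Lu ℂ : (MK ℂ)ˣ) : MK ℂ)) = 1)
  (hu : E ((Lu ℂ : (MK ℂ)ˣ) : MK ℂ) ≠ 1)

include h1 hu

/-- the value for `(f_j, z_i)` -/
theorem spec_addz {n r : ℕ} (f : Fin r → MvPolynomial (Fin n) ℂ) {κ : ℕ} (hκ : 0 < κ)
    {s : ℕ} {c : ℂ} (h : SpecAt (uE E) ε (PowerSeries.map E (zetaId f)) (s + κ) c) :
    SpecAt (uE E) ε (PowerSeries.map E (zetaId (addz f κ))) s
      ((κ : ℂ) / (s + κ) + (s : ℂ) / (s + κ) * c) := by
  obtain ⟨M, hML, hχ⟩ := exists_measI ℂ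
  set L : MK ℂ := ((Lu ℂ : (MK ℂ)ˣ) : MK ℂ) with hLd
  set Y : MK ℂ := (((Lu ℂ)⁻¹ : (MK ℂ)ˣ) : MK ℂ) with hY
  have hLY : L * Y = 1 := Units.mul_inv _
  have hL : M.L * Y = 1 := by rw [hML, hLY]
  have r := zI_addz (M := M) (Y := Y) hL f Constr.univ κ
  have hcyl : cyl (Set.univ : Set (Pt ℂ (Fin n))) κ = Set.univ := rfl
  rw [hcyl, ← zetaId_eq M hχ, ← zetaId_eq M hχ] at r
  set v := M.χ _ (TF f Set.univ 0 0) with hv
  -- the number of the origins
  have hvE : ε (E v) = 1 := by
    have h2 : v = L ^ n := by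
      have h3 := Pool.Agent.W417.MT.Free.main M (TF f Set.univ 0 0) ∅ Finset.univ (fun _ => 0)
        (Finset.disjoint_empty_left _) (constr_TF f Constr.univ 0 0)
        (fun z w _ _ => ⟨Set.mem_univ _, fun j k hk => absurd hk (Nat.not_lt_zero _)⟩)
      simp only [Finset.notMem_empty, false_implies, implies_true, Set.ofPred_true,
        Set.inter_univ, Finset.empty_union, map_zero, Finset.card_empty, pow_zero, mul_one] at h3
      rw [hv, h3, hML]
      have h4 : M.χ _ (TF f Set.univ 0 0 ∩ {z | ∀ i ∈ (Finset.univ : Finset (Fin n × Fin (0 + 1))),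
          z i = 0}) = 1 := by
        rw [← M.point (ι := Fin 0)]
        refine M.iso _ _ ((constr_TF f Constr.univ 0 0).inter (Constr.ballFinset _ fun p _ =>
          Constr.eqz (IsPF.coord _))) Constr.univ (fun _ i => i.elim0) (fun _ _ => 0)
          (regularOn_poly (fun p => p.elim0) _) (regularOn_poly (fun p => IsPF.zero) _)
          (fun _ _ => Set.mem_univ _) (fun _ _ => ⟨⟨Set.mem_univ _, fun j k hk =>
            absurd hk (Nat.not_lt_zero _)⟩, fun _ _ => rfl⟩) (fun z hz => ?_)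
          (fun w _ => funext fun i => i.elim0)
        funext p
        exact (hz.2 p (Finset.mem_univ _)).symm
      rw [h4, one_mul]
      congr 1
      rw [Finset.card_univ, Fintype.card_prod, Fintype.card_fin, Fintype.card_fin]
      ring
    rw [h2, map_pow, map_pow, hLd, h1, one_pow]
  -- geometric series
  have hg : (1 - PowerSeries.C (Y ^ κ) * PowerSeries.X) * geo ℂ (-κ) 1 = 1 := by
    have := Pool.Agent.W63.MTFin.geo_mul (K := ℂ) (-κ) 1 one_pos
    rwa [show (1 : ℤ).toNat = 1 from rfl, pow_one, zpow_neg, zpow_natCast, ← inv_pow,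
      Units.val_pow_eq_pow_val] at this
  set g := geo ℂ (-κ) 1 with hgd
  set cκ : MK ℂ := Y * ∑ j ∈ Finset.range κ, Y ^ j with hcκ
  set dκ : MK ℂ := ∑ j ∈ Finset.range κ, L ^ j with hdκ
  have hc1 : 1 - Y ^ κ = cκ * (L - 1) := by
    have h2 := geom_sum_mul Y κ
    rw [hcκ]
    linear_combination (-(∑ j ∈ Finset.range κ, Y ^ j)) * hLY + h2
  have hd1 : L ^ κ - 1 = dκ * (L - 1) := by
    rw [hdκ]
    exact (geom_sum_mul L κ).symm
  have hcE : ε (E cκ) = κ := by
    rw [hcκ, map_mul, map_mul, map_sum, map_sum, eps_inv h1, one_mul]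
    rw [Finset.sum_congr rfl fun j _ => by
      rw [map_pow, map_pow, eps_inv h1, one_pow]]
    rw [Finset.sum_const, Finset.card_range, nsmul_eq_mul, mul_one]
  have hdE : ε (E dκ) = κ := by
    rw [hdκ, map_sum, map_sum]
    rw [Finset.sum_congr rfl fun j _ => by
      rw [map_pow, map_pow, hLd, h1, one_pow]]
    rw [Finset.sum_const, Finset.card_range, nsmul_eq_mul, mul_one]
  set zr := PowerSeries.rescale (Y ^ κ) (zetaId f) with hzr
  have hZ : zetaId (addz f κ) = PowerSeries.C (v * dκ) * (PowerSeries.C (L - 1) * g) +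
      (1 - PowerSeries.C cκ * PowerSeries.X * (PowerSeries.C (L - 1) * g)) * zr := by
    have e1 : PowerSeries.C (1 - Y ^ κ) = PowerSeries.C cκ * PowerSeries.C (L - 1) := by
      rw [hc1, map_mul]
    rw [map_sub, map_one] at e1
    calc zetaId (addz f κ) = g * ((1 - PowerSeries.C (Y ^ κ) * PowerSeries.X) *
          zetaId (addz f κ)) := by rw [← mul_assoc, mul_comm g, hg, one_mul]
      _ = g * (PowerSeries.C (v * (M.L ^ κ - 1)) + (1 - PowerSeries.X) * zr) := by rw [r]
      _ = _ := by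
        rw [hML, hd1, ← mul_assoc, map_mul PowerSeries.C (v * dκ)]
        linear_combination zr * hg - (g * PowerSeries.X * zr) * e1
  -- the values
  have hG : SpecAt (uE E) ε (PowerSeries.map E (PowerSeries.C (L - 1) * g)) s
      (1 / ((s : ℂ) + κ)) := by
    have h2 := specAt_geo (u := uE E) (ε := ε) (by rw [uE_val]; exact h1)
      (by rw [uE_val]; exact hu) (a := -κ) (b := 1) (by omega) one_pos
      (Z := PowerSeries.map E (PowerSeries.C (L - 1) * g)) (by
        have h3 : (1 - PowerSeries.C (Y ^ κ) * PowerSeries.X) * (PowerSeries.C (L - 1) * g) =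
            PowerSeries.C (L - 1) := by
          linear_combination (PowerSeries.C (L - 1)) * hg
        have h4 := congrArg (PowerSeries.map E) h3
        rw [map_mul, map_sub, map_one, map_mul, PowerSeries.map_C, PowerSeries.map_X,
          PowerSeries.map_C (f := E) (L - 1), map_sub E, map_one E] at h4
        rw [show (1 : ℤ).toNat = 1 from rfl, pow_one, zpow_neg, zpow_natCast, ← inv_pow,
          Units.val_pow_eq_pow_val, uE_inv, ← map_pow]
        exact h4) s
    convert h2 using 1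
    push_cast
    ring
  have hzE : PowerSeries.map E zr = PowerSeries.rescale ((((uE E)⁻¹ : Rˣ) : R) ^ κ)
      (PowerSeries.map E (zetaId f)) := by
    ext k
    rw [hzr, PowerSeries.coeff_map, PowerSeries.coeff_rescale, PowerSeries.coeff_rescale,
      PowerSeries.coeff_map, map_mul, map_pow, map_pow, uE_inv]
  have h2 := spec_rescale_pow κ h
  rw [← hzE] at h2
  have h3 := specAt_C (u := uE E) (ε := ε) (E (v * dκ)) s
  have h4 := specAt_C (u := uE E) (ε := ε) (E cκ) s
  have h5 := specAt_C (u := uE E) (ε := ε) (-1) s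
  have h6 := specAt_C (u := uE E) (ε := ε) 1 s
  have h7 := specAt_X (u := uE E) (ε := ε) (by rw [uE_val]; exact h1) s
  have h8 := specAt_add (specAt_mul h3 hG) (specAt_mul (specAt_add h6 (specAt_mul h5
    (specAt_mul (specAt_mul h4 h7) hG))) h2)
  clear_value zr
  generalize PowerSeries.C (L - 1) * g = G at hZ h8
  have e9 : PowerSeries.map E (PowerSeries.C (v * dκ) * G +
      (1 - PowerSeries.C cκ * PowerSeries.X * G) * zr) =
      PowerSeries.C (E (v * dκ)) * PowerSeries.map E G +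
        (1 - PowerSeries.C (E cκ) * PowerSeries.X * PowerSeries.map E G) *
          PowerSeries.map E zr := by
    rw [map_add (PowerSeries.map E), map_mul (PowerSeries.map E), PowerSeries.map_C,
      map_mul (PowerSeries.map E), map_sub (PowerSeries.map E), map_one (PowerSeries.map E),
      map_mul (PowerSeries.map E), map_mul (PowerSeries.map E), PowerSeries.map_C,
      PowerSeries.map_X]
  rw [hZ, e9]
  convert h8 using 1
  · rw [map_neg, map_one]
    ring
  · have hsk : (s : ℂ) + κ ≠ 0 := by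
      have : s + κ ≠ 0 := by omega
      exact_mod_cast this
    rw [map_neg, map_one, map_mul, map_mul, hvE, hdE, hcE]
    field_simp
    ring

omit h1 hu [IsDomain R] in
theorem top_mk' {Zm : PowerSeries (MK ℂ)} (A B : Polynomial ℂ)
    (hB : ∀ s : ℕ, 0 < s → B.eval (s : ℂ) ≠ 0)
    (h : ∀ s : ℕ, 0 < s → SpecAt (uE E) ε (PowerSeries.map E Zm) s
      (A.eval (s : ℂ) / B.eval (s : ℂ))) :
    ∃ Z : RatFunc ℂ, IsTopZeta E ε Zm Z ∧ Z.num * B = A * Z.denom := by
  have hB0 : B ≠ 0 := by
    rintro rfl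
    exact hB 1 one_pos (by rw [Polynomial.eval_zero])
  set Z : RatFunc ℂ := algebraMap (Polynomial ℂ) (RatFunc ℂ) A /
    algebraMap (Polynomial ℂ) (RatFunc ℂ) B with hZdef
  have hnd : Z.num * B = A * Z.denom := by
    have h6 : algebraMap (Polynomial ℂ) (RatFunc ℂ) B ≠ 0 := by
      rw [Ne, map_eq_zero_iff _ (RatFunc.algebraMap_injective ℂ)]
      exact hB0
    have h7 : algebraMap (Polynomial ℂ) (RatFunc ℂ) Z.denom ≠ 0 := by
      rw [Ne, map_eq_zero_iff _ (RatFunc.algebraMap_injective ℂ)]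
      exact Z.denom_ne_zero
    have h8 := RatFunc.num_div_denom Z
    have h9 : algebraMap (Polynomial ℂ) (RatFunc ℂ) Z.num /
        algebraMap (Polynomial ℂ) (RatFunc ℂ) Z.denom =
        algebraMap (Polynomial ℂ) (RatFunc ℂ) A / algebraMap (Polynomial ℂ) (RatFunc ℂ) B :=
      h8.trans hZdef
    rw [div_eq_div_iff h7 h6, ← map_mul, ← map_mul] at h9
    exact RatFunc.algebraMap_injective ℂ h9
  refine ⟨Z, fun s hs => ⟨_, h s hs, ?_⟩, hnd⟩
  have h5 := congrArg (Polynomial.eval (s : ℂ)) hnd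
  rw [Polynomial.eval_mul, Polynomial.eval_mul] at h5
  have h6 := hB s hs
  field_simp
  linear_combination h5

/-- **The topological zeta functions of the ideals `(f_j)` and `(f_j, z_i)`.** -/
theorem top_addz {n r : ℕ} (f : Fin r → MvPolynomial (Fin n) ℂ) {Z : RatFunc ℂ}
    (hZ : IsTopZeta E ε (zetaId f) Z) {κ : ℕ} (hκ : 0 < κ) {Zm : PowerSeries (MK ℂ)}
    (hZm : zetaId (addz f κ) = Zm) :
    ∃ Z' : RatFunc ℂ, IsTopZeta E ε Zm Z' ∧ (∀ s₀ : ℂ, Z.denom.eval s₀ = 0 →
      Z'.denom.eval (s₀ - κ) = 0) ∧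
      ∀ b P : Polynomial ℂ, algebraMap (Polynomial ℂ) (RatFunc ℂ)
        (b.comp (Polynomial.X + Polynomial.C (κ : ℂ))) * Z' =
          algebraMap (Polynomial ℂ) (RatFunc ℂ) P → Z.denom ∣ b := by
  set D : Polynomial ℂ := Z.denom.comp (Polynomial.X + Polynomial.C (κ : ℂ)) with hD
  set N : Polynomial ℂ := Z.num.comp (Polynomial.X + Polynomial.C (κ : ℂ)) with hN
  have hDe : ∀ z : ℂ, D.eval z = Z.denom.eval (z + κ) := fun z => by
    rw [hD, Polynomial.eval_comp, Polynomial.eval_add, Polynomial.eval_X, Polynomial.eval_C]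
  have hNe : ∀ z : ℂ, N.eval z = Z.num.eval (z + κ) := fun z => by
    rw [hN, Polynomial.eval_comp, Polynomial.eval_add, Polynomial.eval_X, Polynomial.eval_C]
  set Xk : Polynomial ℂ := Polynomial.X + Polynomial.C (κ : ℂ) with hXk
  set A : Polynomial ℂ := Polynomial.C (κ : ℂ) * D + Polynomial.X * N with hA
  set B : Polynomial ℂ := Xk * D with hB
  have hAe : ∀ z : ℂ, A.eval z = κ * Z.denom.eval (z + κ) + z * Z.num.eval (z + κ) := fun z => by
    simp only [hA, Polynomial.eval_add, Polynomial.eval_mul, Polynomial.eval_C,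
      Polynomial.eval_X, hDe, hNe]
  have hBe : ∀ z : ℂ, B.eval z = (z + κ) * Z.denom.eval (z + κ) := fun z => by
    simp only [hB, hXk, Polynomial.eval_mul, Polynomial.eval_add, Polynomial.eval_C,
      Polynomial.eval_X, hDe]
  have hposk : ∀ s : ℕ, (s : ℂ) + κ ≠ 0 := fun s => by
    have : (s + κ : ℕ) ≠ 0 := by omega
    exact_mod_cast this
  have hDs : ∀ s : ℕ, Z.denom.eval ((s : ℂ) + κ) ≠ 0 := fun s => by
    have h3 := (top_denom hZ (s + κ) (by omega)).1
    push_cast at h3
    exact h3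
  have hBs : ∀ s : ℕ, 0 < s → B.eval (s : ℂ) ≠ 0 := by
    intro s _
    rw [hBe]
    exact mul_ne_zero (hposk s) (hDs s)
  have hcop : IsCoprime Z.num Z.denom := Z.isCoprime_num_denom
  obtain ⟨Z', h2, h3⟩ := top_mk' (E := E) (ε := ε) (Zm := Zm) A B hBs (by
    intro s hs
    have h4 := spec_addz h1 hu f hκ (top_denom hZ (s + κ) (by omega)).2 (s := s)
    rw [hZm] at h4
    convert h4 using 1
    have hnk := hposk s
    have hnd := hDs s
    rw [hAe, hBe]
    push_cast
    field_simp)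
  have hD0 : Z.denom.eval ((κ : ℕ) : ℂ) ≠ 0 := by
    have := hDs 0
    rwa [Nat.cast_zero, zero_add] at this
  refine ⟨Z', h2, fun s₀ hs => ?_, fun b P hbP => ?_⟩
  · have h5 : Z'.num.eval (s₀ - κ) * B.eval (s₀ - κ) =
        A.eval (s₀ - κ) * Z'.denom.eval (s₀ - κ) := by
      rw [← Polynomial.eval_mul, ← Polynomial.eval_mul, h3]
    rw [hBe, hAe, sub_add_cancel, hs, mul_zero, mul_zero, mul_zero, zero_add] at h5
    have hn0 : Z.num.eval s₀ ≠ 0 := by
      intro h0
      obtain ⟨a, b, hab⟩ := hcop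
      have h3 := congrArg (Polynomial.eval s₀) hab
      rw [Polynomial.eval_add, Polynomial.eval_mul, Polynomial.eval_mul, h0, hs, mul_zero,
        mul_zero, add_zero, Polynomial.eval_one] at h3
      exact zero_ne_one h3
    have e1 : s₀ - κ ≠ 0 := by
      intro h0
      rw [sub_eq_zero] at h0
      rw [← h0] at hD0
      exact hD0 hs
    exact (mul_eq_zero.1 h5.symm).resolve_left (mul_ne_zero e1 hn0)
  · -- `b⁺ · Z' = P`
    have h6 : b.comp Xk * A = P * B := by
      have h7 : algebraMap (Polynomial ℂ) (RatFunc ℂ) Z'.denom ≠ 0 := by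
        rw [Ne, map_eq_zero_iff _ (RatFunc.algebraMap_injective ℂ)]
        exact Z'.denom_ne_zero
      have h8 := RatFunc.num_div_denom Z'
      rw [← h8, mul_div_assoc', div_eq_iff h7, ← map_mul, ← map_mul] at hbP
      have h9 := RatFunc.algebraMap_injective ℂ hbP
      have h10 : (b.comp Xk * A - P * B) * Z'.denom = 0 := by
        linear_combination B * h9 - (b.comp Xk) * h3
      exact sub_eq_zero.1 ((mul_eq_zero.1 h10).resolve_right Z'.denom_ne_zero)
    have h11 : D ∣ b.comp Xk * (Polynomial.X * N) := by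
      refine ⟨P * Xk - b.comp Xk * Polynomial.C (κ : ℂ), ?_⟩
      rw [hA, hB] at h6
      linear_combination h6
    have hinv : (Polynomial.X - Polynomial.C (κ : ℂ)).comp Xk = Polynomial.X := by
      rw [Polynomial.sub_comp, Polynomial.X_comp, Polynomial.C_comp, hXk]
      ring
    have h12 : (Z.denom).comp Xk ∣ (b * ((Polynomial.X - Polynomial.C (κ : ℂ)) * Z.num)).comp Xk := by
      rw [Polynomial.mul_comp, Polynomial.mul_comp, hinv]
      exact h11
    have h13 : Z.denom ∣ b * ((Polynomial.X - Polynomial.C (κ : ℂ)) * Z.num) := by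
      obtain ⟨q, hq⟩ := h12
      refine ⟨q.comp (Polynomial.X - Polynomial.C (κ : ℂ)), ?_⟩
      have h14 := congrArg (fun p : Polynomial ℂ => p.comp (Polynomial.X - Polynomial.C (κ : ℂ))) hq
      have h15 : Xk.comp (Polynomial.X - Polynomial.C (κ : ℂ)) = Polynomial.X := by
        rw [hXk, Polynomial.add_comp, Polynomial.X_comp, Polynomial.C_comp]
        ring
      beta_reduce at h14
      rw [Polynomial.comp_assoc, h15, Polynomial.comp_X, Polynomial.mul_comp,
        Polynomial.comp_assoc, h15, Polynomial.comp_X] at h14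
      exact h14
    rw [← mul_assoc] at h13
    have h16 := hcop.symm.dvd_of_dvd_mul_right h13
    have h17 : IsCoprime Z.denom (Polynomial.X - Polynomial.C (κ : ℂ)) := by
      rw [isCoprime_comm]
      refine (Polynomial.irreducible_X_sub_C _).coprime_iff_not_dvd.2 ?_
      rw [Polynomial.dvd_iff_isRoot]
      exact hD0
    exact h17.dvd_of_dvd_mul_right h16

end top

end Pool.Agent.Q59.TR.Id
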