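import Pool.Agent.Y229.MS.Fin

/-!
# The zeta functions of the jets with origin at points where a partial derivative does not vanish
-/

set_option autoImplicit false

namespace Pool.Agent.Q59.TR

open MvPolynomial Pool.Agent.W428.MOT Pool.Agent.W375.MT
open Pool.Agent.W375.MG (JetG zetaG Good ratRing_mono)
open Pool.Agent.Y229.MS

section taylor

variable {K F : Type} [CommRing K] [CommRing F] [Algebra K F] {n : ℕ}

theorem taylor (γ : Fin n → PowerSeries F) (j : Fin n) (w : F) {q : ℕ} (hq : 1 ≤ q)
    (f : MvPolynomial (Fin n) K) :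
    ∃ B : PowerSeries F,
      aeval (fun i => γ i + PowerSeries.X ^ q * PowerSeries.C (if i = j then w else 0)) f =
        aeval γ f + PowerSeries.X ^ q * B ∧
      PowerSeries.constantCoeff B =
        w * aeval (fun i => PowerSeries.constantCoeff (γ i)) (pderiv j f) := by
  have hc : ∀ g : MvPolynomial (Fin n) K, PowerSeries.constantCoeff (aeval γ g) =
      aeval (fun i => PowerSeries.constantCoeff (γ i)) g := by
    intro g
    induction g using MvPolynomial.induction_on with
    | C a =>
      rw [MvPolynomial.algHom_C, MvPolynomial.algHom_C, PowerSeries.algebraMap_apply,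
        PowerSeries.constantCoeff_C]
    | add p q hp hq => rw [map_add, map_add, map_add, hp, hq]
    | mul_X p i hp => rw [map_mul, map_mul, map_mul, hp, aeval_X, aeval_X]
  induction f using MvPolynomial.induction_on with
  | C a =>
    refine ⟨0, ?_, ?_⟩
    · rw [MvPolynomial.algHom_C, MvPolynomial.algHom_C, mul_zero, add_zero]
    · rw [pderiv_C, map_zero, map_zero, mul_zero]
  | add p r hp hr =>
    obtain ⟨B1, h1, h2⟩ := hp
    obtain ⟨B2, h3, h4⟩ := hr
    refine ⟨B1 + B2, ?_, ?_⟩
    · rw [map_add, map_add, h1, h3]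
      ring
    · rw [map_add, map_add, map_add, h2, h4]
      ring
  | mul_X p i hp =>
    obtain ⟨B, h1, h2⟩ := hp
    refine ⟨B * γ i + aeval γ p * PowerSeries.C (if i = j then w else 0) +
      PowerSeries.X ^ q * (B * PowerSeries.C (if i = j then w else 0)), ?_, ?_⟩
    · rw [map_mul, map_mul, h1, aeval_X, aeval_X]
      ring
    · have hX : PowerSeries.constantCoeff ((PowerSeries.X : PowerSeries F) ^ q) = 0 := by
        rw [map_pow, PowerSeries.constantCoeff_X, zero_pow (by omega)]
      rw [map_add, map_add, map_mul, map_mul, map_mul, hX, zero_mul, add_zero, h2, hc,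
        PowerSeries.constantCoeff_C, Derivation.leibniz, map_add, smul_eq_mul, smul_eq_mul,
        map_mul, map_mul, aeval_X, pderiv_X]
      by_cases h : i = j
      · subst h
        rw [if_pos rfl, Pi.single_eq_same, map_one]
        ring
      · rw [if_neg h, Pi.single_eq_of_ne h, map_zero]
        ring

end taylor

section

variable {K : Type} [Field K] {n : ℕ}

/-- the last coefficient of the coordinate `j` -/
def lc (N : ℕ) (j : Fin n) : Fin n × Fin (N + 1 + 1) := (j, Fin.last (N + 1))

theorem lc_ne (N : ℕ) (i j : Fin n) : (i, (0 : Fin (N + 1 + 1))) ≠ lc N j := by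
  intro h
  have h1 := congrArg (fun p : Fin n × Fin (N + 1 + 1) => (p.2 : ℕ)) h
  simp [lc] at h1

theorem arc_update {N : ℕ} (j : Fin n) (z : Pt K (Fin n × Fin (N + 1 + 1)))
    (w : AlgebraicClosure K) :
    arc (Function.update z (lc N j) w) =
      fun i => arc (Function.update z (lc N j) 0) i +
        PowerSeries.X ^ (N + 1) * PowerSeries.C (if i = j then w else 0) := by
  funext i
  ext k
  rw [map_add, PowerSeries.coeff_X_pow_mul']
  by_cases hk : k < N + 1 + 1
  · rw [coeff_arc _ _ _ hk, coeff_arc _ _ _ hk]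
    by_cases hk' : N + 1 ≤ k
    · have hkk : k = N + 1 := by omega
      subst hkk
      rw [if_pos le_rfl, Nat.sub_self, PowerSeries.coeff_zero_C]
      by_cases hij : i = j
      · subst hij
        have : ((i, (⟨N + 1, hk⟩ : Fin (N + 1 + 1))) : Fin n × Fin (N + 1 + 1)) = lc N i := rfl
        rw [if_pos rfl, this, Function.update_self, Function.update_self, zero_add]
      · rw [if_neg hij, add_zero, Function.update_of_ne, Function.update_of_ne]
        · intro h
          exact hij (Prod.ext_iff.1 h).1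
        · intro h
          exact hij (Prod.ext_iff.1 h).1
    · rw [if_neg hk', add_zero, Function.update_of_ne, Function.update_of_ne]
      · intro h
        have := congrArg (fun p : Fin n × Fin (N + 1 + 1) => (p.2 : ℕ)) h
        simp [lc] at this
        omega
      · intro h
        have := congrArg (fun p : Fin n × Fin (N + 1 + 1) => (p.2 : ℕ)) h
        simp [lc] at this
        omega
  · rw [coeff_arc' _ _ _ hk, coeff_arc' _ _ _ hk, if_pos (by omega),
      PowerSeries.coeff_C, if_neg (by omega), add_zero]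

/-- the value of the partial derivative at the origin of the jet -/
noncomputable def pd0 {N : ℕ} (f : MvPolynomial (Fin n) K) (j : Fin n)
    (z : Pt K (Fin n × Fin (N + 1 + 1))) : AlgebraicClosure K :=
  aeval (fun i => z (i, 0)) (pderiv j f)

/-- the coefficient without the contribution of the last coefficient of the coordinate `j` -/
noncomputable def rest {N : ℕ} (f : MvPolynomial (Fin n) K) (j : Fin n)
    (z : Pt K (Fin n × Fin (N + 1 + 1))) : AlgebraicClosure K :=
  PowerSeries.coeff (N + 1) (aeval (arc (Function.update z (lc N j) 0)) f)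

theorem coeff_update_lt {N : ℕ} (f : MvPolynomial (Fin n) K) (j : Fin n)
    (z : Pt K (Fin n × Fin (N + 1 + 1))) (w : AlgebraicClosure K) (k : ℕ) (hk : k < N + 1) :
    PowerSeries.coeff k (aeval (arc (Function.update z (lc N j) w)) f) =
      PowerSeries.coeff k (aeval (arc z) f) := by
  refine coeff_aeval_congr f N _ _ (fun i k hk => ?_) k (by omega)
  rw [coeff_arc _ _ _ (by omega), coeff_arc _ _ _ (by omega), Function.update_of_ne]
  intro h
  have := congrArg (fun p : Fin n × Fin (N + 1 + 1) => (p.2 : ℕ)) h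
  simp [lc] at this
  omega

theorem coeff_update_eq {N : ℕ} (f : MvPolynomial (Fin n) K) (j : Fin n)
    (z : Pt K (Fin n × Fin (N + 1 + 1))) (w : AlgebraicClosure K) :
    PowerSeries.coeff (N + 1) (aeval (arc (Function.update z (lc N j) w)) f) =
      pd0 f j z * w + rest f j z := by
  obtain ⟨B, h1, h2⟩ := taylor (K := K) (arc (Function.update z (lc N j) 0)) j w
    (show 1 ≤ N + 1 by omega) f
  rw [arc_update, h1, map_add, PowerSeries.coeff_X_pow_mul', if_pos le_rfl, Nat.sub_self,
    PowerSeries.coeff_zero_eq_constantCoeff_apply, h2]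
  have h3 : (fun i => PowerSeries.constantCoeff (arc (Function.update z (lc N j) 0) i)) =
      fun i => z (i, 0) := by
    funext i
    rw [← PowerSeries.coeff_zero_eq_constantCoeff_apply, coeff_arc _ _ _ (by omega)]
    exact Function.update_of_ne (lc_ne N i j) _ _
  rw [h3]
  unfold rest pd0
  ring

theorem coeff_self_eq {N : ℕ} (f : MvPolynomial (Fin n) K) (j : Fin n)
    (z : Pt K (Fin n × Fin (N + 1 + 1))) :
    PowerSeries.coeff (N + 1) (aeval (arc z) f) = pd0 f j z * z (lc N j) + rest f j z := by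
  have h := coeff_update_eq f j z (z (lc N j))
  rwa [Function.update_eq_self] at h

theorem isPF_upd0 {N : ℕ} (j : Fin n) (p : Fin n × Fin (N + 1 + 1)) :
    IsPF (fun z : Pt K (Fin n × Fin (N + 1 + 1)) => Function.update z (lc N j) 0 p) := by
  by_cases h : p = lc N j
  · subst h
    simp only [Function.update_self]
    exact IsPF.zero
  · simp only [Function.update_of_ne h]
    exact IsPF.coord _

theorem isPF_rest {N : ℕ} (f : MvPolynomial (Fin n) K) (j : Fin n) :
    IsPF (rest (N := N) f j) := by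
  unfold rest
  exact (IsPA.aeval (fun i z => arc z i) (fun i => isPA_arc i) f (N + 1)).comp
    (fun z => Function.update z (lc N j) 0) (isPF_upd0 j)

theorem isPF_pd0 {N : ℕ} (f : MvPolynomial (Fin n) K) (j : Fin n) :
    IsPF (pd0 (N := N) f j) :=
  (IsPF.poly (pderiv j f)).comp (fun z i => z (i, 0)) fun i => IsPF.coord _

variable {R : Type} [CommRing R] (M : Meas K R)

/-- the jets with one more coefficient -/
theorem smooth_step (f : MvPolynomial (Fin n) K) {W : Set (Pt K (Fin n))} (hW : Constr W)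
    (j : Fin n) (hj : ∀ w ∈ W, aeval w (pderiv j f) ≠ 0) {E : Set (AlgebraicClosure K)}
    (hE : CE E) (N : ℕ) :
    M.L * M.χ _ (JetG f W E (N + 1)) =
      M.χ (Fin 1) {a | a 0 ∈ E} * (M.χ _ (Tl f W (N + 1) N) * M.L ^ n) := by
  classical
  set S0 : Set (Pt K (Fin n × Fin (N + 1 + 1))) :=
    Tl f W (N + 1) (N + 1) ∩ {z | z (lc N j) = algebraMap K _ (0 : K)} with hS0
  have hTl : Constr (Tl f W (N + 1) (N + 1)) := Pool.Agent.Y812.MS.constr_Tl f hW _ _
  have hS0c : Constr S0 := hTl.inter (Constr.eq (IsPF.coord _) (IsPF.const _))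
  have hcE : Constr {a : Pt K (Fin 1) | a 0 ∈ E} := hE _ (IsPF.coord 0)
  have hup : ∀ (z : Pt K (Fin n × Fin (N + 1 + 1))) (w : AlgebraicClosure K),
      Function.update z (lc N j) w ∈ Tl f W (N + 1) (N + 1) ↔ z ∈ Tl f W (N + 1) (N + 1) := by
    intro z w
    unfold Tl
    simp only [Set.mem_ofPred_eq]
    have h1 : (fun i => Function.update z (lc N j) w (i, 0)) = fun i => z (i, 0) := by
      funext i
      rw [Function.update_of_ne (lc_ne N i j)]
    rw [h1]
    refine and_congr_right fun _ => forall₂_congr fun k hk => ?_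
    rw [coeff_update_lt f j z w k hk]
  -- the substitution
  set T : Set (Pt K (Fin n × Fin (N + 1 + 1))) :=
    {z | Function.update z (lc N j) (algebraMap K _ (0 : K)) ∈ S0 ∧
      (fun _ : Fin 1 => z (lc N j)) ∈ {a : Pt K (Fin 1) | a 0 ∈ E}} with hT
  have hTm : ∀ z, z ∈ T ↔ z ∈ Tl f W (N + 1) (N + 1) ∧ z (lc N j) ∈ E := by
    intro z
    constructor
    · rintro ⟨⟨h1, -⟩, h3⟩
      exact ⟨(hup z _).1 h1, h3⟩
    · rintro ⟨h1, h2⟩
      refine ⟨⟨(hup z _).2 h1, ?_⟩, h2⟩
      change Function.update z (lc N j) (algebraMap K _ (0 : K)) (lc N j) = _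
      rw [Function.update_self]
  have hTc : Constr T := by
    have : T = Tl f W (N + 1) (N + 1) ∩ {z | z (lc N j) ∈ E} := by
      ext z
      exact hTm z
    rw [this]
    exact hTl.inter (hE _ (IsPF.coord _))
  have e1 : M.χ _ (JetG f W E (N + 1)) = M.χ _ T := by
    refine Pool.Agent.W21.MTSub.main M _ _ (lc N j) (pd0 f j) (rest f j)
      (Pool.Agent.Z864.MS.constr_JetE f hW hE (N + 1)) hTc (isPF_pd0 f j) (isPF_rest f j)
      (fun z w => ?_) (fun z w => ?_) (fun z hz => hj _ hz.1)
      (fun z hz => hj _ ((hTm z).1 hz).1.1) fun z hz => ?_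
    · unfold pd0
      congr 2
      funext i
      rw [Function.update_of_ne (lc_ne N i j)]
    · unfold rest
      rw [Function.update_idem]
    · rw [hTm, hup, Function.update_self, ← coeff_self_eq]
      unfold JetG Tl
      simp only [Set.mem_ofPred_eq]
      tauto
  have e2 : M.χ _ T = M.χ _ S0 * M.χ (Fin 1) {a | a 0 ∈ E} :=
    Pool.Agent.W417.MT.Free.coord M S0 (lc N j) 0 _ hS0c hcE fun z hz => hz.2
  have e3 : M.χ _ (Tl f W (N + 1) (N + 1)) = M.χ _ S0 * M.L := by
    have h := Pool.Agent.W417.MT.Free.coord M S0 (lc N j) 0 Set.univ hS0c Constr.univ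
      fun z hz => hz.2
    unfold Meas.L
    rw [← h]
    congr 1
    ext z
    constructor
    · intro hz
      refine ⟨⟨(hup z _).2 hz, ?_⟩, Set.mem_univ _⟩
      change Function.update z (lc N j) (algebraMap K _ (0 : K)) (lc N j) = _
      rw [Function.update_self]
    · rintro ⟨⟨h1, -⟩, -⟩
      exact (hup z _).1 h1
  have e4 := Pool.Agent.Y812.MS.two K R M f W hW (N + 1) N le_rfl
  rw [e1, e2, ← e4, e3]
  ring

end

section zeta

open Pool.Agent.W63.MTFin (mapMeas geo_mul geo_mem X_mem C_mem L_mul)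

variable {K : Type} [Field K] {n : ℕ}

/-- the measure with values in the localised Grothendieck ring -/
theorem exists_meas (K : Type) [Field K] [CharZero K] : ∃ M : Meas K (MK K),
    M.L * (((Lu K)⁻¹ : (MK K)ˣ) : MK K) = 1 ∧
    ∀ {a : ℕ} (g : MvPolynomial (Fin a) K) (V : Set (Pt K (Fin a)))
      (E : Set (AlgebraicClosure K)),
      zetaG g V E = zs M (((Lu K)⁻¹ : (MK K)ˣ) : MK K) g V E := by
  obtain ⟨M₀, hM₀⟩ := Pool.Agent.W417.MT.K0.main K
  refine ⟨mapMeas M₀ (algebraMap (K0 K) (MK K)), L_mul hM₀, ?_⟩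
  intro a g V E
  ext N
  rw [zetaG, zs, PowerSeries.coeff_mk, PowerSeries.coeff_mk, zpow_neg, zpow_natCast, ← inv_pow,
    Units.val_pow_eq_pow_val, ← hM₀]
  rfl

theorem zetaG_union [CharZero K] (f : MvPolynomial (Fin n) K) {V W : Set (Pt K (Fin n))}
    (hV : Constr V) (hW : Constr W) (hd : Disjoint V W) {E : Set (AlgebraicClosure K)}
    (hE : CE E) : zetaG f (V ∪ W) E = zetaG f V E + zetaG f W E := by
  obtain ⟨M, -, hz⟩ := exists_meas K
  rw [hz, hz, hz]
  ext N
  rw [map_add, zs, zs, zs, PowerSeries.coeff_mk, PowerSeries.coeff_mk, PowerSeries.coeff_mk,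
    ← add_mul]
  congr 1
  rw [← M.add _ _ (Pool.Agent.Z864.MS.constr_JetE f hV hE N)
    (Pool.Agent.Z864.MS.constr_JetE f hW hE N)]
  · congr 1
    ext z
    simp only [JetG, Set.mem_union, Set.mem_ofPred_eq]
    tauto
  · rw [Set.disjoint_left]
    intro z hz1 hz2
    exact Set.disjoint_left.1 hd hz1.1 hz2.1

theorem zetaG_empty [CharZero K] (f : MvPolynomial (Fin n) K) {E : Set (AlgebraicClosure K)}
    (hE : CE E) : zetaG f ∅ E = 0 := by
  have h := zetaG_union f (V := ∅) (W := ∅) Constr.empty Constr.empty (Set.disjoint_empty _) hE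
  rw [Set.union_empty] at h
  exact left_eq_add.1 h

theorem smooth_one [CharZero K] (f : MvPolynomial (Fin n) K) {W : Set (Pt K (Fin n))}
    (hW : Constr W) (j : Fin n) (hj : ∀ w ∈ W, aeval w (pderiv j f) ≠ 0)
    {E : Set (AlgebraicClosure K)} (hE : CE E) : fst' K * zetaG f W E ∈ ratRing K ∅ := by
  obtain ⟨M, hL, hz⟩ := exists_meas K
  rw [hz]
  set Y : MK K := (((Lu K)⁻¹ : (MK K)ˣ) : MK K) with hY
  have hLn : ∀ m : ℕ, M.L ^ m * Y ^ m = 1 := fun m => by rw [← mul_pow, hL, one_pow]
  have h1 : ∀ (E : Set (AlgebraicClosure K)), CE E → ∀ N,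
      M.χ _ (JetG f W E (N + 1)) * Y ^ (n * (N + 1)) =
        Y * M.χ (Fin 1) {a | a 0 ∈ E} * (M.χ _ (Tl f W (N + 1) N) * Y ^ (n * N)) := by
    intro E hE N
    have h2 := smooth_step M f hW j hj hE N
    have h3 : M.χ _ (JetG f W E (N + 1)) = Y * (M.L * M.χ _ (JetG f W E (N + 1))) := by
      linear_combination (-M.χ _ (JetG f W E (N + 1))) * hL
    rw [h3, h2, show n * (N + 1) = n + n * N by ring, pow_add]
    linear_combination (Y * M.χ (Fin 1) {a | a 0 ∈ E} * M.χ _ (Tl f W (N + 1) N) *
      Y ^ (n * N)) * hLn n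
  have h4 : ∀ N, M.χ _ (Tl f W (N + 1 + 1) (N + 1)) * Y ^ (n * (N + 1)) =
      Y * (M.χ _ (Tl f W (N + 1) N) * Y ^ (n * N)) := by
    intro N
    rw [tl_succ, h1 _ ce_zero, chi_pt, mul_one]
  have h5 : fst' K * zs M Y f W E = PowerSeries.C (PowerSeries.coeff 0 (zs M Y f W E)) +
      PowerSeries.C (PowerSeries.coeff 1 (zs M Y f W E) -
        Y * PowerSeries.coeff 0 (zs M Y f W E)) * PowerSeries.X := by
    unfold fst'
    rw [← hY, sub_mul, one_mul, mul_assoc]
    ext N
    match N with
    | 0 => simp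
    | 1 =>
      rw [map_sub, PowerSeries.coeff_C_mul, map_add, PowerSeries.coeff_C_mul,
        PowerSeries.coeff_one_X, PowerSeries.coeff_C, if_neg one_ne_zero,
        show (1 : ℕ) = 0 + 1 from rfl, PowerSeries.coeff_succ_X_mul]
      ring
    | N + 2 =>
      rw [map_sub, PowerSeries.coeff_C_mul, map_add, PowerSeries.coeff_C_mul,
        PowerSeries.coeff_X, if_neg (by omega), PowerSeries.coeff_C, if_neg (by omega),
        show N + 2 = (N + 1) + 1 from rfl, PowerSeries.coeff_succ_X_mul]
      unfold zs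
      rw [PowerSeries.coeff_mk, PowerSeries.coeff_mk, h1 E hE (N + 1), h1 E hE N, h4 N]
      ring
  rw [h5]
  exact (ratRing K _).add_mem (C_mem _ _) ((ratRing K _).mul_mem (C_mem _ _) (X_mem _))

/-- **The zeta functions of the jets with origin at smooth points.** -/
theorem smooth_fst [CharZero K] (f : MvPolynomial (Fin n) K) {E : Set (AlgebraicClosure K)}
    (hE : CE E) {W : Set (Pt K (Fin n))} (hW : Constr W)
    (hj : ∀ w ∈ W, ∃ j, aeval w (pderiv j f) ≠ 0) :
    fst' K * zetaG f W E ∈ ratRing K ∅ := by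
  classical
  have key : ∀ (s : Finset (Fin n)) (W : Set (Pt K (Fin n))), Constr W →
      (∀ w ∈ W, ∃ j ∈ s, aeval w (pderiv j f) ≠ 0) → fst' K * zetaG f W E ∈ ratRing K ∅ := by
    intro s
    induction s using Finset.induction_on with
    | empty =>
      intro W _ h
      have : W = ∅ := by
        ext w
        constructor
        · intro hw
          obtain ⟨j, hj, -⟩ := h w hw
          exact absurd hj (Finset.notMem_empty _)
        · intro hw
          exact hw.elim
      rw [this, zetaG_empty f hE, mul_zero]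
      exact (ratRing K _).zero_mem
    | insert j s hjs ih =>
      intro W hW h
      have hc : Constr {w : Pt K (Fin n) | aeval w (pderiv j f) = 0} := Constr.eqz (IsPF.poly _)
      have e1 : W = (W ∩ {w | aeval w (pderiv j f) = 0}) ∪
          (W ∩ {w | aeval w (pderiv j f) ≠ 0}) := by
        ext w
        simp only [Set.mem_union, Set.mem_inter_iff, Set.mem_ofPred_eq]
        tauto
      rw [e1, zetaG_union f (hW.inter hc) (hW.inter hc.not), mul_add]
      · refine (ratRing K _).add_mem (ih _ (hW.inter hc) ?_)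
          (smooth_one f (hW.inter hc.not) j (fun w hw => hw.2) hE)
        rintro w ⟨hw1, hw2⟩
        obtain ⟨i, hi, hi'⟩ := h w hw1
        rcases Finset.mem_insert.1 hi with rfl | hi
        · exact absurd hw2 hi'
        · exact ⟨i, hi, hi'⟩
      · rw [Set.disjoint_left]
        rintro w ⟨-, h1⟩ ⟨-, h2⟩
        exact h2 h1
      · exact hE
  refine key Finset.univ W hW fun w hw => ?_
  obtain ⟨j, hj⟩ := hj w hw
  exact ⟨j, Finset.mem_univ _, hj⟩

theorem geo_fst {Z : PowerSeries (MK K)} (h : fst' K * Z ∈ ratRing K ∅) :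
    Z ∈ ratRing K {(-1, 1)} := by
  have h1 := geo_mul (K := K) (-1) 1 one_pos
  rw [show (1 : ℤ).toNat = 1 from rfl, zpow_neg_one, pow_one] at h1
  have h2 : geo K (-1) 1 * (fst' K * Z) = Z := by
    unfold fst'
    calc _ = ((1 - PowerSeries.C (((Lu K)⁻¹ : (MK K)ˣ) : MK K) * PowerSeries.X) * geo K (-1) 1) *
        Z := by ring
      _ = _ := by rw [h1, one_mul]
  rw [← h2]
  exact (ratRing K _).mul_mem (geo_mem (p := ((-1 : ℤ), (1 : ℤ))) (Set.mem_singleton _))
    (ratRing_mono (Set.empty_subset _) h)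

end zeta

end Pool.Agent.Q59.TR
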