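import Pool.Agent.Q59.TR.Mot
import Pool.Agent.Q59.TR.Smooth
import Pool.Agent.Y229.PS.Emb

/-!
# Local versions: isomorphisms which fix the origin, translations
-/

set_option autoImplicit false

namespace Pool.Agent.Q59.TR

open MvPolynomial Pool.Agent.H628R4.TP Pool.Agent.W428.MOT
open Pool.Agent.Y229.PS (IsFormalBFunction formal_of_local local_of_formal coordB)
open Pool.Agent.Y229.GL (IsCoord)
open Pool.Agent.Y229.MS (addyz itr Witr Wyz constr_Witr constr_Wyz)
open Pool.Agent.W375.MG (zetaG)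

/-! ### The linear part -/

section lin

variable {a b : ℕ}

/-- the coefficient of `x_j` -/
noncomputable def lin (j : Fin a) (p : MvPolynomial (Fin a) ℂ) : ℂ :=
  constantCoeff (pderiv j p)

theorem lin_add (j : Fin a) (p q : MvPolynomial (Fin a) ℂ) : lin j (p + q) = lin j p + lin j q := by
  unfold lin
  rw [map_add, map_add]

theorem lin_C (j : Fin a) (c : ℂ) : lin j (C c) = 0 := by
  unfold lin
  rw [pderiv_C, map_zero]

theorem lin_mul (j : Fin a) (p q : MvPolynomial (Fin a) ℂ) :
    lin j (p * q) = constantCoeff p * lin j q + constantCoeff q * lin j p := by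
  unfold lin
  rw [Derivation.leibniz, map_add, smul_eq_mul, smul_eq_mul, map_mul, map_mul]

theorem lin_X (i j : Fin a) : lin j (X i) = if i = j then 1 else 0 := by
  unfold lin
  rw [pderiv_X]
  by_cases h : i = j
  · subst h
    rw [Pi.single_eq_same, map_one, if_pos rfl]
  · rw [Pi.single_eq_of_ne h, map_zero, if_neg h]

theorem coeff_lin (j : Fin a) (p : MvPolynomial (Fin a) ℂ) :
    coeff (Finsupp.single j 1) p = lin j p := by
  classical
  induction p using MvPolynomial.induction_on with
  | C c =>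
    rw [lin_C, coeff_C, if_neg]
    intro h
    exact one_ne_zero ((Finsupp.single_eq_zero).1 h.symm)
  | add p q hp hq => rw [coeff_add, hp, hq, lin_add]
  | mul_X p i hp =>
    rw [coeff_mul_X', lin_mul, lin_X, constantCoeff_X, zero_mul, add_zero]
    by_cases h : i = j
    · subst h
      rw [if_pos (by simp), if_pos rfl, mul_one, tsub_self, constantCoeff_eq]
    · rw [if_neg, if_neg h, mul_zero]
      rw [Finsupp.mem_support_iff, not_not, Finsupp.single_eq_of_ne h]

variable (φ : MvPolynomial (Fin a) ℂ →ₐ[ℂ] MvPolynomial (Fin b) ℂ)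

theorem const_comp (h0 : ∀ i, constantCoeff (φ (X i)) = 0) (p : MvPolynomial (Fin a) ℂ) :
    constantCoeff (φ p) = constantCoeff p := by
  induction p using MvPolynomial.induction_on with
  | C c => rw [algHom_C, algebraMap_eq, constantCoeff_C, constantCoeff_C]
  | add p q hp hq => rw [map_add, map_add, map_add, hp, hq]
  | mul_X p i hp => rw [map_mul, map_mul, map_mul, h0, constantCoeff_X, mul_zero, mul_zero]

theorem lin_comp (h0 : ∀ i, constantCoeff (φ (X i)) = 0) (j : Fin b)
    (p : MvPolynomial (Fin a) ℂ) : lin j (φ p) = ∑ i, lin i p * lin j (φ (X i)) := by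
  induction p using MvPolynomial.induction_on with
  | C c =>
    rw [algHom_C, algebraMap_eq, lin_C]
    exact (Finset.sum_eq_zero fun i _ => by rw [lin_C, zero_mul]).symm
  | add p q hp hq =>
    rw [map_add, lin_add, hp, hq, ← Finset.sum_add_distrib]
    exact Finset.sum_congr rfl fun i _ => by rw [lin_add, add_mul]
  | mul_X p s hp =>
    rw [map_mul, lin_mul, h0, zero_mul, add_zero, const_comp φ h0, Finset.sum_eq_single s]
    · rw [lin_mul, lin_X, if_pos rfl, constantCoeff_X, zero_mul, add_zero, mul_one]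
    · intro i _ hi
      rw [lin_mul, lin_X, if_neg (Ne.symm hi), constantCoeff_X, zero_mul, add_zero, mul_zero,
        zero_mul]
    · intro h
      exact absurd (Finset.mem_univ _) h

theorem symm_zero (ψ : MvPolynomial (Fin a) ℂ ≃ₐ[ℂ] MvPolynomial (Fin b) ℂ)
    (h0 : ∀ i, constantCoeff (ψ (X i)) = 0) (j : Fin b) : constantCoeff (ψ.symm (X j)) = 0 := by
  have h1 := const_comp (ψ : MvPolynomial (Fin a) ℂ →ₐ[ℂ] MvPolynomial (Fin b) ℂ) h0
    (ψ.symm (X j))
  have h2 : (ψ : MvPolynomial (Fin a) ℂ →ₐ[ℂ] MvPolynomial (Fin b) ℂ) (ψ.symm (X j)) = X j :=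
    ψ.apply_symm_apply _
  rw [h2, constantCoeff_X] at h1
  exact h1.symm

/-- **Invariance of the local functional equations.** -/
theorem isLocalB_iso (hab : a = b) (ψ : MvPolynomial (Fin a) ℂ ≃ₐ[ℂ] MvPolynomial (Fin b) ℂ)
    (h0 : ∀ i, constantCoeff (ψ (X i)) = 0) {F : MvPolynomial (Fin a) ℂ} {c : Polynomial ℂ}
    (h : IsLocalBFunction F c) : IsLocalBFunction (ψ F) c := by
  subst hab
  have h0' := symm_zero ψ h0
  have hφ : IsCoord fun i => ((ψ (X i) : MvPolynomial (Fin a) ℂ) : MvPowerSeries (Fin a) ℂ) := by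
    unfold IsCoord
    have e1 : (Matrix.of fun i j : Fin a => MvPowerSeries.coeff (Finsupp.single j 1)
        ((ψ (X i) : MvPolynomial (Fin a) ℂ) : MvPowerSeries (Fin a) ℂ)) =
        Matrix.of fun i j : Fin a => lin j (ψ (X i)) := by
      ext i j
      rw [Matrix.of_apply, Matrix.of_apply, MvPolynomial.coeff_coe, coeff_lin]
    rw [e1]
    have e2 : (Matrix.of fun i j : Fin a => lin j (ψ (X i))) *
        (Matrix.of fun i j : Fin a => lin j (ψ.symm (X i))) = 1 := by
      ext i j
      rw [Matrix.mul_apply, Matrix.one_apply]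
      have h1 := lin_comp (ψ.symm : MvPolynomial (Fin a) ℂ →ₐ[ℂ] MvPolynomial (Fin a) ℂ) h0' j
        (ψ (X i))
      have h2 : (ψ.symm : MvPolynomial (Fin a) ℂ →ₐ[ℂ] MvPolynomial (Fin a) ℂ) (ψ (X i)) = X i :=
        ψ.symm_apply_apply _
      rw [h2, lin_X] at h1
      rw [h1]
      rfl
    intro h3
    have h4 := congrArg Matrix.det e2
    rw [Matrix.det_mul, h3, zero_mul, Matrix.det_one] at h4
    exact zero_ne_one h4
  have hφ0 : ∀ i, MvPowerSeries.constantCoeff
      ((ψ (X i) : MvPolynomial (Fin a) ℂ) : MvPowerSeries (Fin a) ℂ) = 0 := by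
    intro i
    rw [Pool.Agent.Y229.PS.const_coe, h0]
  have h1 := coordB hφ hφ0 (formal_of_local h)
  apply local_of_formal
  convert h1 using 1
  rw [MvPowerSeries.subst_coe]
  have h2 : ((MvPolynomial.coeToMvPowerSeries.algHom (R := ℂ) (σ := Fin a) ℂ).comp
      (ψ : MvPolynomial (Fin a) ℂ →ₐ[ℂ] MvPolynomial (Fin a) ℂ)) =
      aeval fun i => ((ψ (X i) : MvPolynomial (Fin a) ℂ) : MvPowerSeries (Fin a) ℂ) := by
    apply MvPolynomial.algHom_ext
    intro i
    rw [aeval_X]
    simp
  rw [← h2]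
  simp

end lin

/-! ### Translations -/

section transl

variable {M : ℕ}

/-- the translation by `p` -/
noncomputable def trl (p : Fin M → ℂ) : MvPolynomial (Fin M) ℂ ≃ₐ[ℂ] MvPolynomial (Fin M) ℂ :=
  AlgEquiv.ofAlgHom (aeval fun i => X i + C (p i)) (aeval fun i => X i - C (p i))
    (by
      apply MvPolynomial.algHom_ext
      intro i
      rw [AlgHom.comp_apply, aeval_X, map_sub, aeval_X, algHom_C, algebraMap_eq,
        add_sub_cancel_right, AlgHom.id_apply])
    (by
      apply MvPolynomial.algHom_ext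
      intro i
      rw [AlgHom.comp_apply, aeval_X, map_add, aeval_X, algHom_C, algebraMap_eq,
        sub_add_cancel, AlgHom.id_apply])

theorem trl_apply (p : Fin M → ℂ) (f : MvPolynomial (Fin M) ℂ) :
    trl p f = aeval (fun i => X i + C (p i)) f := rfl

theorem trl_const (p : Fin M → ℂ) (f : MvPolynomial (Fin M) ℂ) :
    constantCoeff (trl p f) = eval p f := by
  rw [trl_apply]
  induction f using MvPolynomial.induction_on with
  | C c => rw [algHom_C, algebraMap_eq, constantCoeff_C, eval_C]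
  | add f g hf hg => rw [map_add, map_add, map_add, hf, hg]
  | mul_X f i hf =>
    rw [map_mul, map_mul, map_mul, hf, aeval_X, eval_X, map_add, constantCoeff_X,
      constantCoeff_C, zero_add]

theorem Le3.pow {col : Fin M → Fin 3} {d : Fin 3 → ℕ} {F : MvPolynomial (Fin M) ℂ}
    (h : Le3 col d F) : ∀ k : ℕ, Le3 col (fun g => k * d g) (F ^ k)
  | 0 => by
    rw [pow_zero]
    exact le3_one.mono fun g => Nat.zero_le _
  | k + 1 => by
    rw [pow_succ]
    refine ((Le3.pow h k).mul h).mono fun g => ?_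
    rw [add_mul, one_mul]

theorem Le3.prod {col : Fin M → Fin 3} {α : Type} (s : Finset α) (d : α → Fin 3 → ℕ)
    (F : α → MvPolynomial (Fin M) ℂ) (h : ∀ a ∈ s, Le3 col (d a) (F a)) :
    Le3 col (fun g => ∑ a ∈ s, d a g) (∏ a ∈ s, F a) := by
  classical
  induction s using Finset.induction_on with
  | empty =>
    rw [Finset.prod_empty]
    exact le3_one.mono fun g => Nat.zero_le _
  | insert a s ha ih =>
    rw [Finset.prod_insert ha]
    refine ((h a (Finset.mem_insert_self _ _)).mul
      (ih fun b hb => h b (Finset.mem_insert_of_mem hb))).mono fun g => ?_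
    rw [Finset.sum_insert ha]

theorem Le3.trl {col : Fin M → Fin 3} {d : Fin 3 → ℕ} {F : MvPolynomial (Fin M) ℂ}
    (h : Le3 col d F) (p : Fin M → ℂ) : Le3 col d (trl p F) := by
  classical
  have h1 : Pool.Agent.Q59.TR.trl p F =
      ∑ w ∈ F.support, C (coeff w F) * ∏ i, (X i + C (p i)) ^ w i := by
    rw [trl_apply, aeval_def, eval₂_eq']
    exact Finset.sum_congr rfl fun w _ => by rw [algebraMap_eq]
  rw [h1]
  refine Le3.sum _ _ fun w hw => ?_
  have h2 : Le3 col (fun g => ∑ i, (w i) * (if col i = g then 1 else 0))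
      (∏ i, ((X i : MvPolynomial (Fin M) ℂ) + C (p i)) ^ w i) :=
    Le3.prod Finset.univ _ _ fun i _ => Le3.pow
      (Le3.add (le3_X i) ((le3_C _).mono fun g => Nat.zero_le _)) _
  refine ((le3_C _).mul h2).mono fun g => ?_
  rw [zero_add]
  refine le_trans (le_of_eq ?_) (h w hw g)
  unfold dg
  rw [Finset.sum_filter]
  exact Finset.sum_congr rfl fun i _ => by
    split_ifs
    · rw [mul_one]
    · rw [mul_zero]

theorem AffTri.trl {F : MvPolynomial (Fin M) ℂ} (h : AffTri F) (p : Fin M → ℂ) :
    AffTri (trl p F) := by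
  obtain ⟨col, h⟩ := affTri_iff.1 h
  exact affTri_iff.2 ⟨col, h.trl p⟩

end transl

/-! ### The chain, with isomorphisms which fix the origin -/

theorem const_itr {n : ℕ} (f : MvPolynomial (Fin n) ℂ) : ∀ m,
    constantCoeff (itr f m) = constantCoeff f
  | 0 => rfl
  | m + 1 => by
    show constantCoeff (addyz (itr f m)) = _
    rw [const_addyz, const_itr f m]

/-- all long enough chains end with such polynomials, for isomorphisms which fix the origin -/
theorem exists_chain0 {n : ℕ} (f : MvPolynomial (Fin n) ℂ) :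
    ∃ κ : ℕ, ∀ m, κ ≤ m → ∃ (M : ℕ) (G : MvPolynomial (Fin M) ℂ)
      (ψ : MvPolynomial (Fin (n + 2 * m)) ℂ ≃ₐ[ℂ] MvPolynomial (Fin M) ℂ),
      n + 2 * m = M ∧ ψ (itr f m) = G ∧ (∀ i, constantCoeff (ψ (X i)) = 0) ∧ AffTri G ∧
        constantCoeff G = constantCoeff f := by
  obtain ⟨κ, hκ⟩ := exists_chain f
  refine ⟨κ, fun m hm => ?_⟩
  obtain ⟨M, G, ψ, hM, hψ, hT, -⟩ := hκ m hm
  set p : Fin M → ℂ := fun j => constantCoeff (ψ.symm (X j)) with hp
  have h1 : ∀ q : MvPolynomial (Fin M) ℂ, eval p q = constantCoeff (ψ.symm q) := by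
    intro q
    induction q using MvPolynomial.induction_on with
    | C c =>
      have : ψ.symm (C c) = C c := ψ.symm.commutes c
      rw [this, eval_C, constantCoeff_C]
    | add f g hf hg => rw [map_add, map_add, map_add, hf, hg]
    | mul_X f i hf => rw [map_mul, map_mul, map_mul, hf, eval_X]
  have h2 : ∀ i, constantCoeff ((ψ.trans (trl p)) (X i)) = 0 := by
    intro i
    rw [AlgEquiv.trans_apply, trl_const, h1, AlgEquiv.symm_apply_apply, constantCoeff_X]
  refine ⟨M, trl p G, ψ.trans (trl p), hM, ?_, h2, hT.trl p, ?_⟩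
  · rw [AlgEquiv.trans_apply, hψ]
  · rw [trl_const, h1, ← hψ, AlgEquiv.symm_apply_apply, const_itr]

/-! ### Smooth points of the chain -/

theorem addyz_smooth {K : Type} [Field K] {M : ℕ} (F : MvPolynomial (Fin M) K)
    (w : Pt K (Fin (M + 2)))
    (h : w (Fin.natAdd M 1) = 0 → w (Fin.natAdd M 0) = 0 →
      ∃ j, aeval (fun i => w (Fin.castAdd 2 i)) (pderiv j F) ≠ 0) :
    ∃ j, aeval w (pderiv j (addyz F)) ≠ 0 := by
  have hne : ∀ (i : Fin M) (j : Fin 2), Fin.castAdd 2 i ≠ Fin.natAdd M j := by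
    intro i j h
    have := congrArg Fin.val h
    rw [Fin.val_castAdd, Fin.val_natAdd] at this
    omega
  have hr : ∀ (j : Fin 2), pderiv (Fin.natAdd M j) (rename (Fin.castAdd 2) F) = 0 := by
    intro j
    refine pderiv_eq_zero_of_notMem_vars ?_
    intro h
    classical
    have := vars_rename (Fin.castAdd 2) F h
    obtain ⟨i, -, hi⟩ := Finset.mem_image.1 this
    exact hne i j hi
  have h01 : Fin.natAdd M (0 : Fin 2) ≠ Fin.natAdd M (1 : Fin 2) := by
    intro h
    have := congrArg Fin.val h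
    simp at this
  unfold addyz
  by_cases hz : w (Fin.natAdd M 1) = 0
  · by_cases hy : w (Fin.natAdd M 0) = 0
    · obtain ⟨j, hj⟩ := h hz hy
      refine ⟨Fin.castAdd 2 j, ?_⟩
      rw [map_add, Derivation.leibniz, pderiv_X_of_ne (hne j 1).symm,
        pderiv_X_of_ne (hne j 0).symm, smul_zero, smul_zero, add_zero, add_zero,
        pderiv_rename (Fin.castAdd_injective _ _), aeval_rename]
      exact hj
    · refine ⟨Fin.natAdd M 1, ?_⟩
      rw [map_add, hr, zero_add, Derivation.leibniz, pderiv_X_self,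
        pderiv_X_of_ne h01, smul_zero, add_zero, smul_eq_mul, mul_one, aeval_X]
      exact hy
  · refine ⟨Fin.natAdd M 0, ?_⟩
    rw [map_add, hr, zero_add, Derivation.leibniz, pderiv_X_self,
      pderiv_X_of_ne h01.symm, smul_zero, zero_add, smul_eq_mul, mul_one, aeval_X]
    exact hz

theorem itr_smooth {K : Type} [Field K] {n : ℕ} (f : MvPolynomial (Fin n) K) :
    ∀ (m : ℕ) (w : Pt K (Fin (n + 2 * m))), w ∈ Witr (K := K) ({0} : Set (Pt K (Fin n))) m →
      w ≠ 0 → ∃ j, aeval w (pderiv j (itr f m)) ≠ 0 := by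
  intro m
  induction m with
  | zero =>
    intro w hw h0
    exact absurd (Set.mem_singleton_iff.1 hw) h0
  | succ m ih =>
    intro w hw h0
    refine addyz_smooth (itr f m) w fun h1 h2 => ?_
    refine ih (fun i => w (Fin.castAdd 2 i)) hw fun h => h0 ?_
    funext i
    refine Fin.addCases (m := n + 2 * m) (n := 2) (motive := fun i => w i = 0)
      (fun i => congrFun h i) (fun i => ?_) i
    fin_cases i
    · exact h2
    · exact h1

theorem constr_zero {K : Type} [Field K] {ι : Type} [Finite ι] :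
    Constr ({0} : Set (Pt K ι)) := by
  have h : ({0} : Set (Pt K ι)) = {z | ∀ i, z i = 0} := by
    ext z
    rw [Set.mem_singleton_iff]
    exact funext_iff
  rw [h]
  exact Constr.all fun i => Constr.eqz (IsPF.coord i)

theorem zero_mem_Witr {K : Type} [Field K] {n : ℕ} : ∀ m : ℕ,
    (0 : Pt K (Fin (n + 2 * m))) ∈ Witr (K := K) ({0} : Set (Pt K (Fin n))) m
  | 0 => Set.mem_singleton _
  | m + 1 => zero_mem_Witr (K := K) (n := n) m

/-- the origins different from the origin do not matter -/
theorem loc_split {K : Type} [Field K] [CharZero K] {n : ℕ} (f : MvPolynomial (Fin n) K)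
    {E : Set (AlgebraicClosure K)} (hE : Pool.Agent.Y229.MS.CE E) (m : ℕ) :
    ∃ Z : PowerSeries (MK K), Pool.Agent.Y229.MS.fst' K * Z ∈ ratRing K ∅ ∧
      zetaG (itr f m) (Witr {0} m) E = zetaG (itr f m) {0} E + Z := by
  refine ⟨zetaG (itr f m) (Witr {0} m ∩ {w | w ≠ 0}) E, ?_, ?_⟩
  · refine smooth_fst _ hE ((constr_Witr constr_zero m).inter ?_) fun w hw =>
      itr_smooth f m w hw.1 hw.2
    have h := (constr_zero (K := K) (ι := Fin (n + 2 * m))).not
    exact h
  · have h1 : Witr (K := K) ({0} : Set (Pt K (Fin n))) m =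
        {0} ∪ (Witr {0} m ∩ {w | w ≠ 0}) := by
      ext w
      simp only [Set.mem_union, Set.mem_singleton_iff, Set.mem_inter_iff, Set.mem_ofPred_eq]
      constructor
      · intro h
        by_cases h0 : w = 0
        · exact Or.inl h0
        · exact Or.inr ⟨h, h0⟩
      · rintro (rfl | h)
        · exact zero_mem_Witr m
        · exact h.1
    conv_lhs => rw [h1]
    refine zetaG_union _ constr_zero ((constr_Witr constr_zero m).inter ?_) ?_ hE
    · exact (constr_zero (K := K) (ι := Fin (n + 2 * m))).not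
    · rw [Set.disjoint_left]
      rintro w hw ⟨-, hw'⟩
      exact hw' (Set.mem_singleton_iff.1 hw)

end Pool.Agent.Q59.TR
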