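import Pool.Agent.Q59.TR.Words
import Pool.Agent.Y229.MS.Fin
import Pool.Agent.W206.CU.Pole

/-!
# The chain `f, f + y z, …` and polynomials of degree at most one in each of three groups of variables
-/

set_option autoImplicit false

namespace Pool.Agent.Q59.TR

open MvPolynomial Pool.Agent.H628R4.TP
open Pool.Agent.Y229.RE (stab emb xv yv zv emb_l emb_r emb_inj)
open Pool.Agent.Y229.PG (BecomesG becomes_global becomesG_emb)
open Pool.Agent.Y229.MS (addyz itr stabK)

/-- `F` is of degree at most one in each of three groups of variables: it is of the form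
`∑ a_{ijk} x_i y_j z_k` with `x_0 = y_0 = z_0 = 1`. -/
def AffTri {M : ℕ} (F : MvPolynomial (Fin M) ℂ) : Prop :=
  ∃ col : Fin M → Fin 3, ∀ w ∈ F.support, ∀ g : Fin 3,
    ∑ i ∈ Finset.univ.filter (fun i => col i = g), w i ≤ 1

theorem affTri_iff {M : ℕ} {F : MvPolynomial (Fin M) ℂ} :
    AffTri F ↔ ∃ col : Fin M → Fin 3, Le3 col (fun _ => 1) F := Iff.rfl

/-- **Every polynomial becomes of degree at most one in each of three groups of variables.** -/
theorem exists_tri {n : ℕ} (f : MvPolynomial (Fin n) ℂ) :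
    ∃ (κ : ℕ) (G : MvPolynomial (Fin (n + (κ + κ))) ℂ), BecomesG f κ G ∧ AffTri G ∧
      constantCoeff G = constantCoeff f := by
  classical
  obtain ⟨κ, ⟨e⟩⟩ := Finite.exists_equiv_fin (Zt n f.totalDegree)
  obtain ⟨q, hq⟩ := exists_q e f le_rfl
  refine ⟨κ, _, becomesG_emb (Lin e f) (ll e) (theta e) (theta_x e) (theta_z e) f q hq,
    ⟨Fin.append (fun _ => 1) (Fin.append (fun _ => 0) fun i => cz (e.symm i)), ?_⟩, ?_⟩
  · have hcx : ∀ i : Fin (n + κ), Fin.append (fun _ => 1) (Fin.append (fun _ => 0)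
        fun i => cz (e.symm i)) (emb i) = cxz e i := by
      intro i
      refine Fin.addCases (fun i => ?_) (fun i => ?_) i
      · rw [emb_l]
        unfold xv cxz
        rw [Fin.append_left, Fin.append_left]
      · rw [emb_r]
        unfold zv cxz
        rw [Fin.append_right, Fin.append_right, Fin.append_right]
    have h1 := (le_Lin e f).rename emb_inj hcx
    refine Le3.add (h1.mono fun g => ?_) (Le3.sum _ _ fun i _ => ?_)
    · unfold u3
      split_ifs <;> simp
    · have h2 := (le_ll (R := ℂ) e i).rename emb_inj hcx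
      have h3 := le3_X (R := ℂ) (col := (Fin.append (fun _ => 1) (Fin.append (fun _ => 0)
        fun i => cz (e.symm i)) : Fin (n + (κ + κ)) → Fin 3)) (yv n i)
      refine (h3.mul h2).mono fun g => ?_
      unfold yv u3
      rw [Fin.append_right, Fin.append_left]
      fin_cases g <;> simp
  · rw [map_add, map_sum]
    have h1 : ∀ p : MvPolynomial (Fin (n + κ)) ℂ,
        constantCoeff (rename (emb : _ → Fin (n + (κ + κ))) p) = constantCoeff p :=
      fun p => constantCoeff_rename _ _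
    rw [h1, Lin_zero, Finset.sum_eq_zero, add_zero]
    intro i _
    rw [map_mul, h1, ll_zero, mul_zero]

theorem affTri_addyz {M : ℕ} {F : MvPolynomial (Fin M) ℂ} (h : AffTri F) : AffTri (addyz F) := by
  obtain ⟨col, h⟩ := affTri_iff.1 h
  refine affTri_iff.2 ⟨Fin.append col ![0, 1], ?_⟩
  refine Le3.add (h.rename (Fin.castAdd_injective _ _) fun i => Fin.append_left _ _ _) ?_
  have h0 := le3_X (R := ℂ) (col := Fin.append col ![0, 1]) (Fin.natAdd M (0 : Fin 2))
  have h1 := le3_X (R := ℂ) (col := Fin.append col ![0, 1]) (Fin.natAdd M (1 : Fin 2))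
  refine (h0.mul h1).mono fun g => ?_
  rw [Fin.append_right, Fin.append_right]
  fin_cases g <;> simp

theorem const_addyz {M : ℕ} (F : MvPolynomial (Fin M) ℂ) :
    constantCoeff (addyz F) = constantCoeff F := by
  unfold addyz
  rw [map_add, map_mul, constantCoeff_X, zero_mul, add_zero, constantCoeff_rename]

/-- all long enough chains end with such polynomials -/
theorem exists_chain {n : ℕ} (f : MvPolynomial (Fin n) ℂ) :
    ∃ κ : ℕ, ∀ m, κ ≤ m → ∃ (M : ℕ) (G : MvPolynomial (Fin M) ℂ)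
      (ψ : MvPolynomial (Fin (n + 2 * m)) ℂ ≃ₐ[ℂ] MvPolynomial (Fin M) ℂ),
      n + 2 * m = M ∧ ψ (itr f m) = G ∧ AffTri G ∧ constantCoeff G = constantCoeff f := by
  obtain ⟨κ, G, hG, hT, h0⟩ := exists_tri f
  refine ⟨κ, fun m hm => ?_⟩
  induction m, hm using Nat.le_induction with
  | base =>
    obtain ⟨φ, hφ⟩ := hG
    obtain ⟨ψ1, hψ1⟩ := Pool.Agent.Y405.MS.itr ℂ f κ
    refine ⟨n + (κ + κ), G, ψ1.trans φ, by ring, ?_, hT, h0⟩
    show φ (ψ1 (itr f κ)) = G
    rw [hψ1, ← hφ]
    rfl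
  | succ m _ ih =>
    obtain ⟨M, G, ψ, hM, hψ, hT, h0⟩ := ih
    obtain ⟨ψ', hψ'⟩ := Pool.Agent.Y405.MS.ext ℂ ψ
    refine ⟨M + 2, addyz G, ψ', by rw [← hM]; ring, ?_, affTri_addyz hT, ?_⟩
    · rw [← hψ]
      exact hψ' (itr f m)
    · rw [const_addyz, h0]

theorem addyz_deg {M : ℕ} {F : MvPolynomial (Fin M) ℂ} (h : F.totalDegree ≠ 0) :
    (addyz F).totalDegree ≠ 0 := by
  intro h0
  rw [totalDegree_eq_zero_iff_eq_C] at h0
  apply h
  have h1 := congrArg (aeval (Fin.append X fun _ : Fin 2 => (0 : MvPolynomial (Fin M) ℂ))) h0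
  unfold addyz at h1
  rw [map_add, map_mul, aeval_X, Fin.append_right, zero_mul, add_zero, aeval_rename] at h1
  have h2 : (Fin.append X fun _ : Fin 2 => (0 : MvPolynomial (Fin M) ℂ)) ∘ Fin.castAdd 2 = X := by
    funext i
    exact Fin.append_left _ _ _
  rw [h2, aeval_X_left, AlgHom.id_apply, algHom_C] at h1
  rw [h1]
  exact totalDegree_C _

theorem itr_deg {n : ℕ} {f : MvPolynomial (Fin n) ℂ} (h : f.totalDegree ≠ 0) :
    ∀ m, (itr f m).totalDegree ≠ 0
  | 0 => h
  | m + 1 => addyz_deg (itr_deg h m)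

theorem deg_iso {a b : ℕ} (ψ : MvPolynomial (Fin a) ℂ ≃ₐ[ℂ] MvPolynomial (Fin b) ℂ)
    {F : MvPolynomial (Fin a) ℂ} (h : F.totalDegree ≠ 0) : (ψ F).totalDegree ≠ 0 := by
  intro h0
  rw [totalDegree_eq_zero_iff_eq_C] at h0
  apply h
  have h1 := congrArg ψ.symm h0
  rw [AlgEquiv.symm_apply_apply] at h1
  rw [h1]
  have h2 : ψ.symm (C (coeff 0 (ψ F))) = C (coeff 0 (ψ F)) := ψ.symm.commutes _
  rw [h2]
  exact totalDegree_C _

theorem b_addyz {M : ℕ} {F : MvPolynomial (Fin M) ℂ} (hF : F.totalDegree ≠ 0) {c : Polynomial ℂ}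
    (h : IsBFunction F ((Polynomial.X + 1) * c)) : IsBFunction (addyz F) ((Polynomial.X + 1) *
      c.comp (Polynomial.X + Polynomial.C ((1 : ℕ) : ℂ))) := by
  have hst : stab F 1 = addyz F := by
    unfold stab addyz
    rw [Fin.sum_univ_one]
    rfl
  have h5 := (becomes_global (k := 1) (G := stab F 1) hF h ⟨AlgEquiv.refl, rfl⟩).2 _ rfl
  rw [hst] at h5
  exact h5

/-- the functional equations along the chain -/
theorem b_itr {n : ℕ} {f : MvPolynomial (Fin n) ℂ} (hf : f.totalDegree ≠ 0) {c : Polynomial ℂ}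
    (h : IsBFunction f ((Polynomial.X + 1) * c)) : ∀ m : ℕ,
    IsBFunction (itr f m) ((Polynomial.X + 1) * c.comp (Polynomial.X + Polynomial.C (m : ℂ)))
  | 0 => by
    rw [Nat.cast_zero, Polynomial.C_0, add_zero, Polynomial.comp_X]
    exact h
  | m + 1 => by
    have h1 := b_addyz (itr_deg hf m) (b_itr hf h m)
    have h2 : (c.comp (Polynomial.X + Polynomial.C (m : ℂ))).comp
        (Polynomial.X + Polynomial.C ((1 : ℕ) : ℂ)) =
        c.comp (Polynomial.X + Polynomial.C ((m + 1 : ℕ) : ℂ)) := by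
      rw [Polynomial.comp_assoc]
      congr 1
      rw [Polynomial.add_comp, Polynomial.X_comp, Polynomial.C_comp, add_assoc,
        ← Polynomial.C_add]
      congr 2
      push_cast
      ring
    rw [h2] at h1
    exact h1

end Pool.Agent.Q59.TR
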