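import Pool.Agent.Q59.TR.Main

/-!
# Poles of motivic zeta functions and the chain `f, f + y z, …`
-/

set_option autoImplicit false

namespace Pool.Agent.Q59.TR

open MvPolynomial Pool.Agent.H628R4.TP Pool.Agent.W428.MOT
open Pool.Agent.W375.MG (JetG zetaG Good ratRing_mono zetaOrd IsPole zetaOrd_eq good_units)
open Pool.Agent.Y229.MS (addyz itr Witr Wyz constr_Witr shn fst' zeta_of_fst zeta_iso ce_good
  descend')
open Pool.Agent.Y229.PG (becomes_global)

section

variable {K : Type} [Field K]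

/-- the pairs which are allowed for the poles different from `s₀` -/
def Av (s₀ : ℚ) : Set (ℤ × ℤ) := {p | 0 < p.2 ∧ ((p.1 : ℚ) / p.2) ≠ s₀}

theorem Av_pos (s₀ : ℚ) : ∀ p ∈ Av s₀, 0 < p.2 := fun _ h => h.1

theorem shn_Av (κ : ℕ) (s₀ : ℚ) : shn κ (Av (s₀ - κ)) ⊆ Av s₀ := by
  rintro p ⟨q, ⟨h1, h2⟩, rfl⟩
  refine ⟨h1, fun h3 => h2 ?_⟩
  have h4 : (q.2 : ℚ) ≠ 0 := by exact_mod_cast h1.ne'
  rw [← h3]
  push_cast
  field_simp
  ring

theorem fst_mem (S : Set (ℤ × ℤ)) : fst' K ∈ ratRing K S := by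
  unfold fst'
  exact (ratRing K S).sub_mem (ratRing K S).one_mem
    ((ratRing K S).mul_mem (Pool.Agent.W63.MTFin.C_mem _ _) (Pool.Agent.W63.MTFin.X_mem _))

/-- **The transfer of regularity.** -/
theorem descend_reg [CharZero K] {n : ℕ} (f : MvPolynomial (Fin n) K)
    {W : Set (Pt K (Fin n))} (hW : Constr W) {E : Set (AlgebraicClosure K)} (hE : Good E)
    {s₀ : ℚ} (hs : s₀ ≠ -1) (κ : ℕ)
    (h1 : zetaG (itr f κ) (Witr W κ) E ∈ ratRing K (Av (s₀ - κ)))
    (h2 : zetaG (itr f (κ + 1)) (Witr W (κ + 1)) E ∈ ratRing K (Av (s₀ - (κ + 1 : ℕ)))) :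
    zetaG f W E ∈ ratRing K (Av s₀) := by
  have h3 := zeta_of_fst f W E _ (descend' f hW (ce_good hE) κ _ _ (Av_pos _) (Av_pos _)
    ((ratRing K _).mul_mem (fst_mem _) h1) ((ratRing K _).mul_mem (fst_mem _) h2))
  refine ratRing_mono ?_ h3
  rintro p (rfl | hp | hp)
  · refine ⟨one_pos, ?_⟩
    push_cast
    intro h
    apply hs
    rw [← h]
    norm_num
  · exact shn_Av _ _ hp
  · exact shn_Av _ _ hp

theorem not_pole_iff {n : ℕ} (f : MvPolynomial (Fin n) K) (W : Set (Pt K (Fin n))) (s₀ : ℚ) :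
    ¬ IsPole (zetaOrd f W) s₀ ↔ zetaG f W {a | a ≠ 0} ∈ ratRing K (Av s₀) := by
  unfold IsPole
  rw [not_not, zetaOrd_eq]
  constructor
  · intro h
    have h1 := (ratRing K (Av s₀)).mul_mem (Pool.Agent.W63.MTFin.C_mem (Av s₀)
      (((Lu K) ^ (n : ℤ) : (MK K)ˣ) : MK K)) h
    rw [← mul_assoc, ← map_mul, ← Units.val_mul, ← zpow_add, add_neg_cancel, zpow_zero,
      Units.val_one, map_one, one_mul] at h1
    exact h1
  · intro h
    exact (ratRing K _).mul_mem (Pool.Agent.W63.MTFin.C_mem _ _) h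

theorem Witr_univ {n : ℕ} : ∀ m : ℕ, Witr (K := K) (Set.univ : Set (Pt K (Fin n))) m = Set.univ
  | 0 => rfl
  | m + 1 => by
    ext w
    show (fun i => w (Fin.castAdd 2 i)) ∈ Witr (K := K) (Set.univ : Set (Pt K (Fin n))) m ↔ _
    rw [Witr_univ m]
    simp

end

/-- The strong monodromy conjecture (global) for the motivic zeta function of `f`: every pole is a
root of the Bernstein-Sato polynomial. -/
def GlobalSMC {n : ℕ} (f : MvPolynomial (Fin n) ℂ) : Prop :=
  ∀ s₀ : ℚ, IsPole (zetaOrd f Set.univ) s₀ →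
    ∀ b : Polynomial ℂ, IsBFunction f b → b.eval (s₀ : ℂ) = 0

theorem eval_comp_aux {c : Polynomial ℂ} {s₀ : ℚ} {j : ℕ} (hc : c.eval (s₀ : ℂ) ≠ 0)
    (hj : s₀ + 1 < j) :
    ((Polynomial.X + 1) * c.comp (Polynomial.X + Polynomial.C (j : ℂ))).eval
      (((s₀ - j : ℚ)) : ℂ) ≠ 0 := by
  rw [Polynomial.eval_mul, Polynomial.eval_comp, Polynomial.eval_add, Polynomial.eval_add,
    Polynomial.eval_X, Polynomial.eval_C, Polynomial.eval_one]
  refine mul_ne_zero ?_ ?_
  · have h1 : ((s₀ - j + 1 : ℚ) : ℂ) ≠ 0 := by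
      have : (s₀ - j + 1 : ℚ) ≠ 0 := by linarith
      exact_mod_cast this
    push_cast at h1 ⊢
    exact h1
  · push_cast
    rw [sub_add_cancel]
    exact hc

theorem factor {n : ℕ} {f : MvPolynomial (Fin n) ℂ} (hf : f.totalDegree ≠ 0) {b : Polynomial ℂ}
    (hb : IsBFunction f b) : ∃ c : Polynomial ℂ, b = (Polynomial.X + 1) * c := by
  have h1 := (becomes_global (k := 0) (G := Pool.Agent.Y229.RE.stab f 0) hf hb
    ⟨AlgEquiv.refl, rfl⟩).1
  exact Pool.Agent.Y229.PS.exists_factor h1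

/-- **The transfer**: the conjecture for the polynomials of degree at most one in each of three
groups of variables implies the conjecture for `f`. -/
theorem global_transfer
    (h : ∀ (n : ℕ) (f : MvPolynomial (Fin n) ℂ), f.totalDegree ≠ 0 → constantCoeff f = 0 →
      AffTri f → GlobalSMC f) {n : ℕ} (f : MvPolynomial (Fin n) ℂ) (hf : f.totalDegree ≠ 0)
    (hf0 : constantCoeff f = 0) : GlobalSMC f := by
  intro s₀ hs b hb
  by_contra hne
  obtain ⟨c, rfl⟩ := factor hf hb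
  have hne' := hne
  rw [Polynomial.eval_mul] at hne'
  have hc := right_ne_zero_of_mul hne'
  have hs1 : s₀ ≠ -1 := by
    rintro rfl
    apply left_ne_zero_of_mul hne'
    simp
  obtain ⟨κ, hκ⟩ := exists_chain f
  obtain ⟨m, hm1, hm2⟩ : ∃ m : ℕ, κ ≤ m ∧ s₀ + 1 < m := by
    obtain ⟨m, hm⟩ := exists_nat_gt (s₀ + 1)
    refine ⟨max κ m, le_max_left _ _, lt_of_lt_of_le hm ?_⟩
    exact_mod_cast le_max_right _ _
  have key : ∀ j : ℕ, m ≤ j → zetaG (itr f j) (Witr Set.univ j) {a | a ≠ 0} ∈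
      ratRing ℂ (Av (s₀ - j)) := by
    intro j hj
    obtain ⟨M, G, ψ, hM, hψ, hT, h0⟩ := hκ j (hm1.trans hj)
    have hsj : s₀ + 1 < (j : ℚ) := lt_of_lt_of_le hm2 (by exact_mod_cast hj)
    have hG : G.totalDegree ≠ 0 := by
      rw [← hψ]
      exact deg_iso ψ (itr_deg hf j)
    have h1 := h M G hG (by rw [h0, hf0]) hT (s₀ - j)
    have h2 : ¬ IsPole (zetaOrd G Set.univ) (s₀ - j) := by
      intro hp
      have h3 := h1 hp _ (by
        rw [← hψ]
        exact Pool.Agent.W206.CU.isBFunction_iso ψ (b_itr hf hb j))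
      exact eval_comp_aux hc hsj h3
    rw [not_pole_iff] at h2
    have h3 := zeta_iso Pool.Agent.Z864.MS.three hM ψ (itr f j)
      (W := Witr Set.univ j) (constr_Witr Constr.univ j) (ce_good good_units)
    rw [← h3, hψ]
    have h4 : {w : Pt ℂ (Fin M) | (fun i => aeval w (ψ (X i))) ∈
        Witr (K := ℂ) (Set.univ : Set (Pt ℂ (Fin n))) j} = Set.univ := by
      rw [Witr_univ]
      simp
    rw [h4]
    exact h2
  have h5 := descend_reg f (W := Set.univ) Constr.univ good_units hs1 m (key m le_rfl)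
    (key (m + 1) (Nat.le_succ m))
  rw [← not_pole_iff] at h5
  exact h5 hs

/-- **The global strong monodromy conjecture is equivalent to its case of the polynomials of degree
at most one in each of three groups of variables.** -/
theorem global_equiv :
    (∀ (n : ℕ) (f : MvPolynomial (Fin n) ℂ), f.totalDegree ≠ 0 → constantCoeff f = 0 →
      GlobalSMC f) ↔
    (∀ (n : ℕ) (f : MvPolynomial (Fin n) ℂ), f.totalDegree ≠ 0 → constantCoeff f = 0 →
      AffTri f → GlobalSMC f) :=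
  ⟨fun h _ f hf h0 _ => h _ f hf h0, fun h _ f hf h0 => global_transfer h f hf h0⟩

end Pool.Agent.Q59.TR
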