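import Pool.Agent.Q59.TR.Loc

/-!
# The local strong monodromy conjecture and the chain
-/

set_option autoImplicit false

namespace Pool.Agent.Q59.TR

open MvPolynomial Pool.Agent.H628R4.TP Pool.Agent.W428.MOT
open Pool.Agent.Y229.PS (IsFormalBFunction formal_of_local local_of_formal Becomes becomes_local
  stabP)
open Pool.Agent.Y229.RE (stab)
open Pool.Agent.Y229.GL (IsCoord)
open Pool.Agent.Y229.MS (addyz itr Witr Wyz constr_Witr constr_Wyz zeta_iso ce_good fst'
  zeta_of_fst descend')
open Pool.Agent.W375.MG (JetG zetaG Good ratRing_mono zetaOrd IsPole zetaOrd_eq good_units)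

/-- `f + ∑ y_i z_i` as a formal power series -/
theorem becomes_self {n : ℕ} (f : MvPolynomial (Fin n) ℂ) (k : ℕ) :
    Becomes (f : MvPowerSeries (Fin n) ℂ) k (stab f k) := by
  refine ⟨fun i => MvPowerSeries.X i, 1, ?_, fun i => MvPowerSeries.constantCoeff_X i,
    isUnit_one, ?_⟩
  · unfold IsCoord
    have : (Matrix.of fun i j : Fin (n + (k + k)) => MvPowerSeries.coeff (Finsupp.single j 1)
        (MvPowerSeries.X i : MvPowerSeries (Fin (n + (k + k))) ℂ)) = 1 := by
      classical
      ext i j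
      rw [Matrix.of_apply, MvPowerSeries.coeff_X, Matrix.one_apply]
      by_cases h : i = j
      · subst h
        simp
      · rw [if_neg h, if_neg]
        intro h2
        exact h (Finsupp.single_left_injective one_ne_zero h2).symm
    rw [this, Matrix.det_one]
    exact one_ne_zero
  · rw [one_mul]
    have h1 : stabP (f : MvPowerSeries (Fin n) ℂ) k = (stab f k : MvPowerSeries _ ℂ) := by
      unfold stabP stab
      rw [MvPolynomial.coe_add, MvPowerSeries.rename_coe]
      congr 1
      rw [← MvPolynomial.coeToMvPowerSeries.ringHom_apply, map_sum]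
      refine Finset.sum_congr rfl fun i _ => ?_
      rw [map_mul, MvPolynomial.coeToMvPowerSeries.ringHom_apply,
        MvPolynomial.coeToMvPowerSeries.ringHom_apply, MvPolynomial.coe_X, MvPolynomial.coe_X]
    rw [h1, MvPowerSeries.subst_coe]
    have h2 : (aeval (fun i => (MvPowerSeries.X i : MvPowerSeries (Fin (n + (k + k))) ℂ)) :
        MvPolynomial (Fin (n + (k + k))) ℂ →ₐ[ℂ] MvPowerSeries (Fin (n + (k + k))) ℂ) =
        MvPolynomial.coeToMvPowerSeries.algHom (R := ℂ) (σ := Fin (n + (k + k))) ℂ := by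
      apply MvPolynomial.algHom_ext
      intro i
      rw [aeval_X]
      simp
    rw [h2]
    simp

theorem coe_ne {n : ℕ} {p : MvPolynomial (Fin n) ℂ} (hp : p ≠ 0) :
    (p : MvPowerSeries (Fin n) ℂ) ≠ 0 := by
  intro h
  exact hp (MvPolynomial.coe_injective _ _ (by rw [h, MvPolynomial.coe_zero]))

theorem ne_zero_of_deg {n : ℕ} {p : MvPolynomial (Fin n) ℂ} (hp : p.totalDegree ≠ 0) : p ≠ 0 := by
  rintro rfl
  exact hp totalDegree_zero

theorem factorL {n : ℕ} {f : MvPolynomial (Fin n) ℂ} (hf : f.totalDegree ≠ 0)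
    (hf0 : constantCoeff f = 0) {b : Polynomial ℂ} (hb : IsLocalBFunction f b) :
    ∃ c : Polynomial ℂ, b = (Polynomial.X + 1) * c := by
  have h1 := (becomes_local (coe_ne (ne_zero_of_deg hf))
    (by rw [Pool.Agent.Y229.PS.const_coe, hf0]) (formal_of_local hb) (becomes_self f 0)).1
  exact Pool.Agent.Y229.PS.exists_factor h1

theorem bL_addyz {M : ℕ} {F : MvPolynomial (Fin M) ℂ} (hF : F.totalDegree ≠ 0)
    (hF0 : constantCoeff F = 0) {c : Polynomial ℂ}
    (h : IsLocalBFunction F ((Polynomial.X + 1) * c)) : IsLocalBFunction (addyz F)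
      ((Polynomial.X + 1) * c.comp (Polynomial.X + Polynomial.C ((1 : ℕ) : ℂ))) := by
  have hst : stab F 1 = addyz F := by
    unfold stab addyz
    rw [Fin.sum_univ_one]
    rfl
  have h5 := (becomes_local (coe_ne (ne_zero_of_deg hF))
    (by rw [Pool.Agent.Y229.PS.const_coe, hF0]) (formal_of_local h) (becomes_self F 1)).2 _ rfl
  rw [hst] at h5
  exact h5

/-- the local functional equations along the chain -/
theorem bL_itr {n : ℕ} {f : MvPolynomial (Fin n) ℂ} (hf : f.totalDegree ≠ 0)
    (hf0 : constantCoeff f = 0) {c : Polynomial ℂ}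
    (h : IsLocalBFunction f ((Polynomial.X + 1) * c)) : ∀ m : ℕ,
    IsLocalBFunction (itr f m)
      ((Polynomial.X + 1) * c.comp (Polynomial.X + Polynomial.C (m : ℂ)))
  | 0 => by
    rw [Nat.cast_zero, Polynomial.C_0, add_zero, Polynomial.comp_X]
    exact h
  | m + 1 => by
    have h1 := bL_addyz (itr_deg hf m) (by rw [const_itr, hf0]) (bL_itr hf hf0 h m)
    have h2 : (c.comp (Polynomial.X + Polynomial.C (m : ℂ))).comp
        (Polynomial.X + Polynomial.C ((1 : ℕ) : ℂ)) =
        c.comp (Polynomial.X + Polynomial.C ((m + 1 : ℕ) : ℂ)) := by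
      rw [Polynomial.comp_assoc]
      congr 1
      rw [Polynomial.add_comp, Polynomial.X_comp, Polynomial.C_comp, add_assoc,
        ← Polynomial.C_add]
      congr 2
      push_cast
      ring
    rw [h2] at h1
    exact h1

/-- The strong monodromy conjecture (local) for the motivic zeta function of `f` at the origin:
every pole is a root of the local Bernstein-Sato polynomial. -/
def LocalSMC {n : ℕ} (f : MvPolynomial (Fin n) ℂ) : Prop :=
  ∀ s₀ : ℚ, IsPole (zetaOrd f {0}) s₀ →
    ∀ b : Polynomial ℂ, IsLocalBFunction f b → b.eval (s₀ : ℂ) = 0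

/-- the origin under an isomorphism which fixes it -/
theorem pull_zero {a b : ℕ} (ψ : MvPolynomial (Fin a) ℂ ≃ₐ[ℂ] MvPolynomial (Fin b) ℂ)
    (h0 : ∀ i, constantCoeff (ψ (X i)) = 0) :
    {w : Pt ℂ (Fin b) | (fun i => aeval w (ψ (X i))) ∈ ({0} : Set (Pt ℂ (Fin a)))} = {0} := by
  have hz : ∀ {a b : ℕ} (ψ : MvPolynomial (Fin a) ℂ ≃ₐ[ℂ] MvPolynomial (Fin b) ℂ),
      (∀ i, constantCoeff (ψ (X i)) = 0) → ∀ i,
      aeval (0 : Pt ℂ (Fin b)) (ψ (X i)) = 0 := by
    intro a b ψ h0 i
    have h1 : ∀ q : MvPolynomial (Fin b) ℂ, aeval (0 : Pt ℂ (Fin b)) q =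
        algebraMap ℂ (AlgebraicClosure ℂ) (constantCoeff q) := by
      intro q
      induction q using MvPolynomial.induction_on with
      | C c => rw [algHom_C, constantCoeff_C]
      | add f g hf hg => rw [map_add, map_add, map_add, hf, hg]
      | mul_X f i hf => rw [map_mul, map_mul, map_mul, hf, aeval_X, constantCoeff_X, map_zero,
          Pi.zero_apply]
    rw [h1, h0, map_zero]
  have hcmp : ∀ (w : Pt ℂ (Fin b)) (g : MvPolynomial (Fin a) ℂ),
      aeval (fun i => aeval w (ψ (X i))) g = aeval w (ψ g) := by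
    intro w g
    exact Pool.Agent.Z864.MS.aeval_cmp
      (ψ : MvPolynomial (Fin a) ℂ →ₐ[ℂ] MvPolynomial (Fin b) ℂ) w g
  ext w
  rw [Set.mem_ofPred_eq, Set.mem_singleton_iff, Set.mem_singleton_iff]
  constructor
  · intro h
    funext j
    have h1 := hcmp w (ψ.symm (X j))
    rw [h, AlgEquiv.apply_symm_apply, aeval_X] at h1
    rw [← h1]
    exact hz ψ.symm (symm_zero ψ h0) j
  · rintro rfl
    funext i
    exact hz ψ h0 i

/-- **The transfer**, local version. -/
theorem local_transfer
    (h : ∀ (n : ℕ) (f : MvPolynomial (Fin n) ℂ), f.totalDegree ≠ 0 → constantCoeff f = 0 →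
      AffTri f → LocalSMC f) {n : ℕ} (f : MvPolynomial (Fin n) ℂ) (hf : f.totalDegree ≠ 0)
    (hf0 : constantCoeff f = 0) : LocalSMC f := by
  intro s₀ hs b hb
  by_contra hne
  obtain ⟨c, rfl⟩ := factorL hf hf0 hb
  have hne' := hne
  rw [Polynomial.eval_mul] at hne'
  have hc := right_ne_zero_of_mul hne'
  have hs1 : s₀ ≠ -1 := by
    rintro rfl
    apply left_ne_zero_of_mul hne'
    simp
  obtain ⟨κ, hκ⟩ := exists_chain0 f
  obtain ⟨m, hm1, hm2⟩ : ∃ m : ℕ, κ ≤ m ∧ s₀ + 1 < m := by
    obtain ⟨m, hm⟩ := exists_nat_gt (s₀ + 1)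
    refine ⟨max κ m, le_max_left _ _, lt_of_lt_of_le hm ?_⟩
    exact_mod_cast le_max_right _ _
  have key : ∀ j : ℕ, m ≤ j → zetaG (itr f j) (Witr {0} j) {a | a ≠ 0} ∈
      ratRing ℂ (Av (s₀ - j)) := by
    intro j hj
    obtain ⟨M, G, ψ, hM, hψ, hψ0, hT, h0⟩ := hκ j (hm1.trans hj)
    have hsj : s₀ + 1 < (j : ℚ) := lt_of_lt_of_le hm2 (by exact_mod_cast hj)
    have hG : G.totalDegree ≠ 0 := by
      rw [← hψ]
      exact deg_iso ψ (itr_deg hf j)
    have h1 := h M G hG (by rw [h0, hf0]) hT (s₀ - j)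
    have h2 : ¬ IsPole (zetaOrd G {0}) (s₀ - j) := by
      intro hp
      have h3 := h1 hp _ (by
        rw [← hψ]
        exact isLocalB_iso hM ψ hψ0 (bL_itr hf hf0 hb j))
      exact eval_comp_aux hc hsj h3
    rw [not_pole_iff] at h2
    have h3 := zeta_iso Pool.Agent.Z864.MS.three hM ψ (itr f j)
      (W := {0}) constr_zero (ce_good good_units)
    rw [pull_zero ψ hψ0, hψ] at h3
    rw [h3] at h2
    obtain ⟨Z, hZ, hZe⟩ := loc_split f (ce_good good_units) j
    rw [hZe]
    refine (ratRing ℂ _).add_mem h2 ?_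
    have h4 := geo_fst hZ
    refine ratRing_mono ?_ h4
    rintro p (rfl : p = (-1, 1))
    refine ⟨one_pos, ?_⟩
    push_cast
    intro h5
    have h6 : s₀ + 1 = (j : ℚ) := by linarith
    rw [h6] at hsj
    exact lt_irrefl _ hsj
  have h5 := descend_reg f (W := {0}) constr_zero good_units hs1 m (key m le_rfl)
    (key (m + 1) (Nat.le_succ m))
  rw [← not_pole_iff] at h5
  exact h5 hs

/-- **The local strong monodromy conjecture is equivalent to its case of the polynomials of degree
at most one in each of three groups of variables.** -/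
theorem local_equiv :
    (∀ (n : ℕ) (f : MvPolynomial (Fin n) ℂ), f.totalDegree ≠ 0 → constantCoeff f = 0 →
      LocalSMC f) ↔
    (∀ (n : ℕ) (f : MvPolynomial (Fin n) ℂ), f.totalDegree ≠ 0 → constantCoeff f = 0 →
      AffTri f → LocalSMC f) :=
  ⟨fun h _ f hf h0 _ => h _ f hf h0, fun h _ f hf h0 => local_transfer h f hf h0⟩

end Pool.Agent.Q59.TR
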