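import Pool.Agent.Q59.TR.Bil

/-!
# The `p`-adic strong monodromy conjecture: reduction to trilinear polynomials
-/

set_option autoImplicit false

namespace Pool.Agent.Q59.TR.Pa

open MvPolynomial Pool.Agent.W206.CU Pool.Agent.Y229.PA
open Pool.Agent.H628R4.TP (IsBFunction)
open Pool.Agent.W427.SMC (igusaZeta)

/-- **Every polynomial becomes trilinear**, after any large enough number of moves. -/
theorem universalN {n : ℕ} (f : MvPolynomial (Fin n) ℤ) (hf : f ≠ 0) (N : ℕ) :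
    ∃ (κ m k : ℕ) (q : Fin k → MvPolynomial (Fin m ⊕ Fin m) ℤ)
      (φ : MvPolynomial ((Fin n ⊕ Unit) ⊕ (Fin κ ⊕ Fin κ)) ℤ ≃ₐ[ℤ]
        MvPolynomial ((Fin m ⊕ Fin m) ⊕ Fin k) ℤ),
      N ≤ κ ∧ IsBilinear q ∧ φ (stabS (uf f) κ) = triSum q := by
  obtain ⟨n', k, κ, q, hκ, h1, h2, φ, hφ⟩ :=
    (isStab_chain (uf f)).main f (isStab_zero (uf f)) N
  have hq : IsQuadrics q := by
    refine ⟨?_, h1, h2⟩
    rintro rfl
    have h3 := (follow_stab hf φ).2.2 0
    apply h3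
    rw [hφ, map_zero]
    unfold quadSum
    simp
  have h4 : IsStab (uf f) (Fin n' ⊕ Fin k) κ (quadSum q) := ⟨φ, hφ⟩
  obtain ⟨φ', h5⟩ := chain_bil (isStab_chain (uf f)) h4
  exact ⟨κ + n', n', k + n', bilQ q, φ', by omega, isBilinear_bilQ hq, h5⟩

/-- the arrangement of the variables in one list -/
def fl (m k : ℕ) : (Fin m ⊕ Fin m) ⊕ Fin k ≃ Fin (m + m + k) :=
  (Equiv.sumCongr finSumFinEquiv (Equiv.refl _)).trans finSumFinEquiv

/-! ### orders of the poles, integer coefficients -/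

theorem strongAt_of_fin {m k : ℕ} {p : ℕ} [Fact p.Prime]
    (h : ∀ (n : ℕ) (f : MvPolynomial (Fin n) ℤ), f ≠ 0 → StrongAt p f)
    (q : Fin k → MvPolynomial (Fin m ⊕ Fin m) ℤ) (hq : IsBilinear q) :
    StrongAt p (triSum q) := by
  refine strongAt_rename (fl m k) p (h _ _ ?_)
  rw [Ne, EmbeddingLike.map_eq_zero_iff]
  rw [← C_0]
  exact triSum_ne_zero hq.1 0

/-- orders, for one prime -/
theorem strongAt_iff (p : ℕ) [Fact p.Prime] :
    (∀ (n : ℕ) (f : MvPolynomial (Fin n) ℤ), f ≠ 0 → StrongAt p f) ↔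
      ∀ (m k : ℕ) (q : Fin k → MvPolynomial (Fin m ⊕ Fin m) ℤ), IsBilinear q →
        StrongAt p (triSum q) := by
  refine ⟨fun h m k q hq => strongAt_of_fin h q hq, fun h n f hf => ?_⟩
  obtain ⟨κ, m, k, q, φ, h1, h2, h3⟩ := universalN f hf 1
  refine transfer hf h1 φ p ?_
  rw [h3]
  exact h m k q h2

/-- orders, for almost all primes -/
theorem strong_iff :
    (∀ (n : ℕ) (f : MvPolynomial (Fin n) ℤ), f ≠ 0 → Strong f) ↔
      ∀ (m k : ℕ) (q : Fin k → MvPolynomial (Fin m ⊕ Fin m) ℤ), IsBilinear q →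
        Strong (triSum q) := by
  refine ⟨fun h m k q hq => ?_, fun h n f hf => ?_⟩
  · obtain ⟨S, hS⟩ := h _ (renameEquiv ℤ (fl m k) (triSum q)) (by
      rw [Ne, EmbeddingLike.map_eq_zero_iff, ← C_0]
      exact triSum_ne_zero hq.1 0)
    exact ⟨S, fun p _ hp => strongAt_rename (fl m k) p (hS p hp)⟩
  · obtain ⟨κ, m, k, q, φ, h1, h2, h3⟩ := universalN f hf 1
    obtain ⟨S, hS⟩ := h m k q h2
    refine ⟨S, fun p _ hp => transfer hf h1 φ p ?_⟩
    rw [h3]
    exact hS p hp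

/-! ### poles, rational coefficients -/

/-- The real part of every pole of the zeta function of `f` is a root of every `b` with
`b(s) f ^ s = P(s) f ^ (s + 1)`. -/
def PolesQ (p : ℕ) [Fact p.Prime] {V : Type} [Fintype V] (f : MvPolynomial V ℚ) : Prop :=
  ∀ Z : ℂ → ℂ, MeromorphicOn Z Set.univ → (∀ s : ℂ, 0 < s.re → Z s = igusaZetaQ p f s) →
    ∀ s₀ : ℂ, meromorphicOrderAt Z s₀ < 0 → ∀ b : Polynomial ℂ,
      IsBFunction (map (algebraMap ℚ ℂ) f) b → b.eval ((s₀.re : ℝ) : ℂ) = 0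

/-- the same for integer coefficients -/
def PolesZ (p : ℕ) [Fact p.Prime] {V : Type} [Fintype V] (F : MvPolynomial V ℤ) : Prop :=
  ∀ Z : ℂ → ℂ, MeromorphicOn Z Set.univ → (∀ s : ℂ, 0 < s.re → Z s = igusaZeta p F s) →
    ∀ s₀ : ℂ, meromorphicOrderAt Z s₀ < 0 → ∀ b : Polynomial ℂ,
      IsBFunction (toC F) b → b.eval ((s₀.re : ℝ) : ℂ) = 0

theorem polesQ_map (p : ℕ) [hp : Fact p.Prime] {V : Type} [Fintype V] (F : MvPolynomial V ℤ) :
    PolesQ p (map (Int.castRingHom ℚ) F) ↔ PolesZ p F := by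
  have h1 : ∀ s, igusaZetaQ p (map (Int.castRingHom ℚ) F) s = igusaZeta p F s := by
    intro s
    refine igusaZetaQ_eq p (N := 1) (F := F) ?_ ?_ s
    · simp
    · exact hp.out.one_lt.ne' ∘ Nat.dvd_one.1
  unfold PolesQ PolesZ
  simp only [h1, toC_eq]

theorem polesQ_of_polesZ (p : ℕ) [hp : Fact p.Prime] {V : Type} [Fintype V]
    {f : MvPolynomial V ℚ} {F : MvPolynomial V ℤ} {N : ℕ}
    (h : map (Int.castRingHom ℚ) F = C (N : ℚ) * f) (hN : ¬ p ∣ N) (hF : PolesZ p F) :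
    PolesQ p f := by
  intro Z hZ hZp s₀ hs₀ b hb
  refine hF Z hZ (fun s hs => ?_) s₀ hs₀ b ?_
  · rw [hZp s hs, igusaZetaQ_eq p h hN]
  · have hN0 : (N : ℂ) ≠ 0 := by
      rw [Nat.cast_ne_zero]
      rintro rfl
      exact hN (dvd_zero p)
    rw [toC_eq, h, map_mul, map_C]
    have h2 := isBFunction_smul hN0 hb
    simpa using h2

theorem follow_poles {n : ℕ} {f : MvPolynomial (Fin n) ℤ} {V : Type} [Fintype V] {κ : ℕ}
    {F : MvPolynomial V ℤ} (hfol : Follow f V κ F) (hκ : 1 ≤ κ) (p : ℕ) [hp : Fact p.Prime]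
    (h : PolesZ p F) : PolesZ p f := by
  intro Z hZ hZp s₀ hs₀ b hb
  have hre := re_neg_of_pole p f hZp hs₀
  obtain ⟨W, hW, hWp, hWo⟩ := pole_transfer_igusa p hfol hκ hZ hZp hs₀
  have h1 := h W hW hWp (s₀ - κ) (by rwa [hWo]) _ (isBFunction_of_bs1 (hfol.1 b hb))
  have h2 : (((s₀ - κ).re : ℝ) : ℂ) = ((s₀.re : ℝ) : ℂ) - κ := by
    rw [Complex.sub_re, Complex.natCast_re]
    push_cast
    rfl
  rw [h2, Polynomial.eval_mul, Polynomial.eval_comp] at h1
  simp only [Polynomial.eval_add, Polynomial.eval_X, Polynomial.eval_one, Polynomial.eval_C,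
    sub_add_cancel] at h1
  rcases mul_eq_zero.1 h1 with h3 | h3
  · exfalso
    have hκ' : (1 : ℝ) ≤ κ := by exact_mod_cast hκ
    have h4 := congrArg Complex.re h3
    simp only [Complex.add_re, Complex.sub_re, Complex.ofReal_re, Complex.natCast_re,
      Complex.one_re, Complex.zero_re] at h4
    linarith
  · exact h3

theorem polesZ_rename {V W : Type} [Fintype V] [Fintype W] (e : V ≃ W) (p : ℕ)
    [hp : Fact p.Prime] {F : MvPolynomial V ℤ} (h : PolesZ p (renameEquiv ℤ e F)) :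
    PolesZ p F := by
  intro Z hZ hZp s₀ hs₀ b hb
  refine h Z hZ (fun s hs => ?_) s₀ hs₀ b ?_
  · rw [hZp s hs, igusa_iso p (renameEquiv ℤ e) F hs]
  · rw [toC, map_renameEquiv]
    exact isBFunction_iso _ hb

/-- poles, for one prime, integer coefficients -/
theorem polesZ_iff (p : ℕ) [Fact p.Prime] :
    (∀ (n : ℕ) (f : MvPolynomial (Fin n) ℤ), f ≠ 0 → PolesZ p f) ↔
      ∀ (m k : ℕ) (q : Fin k → MvPolynomial (Fin m ⊕ Fin m) ℤ), IsBilinear q →
        PolesZ p (triSum q) := by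
  refine ⟨fun h m k q hq => ?_, fun h n f hf => ?_⟩
  · refine polesZ_rename (fl m k) p (h _ _ ?_)
    rw [Ne, EmbeddingLike.map_eq_zero_iff, ← C_0]
    exact triSum_ne_zero hq.1 0
  · obtain ⟨κ, m, k, q, φ, h1, h2, h3⟩ := universalN f hf 1
    refine follow_poles (follow_stab hf φ) h1 p ?_
    rw [h3]
    exact h m k q h2

theorem map_fl {m k : ℕ} (F : MvPolynomial ((Fin m ⊕ Fin m) ⊕ Fin k) ℤ) :
    renameEquiv ℚ (fl m k) (map (Int.castRingHom ℚ) F) =
      map (Int.castRingHom ℚ) (renameEquiv ℤ (fl m k) F) := by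
  rw [renameEquiv_apply, renameEquiv_apply, map_rename]

/-- poles, for almost all primes, rational coefficients -/
theorem polesQ_iff :
    (∀ (n : ℕ) (f : MvPolynomial (Fin n) ℚ), f ≠ 0 → ∃ S : Finset ℕ,
      ∀ (p : ℕ) [Fact p.Prime], p ∉ S → PolesQ p f) ↔
      ∀ (m k : ℕ) (q : Fin k → MvPolynomial (Fin m ⊕ Fin m) ℤ), IsBilinear q →
        ∃ S : Finset ℕ, ∀ (p : ℕ) [Fact p.Prime], p ∉ S →
          PolesQ p (map (Int.castRingHom ℚ) (triSum q)) := by
  refine ⟨fun h m k q hq => ?_, fun h n f hf0 => ?_⟩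
  · obtain ⟨S, hS⟩ := h _ (renameEquiv ℚ (fl m k) (map (Int.castRingHom ℚ) (triSum q))) (by
      rw [Ne, EmbeddingLike.map_eq_zero_iff, map_eq_zero_iff _ (map_injective _
        Int.cast_injective), ← C_0]
      exact triSum_ne_zero hq.1 0)
    refine ⟨S, fun p _ hp => ?_⟩
    have h1 := hS p hp
    rw [map_fl, polesQ_map] at h1
    rw [polesQ_map]
    exact polesZ_rename (fl m k) p h1
  · obtain ⟨N, F, hN, hF⟩ := exists_integral f
    have hf : F ≠ 0 := by
      rintro rfl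
      rw [map_zero] at hF
      have h1 : (C (N : ℚ) : MvPolynomial (Fin n) ℚ) ≠ 0 := by
        rw [Ne, C_eq_zero]
        exact_mod_cast hN.ne'
      exact hf0 ((mul_eq_zero.1 hF.symm).resolve_left h1)
    obtain ⟨κ, m, k, q, φ, h1, h2, h3⟩ := universalN F hf 1
    obtain ⟨S, hS⟩ := h m k q h2
    refine ⟨S ∪ N.primeFactors, fun p _ hp => ?_⟩
    rw [Finset.mem_union, not_or] at hp
    have hpN : ¬ p ∣ N := fun h4 => hp.2 (Nat.mem_primeFactors.2 ⟨Fact.out, h4, hN.ne'⟩)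
    refine polesQ_of_polesZ p hF hpN ?_
    refine follow_poles (follow_stab hf φ) h1 p ?_
    rw [h3]
    have h5 := hS p hp.1
    rwa [polesQ_map] at h5

/-! ### Poincaré series -/

/-- For every pole `T₀` of the Poincaré series, `-log |T₀| / log p` is a root of every `b` with
`b(s) f ^ s = P(s) f ^ (s + 1)`. -/
def DenefAt (p : ℕ) {V : Type} (F : MvPolynomial V ℤ) : Prop :=
  ∀ (T₀ : ℂ) (r : ℕ), 0 < r → IsPoleOfOrder (poincare p F) T₀ r → ∀ b : Polynomial ℂ,
    IsBFunction (toC F) b → b.eval ((-Real.log ‖T₀‖ / Real.log p : ℝ) : ℂ) = 0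

theorem follow_denef {n : ℕ} {f : MvPolynomial (Fin n) ℤ} {V : Type} [Finite V] {κ : ℕ}
    {F : MvPolynomial V ℤ} (hfol : Follow f V κ F) (p : ℕ) [hp : Fact p.Prime]
    {T₀ : ℂ} {r : ℕ} (hr : 0 < r) (hT : IsPoleOfOrder (poincare p f) T₀ r)
    (hκ : -Real.log ‖T₀‖ / Real.log p + 1 < κ) (h : DenefAt p F) {b : Polynomial ℂ}
    (hb : IsBFunction (toC f) b) : b.eval ((-Real.log ‖T₀‖ / Real.log p : ℝ) : ℂ) = 0 := by
  have hp1 : (1 : ℝ) < p := by exact_mod_cast hp.out.one_lt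
  have hp0 : (p : ℂ) ≠ 0 := by exact_mod_cast hp.out.ne_zero
  have hT0 := pole_ne_zero hr hT
  obtain ⟨r', hr', h1⟩ := pole_transfer (inv_ne_zero hp0) (pow_ne_zero κ (inv_ne_zero hp0))
    (d := 1 - (p : ℂ)⁻¹) (by
      rw [sub_ne_zero]
      intro h2
      have h3 : (p : ℂ) = 1 := by
        rw [← inv_inv (p : ℂ), ← h2, inv_one]
      have h4 : (p : ℝ) = 1 := by exact_mod_cast h3
      linarith) (poincare_eq hfol p) hr hT
  have h2 := h _ r' (by omega) h1 _ (isBFunction_of_bs1 (hfol.1 b hb))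
  have h3 : -Real.log ‖T₀ / ((p : ℂ)⁻¹) ^ κ‖ / Real.log p =
      -Real.log ‖T₀‖ / Real.log p - κ := by
    have hlog : Real.log p ≠ 0 := (Real.log_pos hp1).ne'
    rw [norm_div, norm_pow, norm_inv, Complex.norm_natCast, inv_pow, div_inv_eq_mul,
      Real.log_mul (norm_ne_zero_iff.2 hT0) (by positivity), Real.log_pow]
    field_simp
    ring
  rw [h3] at h2
  rw [Polynomial.eval_mul, Polynomial.eval_comp] at h2
  simp only [Polynomial.eval_add, Polynomial.eval_X, Polynomial.eval_one,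
    Polynomial.eval_C] at h2
  rcases mul_eq_zero.1 h2 with h4 | h4
  · exfalso
    have h5 := congrArg Complex.re h4
    simp only [Complex.add_re, Complex.ofReal_re, Complex.one_re, Complex.zero_re] at h5
    linarith
  · rw [← h4]
    congr 1
    push_cast
    ring

theorem denef_rename {V W : Type} [Finite V] [Finite W] (e : V ≃ W) (p : ℕ)
    {F : MvPolynomial V ℤ} (h : DenefAt p (renameEquiv ℤ e F)) : DenefAt p F := by
  intro T₀ r hr hT b hb
  refine h T₀ r hr ?_ b ?_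
  · rwa [poincare_iso]
  · rw [toC, map_renameEquiv]
    exact isBFunction_iso _ hb

/-- Denef's question, for one prime -/
theorem denef_iff (p : ℕ) [Fact p.Prime] :
    (∀ (n : ℕ) (f : MvPolynomial (Fin n) ℤ), f.totalDegree ≠ 0 → DenefAt p f) ↔
      ∀ (m k : ℕ) (q : Fin k → MvPolynomial (Fin m ⊕ Fin m) ℤ), IsBilinear q →
        DenefAt p (triSum q) := by
  refine ⟨fun h m k q hq => ?_, fun h n f hf => ?_⟩
  · refine denef_rename (fl m k) p (h _ _ ?_)
    intro h1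
    rw [totalDegree_eq_zero_iff_eq_C] at h1
    have h2 := congrArg (renameEquiv ℤ (fl m k)).symm h1
    rw [AlgEquiv.symm_apply_apply, ← algebraMap_eq, AlgEquiv.commutes, algebraMap_eq] at h2
    exact triSum_ne_zero hq.1 _ h2
  · have hf0 : f ≠ 0 := by
      rintro rfl
      exact hf totalDegree_zero
    intro T₀ r hr hT b hb
    obtain ⟨N, hN⟩ := exists_nat_gt (-Real.log ‖T₀‖ / Real.log p + 1)
    obtain ⟨κ, m, k, q, φ, h1, h2, h3⟩ := universalN f hf0 N
    refine follow_denef (follow_stab hf0 φ) p hr hT (hN.trans_le (by exact_mod_cast h1)) ?_ hb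
    rw [h3]
    exact h m k q h2

end Pool.Agent.Q59.TR.Pa
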