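import Pool.Agent.Q59.TR.MotL
import Pool.Agent.TH192.MU.Spec

/-!
# Topological zeta functions and the chain `f, f + y z, …`
-/

set_option autoImplicit false

namespace Pool.Agent.Q59.TR

open MvPolynomial Pool.Agent.W428.MOT
open Pool.Agent.W375.MG (JetG zetaG Good ratRing_mono good_units)
open Pool.Agent.Y229.MS
open Pool.Agent.TH192.MU (SpecAt IsTopZeta specAt_add specAt_mul specAt_C specAt_X specAt_geo)

/-! ### The series -/

section ser

variable {K : Type} [Field K] {n : ℕ}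

theorem phi_eq {R : Type} [CommRing R] (M : Meas K R) (Y : R) (hL : M.L * Y = 1)
    (f : MvPolynomial (Fin n) K) {W : Set (Pt K (Fin n))} (hW : Constr W) :
    phiS M Y f W * (1 - PowerSeries.X) =
      PowerSeries.C (PowerSeries.coeff 0 (phiS M Y f W)) -
        PowerSeries.X * zs M Y f W {a | a ≠ 0} := by
  have h1 : ∀ N, PowerSeries.coeff N (phiS M Y f W) =
      PowerSeries.coeff (N + 1) (phiS M Y f W) +
        PowerSeries.coeff N (zs M Y f W {a | a ≠ 0}) := by
    intro N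
    unfold zs phiS
    rw [PowerSeries.coeff_mk, PowerSeries.coeff_mk, PowerSeries.coeff_mk,
      phi_succ Pool.Agent.Y812.MS.two M Y hL f W hW N, ← add_mul]
    congr 1
    rw [← M.add _ _ (Pool.Agent.Z864.MS.constr_JetE f hW ce_zero N)
      (Pool.Agent.Z864.MS.constr_JetE f hW (ce_good good_units) N)]
    · congr 1
      ext z
      simp only [JetG, Tl, Set.mem_union, Set.mem_ofPred_eq, Set.mem_singleton_iff]
      tauto
    · rw [Set.disjoint_left]
      intro z hz1 hz2
      exact hz2.2.2 hz1.2.2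
  ext N
  rw [mul_sub, mul_one, map_sub, map_sub]
  rcases N with _ | N
  · simp
  · rw [PowerSeries.coeff_succ_mul_X, PowerSeries.coeff_succ_X_mul, PowerSeries.coeff_C,
      if_neg (by omega), h1 N]
    ring

/-- the factor `(𝕃 - 1) / (1 - 𝕃⁻¹ T)` -/
noncomputable def GG (K : Type) [Field K] : PowerSeries (MK K) :=
  PowerSeries.C (((Lu K : (MK K)ˣ) : MK K) - 1) * geo K (-1) 1

theorem GG_mul : (1 - PowerSeries.C (((Lu K) ^ (-1 : ℤ) : (MK K)ˣ) : MK K) *
    PowerSeries.X ^ (1 : ℤ).toNat) * GG K = PowerSeries.C (((Lu K : (MK K)ˣ) : MK K) - 1) := by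
  unfold GG
  rw [mul_left_comm, Pool.Agent.W63.MTFin.geo_mul (K := K) (-1) 1 one_pos, mul_one]

/-- the number of the origins -/
noncomputable def ph0 [CharZero K] (f : MvPolynomial (Fin n) K) (W : Set (Pt K (Fin n))) : MK K :=
  PowerSeries.coeff 0 (phiS (exists_meas K).choose (((Lu K)⁻¹ : (MK K)ˣ) : MK K) f W)

/-- **The zeta function of `f + y z` in terms of the one of `f`.** -/
theorem series_step [CharZero K] (f : MvPolynomial (Fin n) K) {W : Set (Pt K (Fin n))}
    (hW : Constr W) :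
    zetaG (addyz f) (Wyz W) {a | a ≠ 0} =
      PowerSeries.C ((Lu K : (MK K)ˣ) : MK K) *
        PowerSeries.rescale (((Lu K)⁻¹ : (MK K)ˣ) : MK K) (zetaG f W {a | a ≠ 0}) +
      (PowerSeries.C (ph0 f W) - PowerSeries.C (((Lu K)⁻¹ : (MK K)ˣ) : MK K) * PowerSeries.X *
        PowerSeries.rescale (((Lu K)⁻¹ : (MK K)ˣ) : MK K) (zetaG f W {a | a ≠ 0})) *
        (GG K * GG K) := by
  obtain ⟨hL, hz⟩ := (exists_meas K).choose_spec
  set M := (exists_meas K).choose with hM
  have hp : ph0 f W = PowerSeries.coeff 0 (phiS M (((Lu K)⁻¹ : (MK K)ˣ) : MK K) f W) := rfl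
  set Y : MK K := (((Lu K)⁻¹ : (MK K)ˣ) : MK K) with hY
  set L : MK K := ((Lu K : (MK K)ˣ) : MK K) with hLd
  have hLY : L * Y = 1 := Units.mul_inv _
  have hML : M.L = L := by
    calc M.L = M.L * (L * Y) := by rw [hLY, mul_one]
      _ = (M.L * Y) * L := by ring
      _ = _ := by rw [hL, one_mul]
  have r1 := rel1 Pool.Agent.Y229.MS.t1 Pool.Agent.Y812.MS.two M Y hL f hW (ce_good good_units)
  have hps := psum_mul (phiS M Y f W)
  have hph := phi_eq M Y hL f hW
  rw [← hz, ← hz] at r1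
  rw [← hz, ← hp] at hph
  have hE : M.χ (Fin 1) {a | a 0 ∈ {a : AlgebraicClosure K | a ≠ 0}} = L - 1 := by
    rw [← hML]
    exact Pool.Agent.W417.MT.Free.chi_gm M
  rw [hE, hML] at r1
  set z0 := zetaG f W {a | a ≠ 0}
  set z1 := zetaG (addyz f) (Wyz W) {a | a ≠ 0}
  -- the relation without denominators
  have r2 : PowerSeries.rescale L z1 * ((1 - PowerSeries.X) * (1 - PowerSeries.X)) =
      PowerSeries.C L * z0 * ((1 - PowerSeries.X) * (1 - PowerSeries.X)) +
        PowerSeries.C (L - 1) * PowerSeries.C (L - 1) *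
          (PowerSeries.C (ph0 f W) - PowerSeries.X * z0) := by
    rw [r1, map_mul]
    linear_combination (PowerSeries.C (L - 1) * PowerSeries.C (L - 1) *
      (1 - PowerSeries.X)) * hps + (PowerSeries.C (L - 1) * PowerSeries.C (L - 1)) * hph
  have r3 := congrArg (PowerSeries.rescale Y) r2
  have h4 : PowerSeries.rescale Y (PowerSeries.rescale L z1) = z1 := by
    rw [PowerSeries.rescale_rescale, hLY, PowerSeries.rescale_one, RingHom.id_apply]
  have h5 : PowerSeries.rescale Y (1 - PowerSeries.X : PowerSeries (MK K)) =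
      1 - PowerSeries.C Y * PowerSeries.X := by
    rw [map_sub, map_one, rescale_X']
  rw [map_mul, map_mul, h4, h5, map_add, map_mul, map_mul, map_mul, map_mul, map_mul, h5,
    rescale_C', rescale_C', map_sub (PowerSeries.rescale Y) (PowerSeries.C (ph0 f W)), rescale_C',
    map_mul, rescale_X'] at r3
  have hG : (1 - PowerSeries.C Y * PowerSeries.X) * GG K = PowerSeries.C (L - 1) := by
    have := GG_mul (K := K)
    rwa [zpow_neg_one, show (1 : ℤ).toNat = 1 from rfl, pow_one] at this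
  have hg : (1 - PowerSeries.C Y * PowerSeries.X) * geo K (-1) 1 = 1 := by
    have := Pool.Agent.W63.MTFin.geo_mul (K := K) (-1) 1 one_pos
    rwa [zpow_neg_one, show (1 : ℤ).toNat = 1 from rfl, pow_one] at this
  set D := (1 - PowerSeries.C Y * PowerSeries.X : PowerSeries (MK K)) with hD
  set zz := PowerSeries.rescale Y z0
  calc z1 = (D * geo K (-1) 1) * (D * geo K (-1) 1) * z1 := by rw [hg, one_mul, one_mul]
    _ = (z1 * (D * D)) * (geo K (-1) 1 * geo K (-1) 1) := by ring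
    _ = _ := by
      rw [r3]
      unfold GG
      rw [← hLd]
      linear_combination (PowerSeries.C L * zz * (D * geo K (-1) 1 + 1)) * hg

/-- the number of the origins for `f + y z` -/
theorem ph0_step [CharZero K] (f : MvPolynomial (Fin n) K) {W : Set (Pt K (Fin n))}
    (hW : Constr W) : ph0 (addyz f) (Wyz W) =
      ((Lu K : (MK K)ˣ) : MK K) * ((Lu K : (MK K)ˣ) : MK K) * ph0 f W := by
  obtain ⟨hL, hz⟩ := (exists_meas K).choose_spec
  set M := (exists_meas K).choose with hM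
  set Y : MK K := (((Lu K)⁻¹ : (MK K)ˣ) : MK K) with hY
  set L : MK K := ((Lu K : (MK K)ˣ) : MK K) with hLd
  have hLY : L * Y = 1 := Units.mul_inv _
  have hML : M.L = L := by
    calc M.L = M.L * (L * Y) := by rw [hLY, mul_one]
      _ = (M.L * Y) * L := by ring
      _ = _ := by rw [hL, one_mul]
  have r := congrArg (PowerSeries.coeff 0)
    (rel2 Pool.Agent.Y229.MS.t1 Pool.Agent.Y812.MS.two M Y hL f hW)
  rw [PowerSeries.coeff_rescale, pow_zero, one_mul, map_add, PowerSeries.coeff_C_mul,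
    PowerSeries.coeff_zero_X_mul, mul_zero, add_zero, ← map_mul, PowerSeries.coeff_C_mul,
    hML] at r
  exact r

/-- the zeta functions of the jets with origin at smooth points -/
theorem smooth_form [CharZero K] (f : MvPolynomial (Fin n) K) {W : Set (Pt K (Fin n))}
    (hW : Constr W) (hj : ∀ w ∈ W, ∃ j, aeval w (pderiv j f) ≠ 0) :
    ∃ a t : MK K, zetaG f W {a | a ≠ 0} =
      PowerSeries.C a + PowerSeries.C t * PowerSeries.X * GG K := by
  classical
  have hone : ∀ (W : Set (Pt K (Fin n))), Constr W → ∀ j,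
      (∀ w ∈ W, aeval w (pderiv j f) ≠ 0) → ∃ a t : MK K, zetaG f W {a | a ≠ 0} =
      PowerSeries.C a + PowerSeries.C t * PowerSeries.X * GG K := by
    intro W hW j hj
    obtain ⟨M, hL, hz⟩ := exists_meas K
    rw [hz]
    set Y : MK K := (((Lu K)⁻¹ : (MK K)ˣ) : MK K) with hY
    set L : MK K := ((Lu K : (MK K)ˣ) : MK K) with hLd
    have hLY : L * Y = 1 := Units.mul_inv _
    have hML : M.L = L := by
      calc M.L = M.L * (L * Y) := by rw [hLY, mul_one]
        _ = (M.L * Y) * L := by ring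
        _ = _ := by rw [hL, one_mul]
    have hLn : ∀ m : ℕ, M.L ^ m * Y ^ m = 1 := fun m => by rw [← mul_pow, hL, one_pow]
    have hE : M.χ (Fin 1) {a | a 0 ∈ {a : AlgebraicClosure K | a ≠ 0}} = L - 1 := by
      rw [← hML]
      exact Pool.Agent.W417.MT.Free.chi_gm M
    have h1 : ∀ (E : Set (AlgebraicClosure K)), CE E → ∀ N,
        M.χ _ (JetG f W E (N + 1)) * Y ^ (n * (N + 1)) =
          Y * M.χ (Fin 1) {a | a 0 ∈ E} * (M.χ _ (Tl f W (N + 1) N) * Y ^ (n * N)) := by
      intro E hE N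
      have h2 := smooth_step M f hW j hj hE N
      have h3 : M.χ _ (JetG f W E (N + 1)) = Y * (M.L * M.χ _ (JetG f W E (N + 1))) := by
        linear_combination (-M.χ _ (JetG f W E (N + 1))) * hL
      rw [h3, h2, show n * (N + 1) = n + n * N by ring, pow_add]
      linear_combination (Y * M.χ (Fin 1) {a | a 0 ∈ E} * M.χ _ (Tl f W (N + 1) N) *
        Y ^ (n * N)) * hLn n
    have h4 : ∀ N, M.χ _ (Tl f W (N + 1 + 1) (N + 1)) * Y ^ (n * (N + 1)) =
        Y * (M.χ _ (Tl f W (N + 1) N) * Y ^ (n * N)) := by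
      intro N
      rw [tl_succ, h1 _ ce_zero, chi_pt, mul_one]
    set t0 := M.χ _ (Tl f W (0 + 1) 0) with ht0
    refine ⟨PowerSeries.coeff 0 (zs M Y f W {a | a ≠ 0}), Y * t0, ?_⟩
    have hg : (1 - PowerSeries.C Y * PowerSeries.X) * geo K (-1) 1 = 1 := by
      have := Pool.Agent.W63.MTFin.geo_mul (K := K) (-1) 1 one_pos
      rwa [zpow_neg_one, show (1 : ℤ).toNat = 1 from rfl, pow_one] at this
    set D := (1 - PowerSeries.C Y * PowerSeries.X : PowerSeries (MK K)) with hD
    set z := zs M Y f W {a | a ≠ 0} with hzd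
    have h5 : D * z = PowerSeries.C (PowerSeries.coeff 0 z) * D +
        PowerSeries.C (Y * t0) * PowerSeries.X * PowerSeries.C (L - 1) := by
      rw [hD, sub_mul, one_mul, mul_sub, mul_one, mul_assoc]
      ext N
      match N with
      | 0 => simp
      | 1 =>
        have h6 := h1 {a | a ≠ 0} (ce_good good_units) 0
        have h7 : PowerSeries.coeff 1 z = M.χ _ (JetG f W {a | a ≠ 0} (0 + 1)) *
            Y ^ (n * (0 + 1)) := by
          rw [hzd, zs, PowerSeries.coeff_mk]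
        rw [map_sub, PowerSeries.coeff_C_mul, map_add, map_sub, ← mul_assoc,
          ← map_mul PowerSeries.C,
          show (1 : ℕ) = 0 + 1 from rfl, PowerSeries.coeff_succ_X_mul,
          PowerSeries.coeff_succ_mul_X, PowerSeries.coeff_C, if_neg (by omega),
          PowerSeries.coeff_zero_C, mul_right_comm, ← map_mul PowerSeries.C,
          PowerSeries.coeff_succ_mul_X, PowerSeries.coeff_zero_C,
          show (0 + 1 : ℕ) = 1 from rfl, h7, h6, hE, mul_zero, pow_zero, mul_one]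
        ring
      | N + 2 =>
        rw [map_sub, PowerSeries.coeff_C_mul, map_add, map_sub, ← mul_assoc,
          ← map_mul PowerSeries.C,
          show (N + 2 : ℕ) = (N + 1) + 1 from rfl, PowerSeries.coeff_succ_X_mul,
          PowerSeries.coeff_succ_mul_X, PowerSeries.coeff_C, if_neg (by omega),
          PowerSeries.coeff_C, if_neg (by omega), mul_right_comm, ← map_mul PowerSeries.C,
          PowerSeries.coeff_succ_mul_X, PowerSeries.coeff_C, if_neg (by omega), hzd]
        unfold zs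
        rw [PowerSeries.coeff_mk, PowerSeries.coeff_mk, h1 _ (ce_good good_units) (N + 1),
          h1 _ (ce_good good_units) N, h4 N]
        ring
    calc z = (D * z) * geo K (-1) 1 := by
          linear_combination (-z) * hg
      _ = _ := by
        rw [h5]
        unfold GG
        rw [← hLd]
        linear_combination (PowerSeries.C (PowerSeries.coeff 0 z)) * hg
  have key : ∀ (s : Finset (Fin n)) (W : Set (Pt K (Fin n))), Constr W →
      (∀ w ∈ W, ∃ j ∈ s, aeval w (pderiv j f) ≠ 0) →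
      ∃ a t : MK K, zetaG f W {a | a ≠ 0} =
        PowerSeries.C a + PowerSeries.C t * PowerSeries.X * GG K := by
    intro s
    induction s using Finset.induction_on with
    | empty =>
      intro W _ h
      have : W = ∅ := by
        ext w
        constructor
        · intro hw
          obtain ⟨j, hj, -⟩ := h w hw
          exact absurd hj (Finset.notMem_empty _)
        · intro hw
          exact hw.elim
      refine ⟨0, 0, ?_⟩
      rw [this, zetaG_empty f (ce_good good_units), map_zero, zero_mul, zero_mul, add_zero]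
    | insert j s hjs ih =>
      intro W hW h
      have hc : Constr {w : Pt K (Fin n) | aeval w (pderiv j f) = 0} := Constr.eqz (IsPF.poly _)
      have e1 : W = (W ∩ {w | aeval w (pderiv j f) = 0}) ∪
          (W ∩ {w | aeval w (pderiv j f) ≠ 0}) := by
        ext w
        simp only [Set.mem_union, Set.mem_inter_iff, Set.mem_ofPred_eq]
        tauto
      obtain ⟨a1, t1, h1⟩ := ih (W ∩ {w | aeval w (pderiv j f) = 0}) (hW.inter hc) (by
        rintro w ⟨hw1, hw2⟩
        obtain ⟨i, hi, hi'⟩ := h w hw1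
        rcases Finset.mem_insert.1 hi with rfl | hi
        · exact absurd hw2 hi'
        · exact ⟨i, hi, hi'⟩)
      obtain ⟨a2, t2, h2⟩ := hone (W ∩ {w | aeval w (pderiv j f) ≠ 0}) (hW.inter hc.not) j
        (fun w hw => hw.2)
      refine ⟨a1 + a2, t1 + t2, ?_⟩
      rw [e1, zetaG_union f (hW.inter hc) (hW.inter hc.not), h1, h2, map_add, map_add]
      · ring
      · rw [Set.disjoint_left]
        rintro w ⟨-, h1⟩ ⟨-, h2⟩
        exact h2 h1
      · exact ce_good good_units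
  refine key Finset.univ W hW fun w hw => ?_
  obtain ⟨j, hj⟩ := hj w hw
  exact ⟨j, Finset.mem_univ _, hj⟩

end ser

/-! ### The values -/

section val

variable {R : Type} [CommRing R] [IsDomain R]

theorem spec_rescale {u : Rˣ} {ε : R →+* ℂ} {Z : PowerSeries R} {s : ℕ} {c : ℂ}
    (h : SpecAt u ε Z (s + 1) c) :
    SpecAt u ε (PowerSeries.rescale ((u⁻¹ : Rˣ) : R) Z) s c := by
  obtain ⟨P, Q, x, y, h1, h2, h3, h4, h5⟩ := h
  set v : R := ((u⁻¹ : Rˣ) : R) with hv
  have hc : ∀ A : Polynomial R, ((A.comp (Polynomial.C v * Polynomial.X) : Polynomial R) :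
      PowerSeries R) = PowerSeries.rescale v (A : PowerSeries R) := by
    intro A
    ext k
    rw [PowerSeries.coeff_rescale, Polynomial.coeff_coe, Polynomial.coeff_coe,
      Polynomial.comp_C_mul_X_coeff, mul_comm]
  have he : ∀ A : Polynomial R, (A.comp (Polynomial.C v * Polynomial.X)).eval
      (((u⁻¹) ^ s : Rˣ) : R) = A.eval (((u⁻¹) ^ (s + 1) : Rˣ) : R) := by
    intro A
    rw [Polynomial.eval_comp, Polynomial.eval_mul, Polynomial.eval_C, Polynomial.eval_X,
      pow_succ', Units.val_mul]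
  refine ⟨P.comp (Polynomial.C v * Polynomial.X), Q.comp (Polynomial.C v * Polynomial.X), x, y,
    ?_, ?_, ?_, h4, h5⟩
  · rw [hc, hc, ← map_mul, h1]
  · rw [he]
    exact h2
  · rw [he, he]
    exact h3

variable (E : MK ℂ →+* R) (ε : R →+* ℂ)

/-- the image of the class of the affine line -/
noncomputable def uE : Rˣ := Units.map (E : MK ℂ →* R) (Lu ℂ)

theorem uE_val : ((uE E : Rˣ) : R) = E ((Lu ℂ : (MK ℂ)ˣ) : MK ℂ) := rfl

theorem uE_inv : (((uE E)⁻¹ : Rˣ) : R) = E (((Lu ℂ)⁻¹ : (MK ℂ)ˣ) : MK ℂ) := rfl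

variable {E ε} (h1 : ε (E ((Lu ℂ : (MK ℂ)ˣ) : MK ℂ)) = 1)
  (hu : E ((Lu ℂ : (MK ℂ)ˣ) : MK ℂ) ≠ 1)

include h1

theorem eps_inv : ε (E (((Lu ℂ)⁻¹ : (MK ℂ)ˣ) : MK ℂ)) = 1 := by
  have h3 : ε (E (((Lu ℂ)⁻¹ : (MK ℂ)ˣ) : MK ℂ)) * ε (E ((Lu ℂ : (MK ℂ)ˣ) : MK ℂ)) = 1 := by
    rw [← map_mul, ← map_mul, Units.inv_mul, map_one, map_one]
  rwa [h1, mul_one] at h3

include hu

theorem spec_GG (s : ℕ) :
    SpecAt (uE E) ε (PowerSeries.map E (GG ℂ)) s (1 / ((s : ℂ) + 1)) := by
  have h2 := specAt_geo (u := uE E) (ε := ε) (by rw [uE_val]; exact h1)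
    (by rw [uE_val]; exact hu) (a := -1) (b := 1) (by norm_num) one_pos
    (Z := PowerSeries.map E (GG ℂ)) (by
      have h3 := congrArg (PowerSeries.map E) (GG_mul (K := ℂ))
      rw [map_mul, map_sub, map_one, map_mul, map_pow, PowerSeries.map_C, PowerSeries.map_X,
        PowerSeries.map_C, map_sub E, map_one E] at h3
      rw [zpow_neg_one] at h3 ⊢
      exact h3) s
  convert h2 using 1
  push_cast
  ring

theorem spec_step {n : ℕ} (f : MvPolynomial (Fin n) ℂ) {W : Set (Pt ℂ (Fin n))} (hW : Constr W)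
    {s : ℕ} {c : ℂ}
    (h : SpecAt (uE E) ε (PowerSeries.map E (zetaG f W {a | a ≠ 0})) (s + 1) c) :
    SpecAt (uE E) ε (PowerSeries.map E (zetaG (addyz f) (Wyz W) {a | a ≠ 0})) s
      (c + (ε (E (ph0 f W)) - c) * (1 / ((s : ℂ) + 1) * (1 / ((s : ℂ) + 1)))) := by
  have hz : PowerSeries.map E (PowerSeries.rescale (((Lu ℂ)⁻¹ : (MK ℂ)ˣ) : MK ℂ)
      (zetaG f W {a | a ≠ 0})) = PowerSeries.rescale (((uE E)⁻¹ : Rˣ) : R)
        (PowerSeries.map E (zetaG f W {a | a ≠ 0})) := by
    ext k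
    rw [PowerSeries.coeff_map, PowerSeries.coeff_rescale, PowerSeries.coeff_rescale,
      PowerSeries.coeff_map, map_mul, map_pow, uE_inv]
  have h2 := spec_rescale h
  have hG := spec_GG h1 hu s
  rw [series_step f hW, map_add, map_mul, map_mul, map_mul, map_sub, map_mul, map_mul,
    PowerSeries.map_C, PowerSeries.map_C, PowerSeries.map_C, PowerSeries.map_X, hz]
  have h3 := specAt_C (u := uE E) (ε := ε) (E ((Lu ℂ : (MK ℂ)ˣ) : MK ℂ)) s
  have h4 := specAt_C (u := uE E) (ε := ε) (E (ph0 f W)) s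
  have h5 := specAt_C (u := uE E) (ε := ε) (E (((Lu ℂ)⁻¹ : (MK ℂ)ˣ) : MK ℂ)) s
  have h6 := specAt_X (u := uE E) (ε := ε) (by rw [uE_val]; exact h1) s
  have h7 := specAt_C (u := uE E) (ε := ε) (-1) s
  have h8 := specAt_add (specAt_mul h3 h2) (specAt_mul (specAt_add h4
    (specAt_mul h7 (specAt_mul (specAt_mul h5 h6) h2))) (specAt_mul hG hG))
  rw [h1, eps_inv h1] at h8
  convert h8 using 1
  · rw [map_neg, map_one]
    ring
  · rw [map_neg, map_one]
    ring

/-- the values along the chain -/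
noncomputable def cf (w : ℂ) (c : ℕ → ℂ) (κ s : ℕ) : ℂ :=
  w - (w - c (s + κ)) * ((s : ℂ) * (s + κ + 1)) / (((s : ℂ) + 1) * (s + κ))

theorem ph0_itr {n : ℕ} (f : MvPolynomial (Fin n) ℂ) {W : Set (Pt ℂ (Fin n))} (hW : Constr W) :
    ∀ κ : ℕ, ε (E (ph0 (itr f κ) (Witr W κ))) = ε (E (ph0 f W))
  | 0 => rfl
  | κ + 1 => by
    show ε (E (ph0 (addyz (itr f κ)) (Wyz (Witr W κ)))) = _
    rw [ph0_step _ (constr_Witr hW κ), map_mul, map_mul, map_mul, map_mul, h1, one_mul, one_mul,
      ph0_itr f hW κ]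

theorem spec_chain {n : ℕ} (f : MvPolynomial (Fin n) ℂ) {W : Set (Pt ℂ (Fin n))} (hW : Constr W)
    (c : ℕ → ℂ) (h : ∀ s : ℕ, 0 < s →
      SpecAt (uE E) ε (PowerSeries.map E (zetaG f W {a | a ≠ 0})) s (c s)) :
    ∀ κ s : ℕ, 0 < s →
      SpecAt (uE E) ε (PowerSeries.map E (zetaG (itr f κ) (Witr W κ) {a | a ≠ 0})) s
        (cf (ε (E (ph0 f W))) c κ s) := by
  intro κ
  induction κ with
  | zero =>
    intro s hs
    have hs' : (s : ℂ) ≠ 0 := by exact_mod_cast hs.ne'
    have hs1 : (s : ℂ) + 1 ≠ 0 := by exact_mod_cast (Nat.succ_ne_zero s)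
    have e0 : cf (ε (E (ph0 f W))) c 0 s = c s := by
      unfold cf
      rw [Nat.cast_zero, add_zero, add_zero]
      field_simp
      ring
    rw [e0]
    exact h s hs
  | succ κ ih =>
    intro s hs
    have h2 := spec_step h1 hu (itr f κ) (constr_Witr hW κ) (ih (s + 1) (Nat.succ_pos s))
    rw [ph0_itr h1 hu f hW] at h2
    have e1 : cf (ε (E (ph0 f W))) c κ (s + 1) + (ε (E (ph0 f W)) -
        cf (ε (E (ph0 f W))) c κ (s + 1)) * (1 / ((s : ℂ) + 1) * (1 / ((s : ℂ) + 1))) =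
        cf (ε (E (ph0 f W))) c (κ + 1) s := by
      have hs1 : (s : ℂ) + 1 ≠ 0 := by exact_mod_cast (Nat.succ_ne_zero s)
      have hs2 : (s : ℂ) + 1 + 1 ≠ 0 := by exact_mod_cast (Nat.succ_ne_zero (s + 1))
      have hs3 : (s : ℂ) + 1 + κ ≠ 0 := by
        have : (s + 1 + κ : ℕ) ≠ 0 := by omega
        exact_mod_cast this
      have hs4 : (s : ℂ) + (κ + 1) ≠ 0 := by
        have : (s + (κ + 1) : ℕ) ≠ 0 := by omega
        exact_mod_cast this
      unfold cf
      rw [show s + 1 + κ = s + (κ + 1) by ring]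
      push_cast
      field_simp
      ring
    rw [← e1]
    exact h2

end val

/-! ### Rational functions -/

section rat

variable {R : Type} [CommRing R] [IsDomain R] {E : MK ℂ →+* R} {ε : R →+* ℂ}

theorem top_denom {Zm : PowerSeries (MK ℂ)} {Z : RatFunc ℂ} (h : IsTopZeta E ε Zm Z) (s : ℕ)
    (hs : 0 < s) : Z.denom.eval (s : ℂ) ≠ 0 ∧ SpecAt (uE E) ε (PowerSeries.map E Zm) s
      (Z.num.eval (s : ℂ) / Z.denom.eval (s : ℂ)) := by
  obtain ⟨c, h1, h2⟩ := h s hs
  have hd : Z.denom.eval (s : ℂ) ≠ 0 := by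
    intro h0
    obtain ⟨a, b, hab⟩ := Z.isCoprime_num_denom
    have h3 := congrArg (Polynomial.eval (s : ℂ)) hab
    rw [Polynomial.eval_add, Polynomial.eval_mul, Polynomial.eval_mul, h0, h2, h0, mul_zero,
      mul_zero, mul_zero, add_zero, Polynomial.eval_one] at h3
    exact zero_ne_one h3
  refine ⟨hd, ?_⟩
  rw [h2, mul_div_assoc, div_self hd, mul_one]
  exact h1

theorem top_mk {Zm : PowerSeries (MK ℂ)} (A B : Polynomial ℂ)
    (hB : ∀ s : ℕ, 0 < s → B.eval (s : ℂ) ≠ 0)
    (h : ∀ s : ℕ, 0 < s → SpecAt (uE E) ε (PowerSeries.map E Zm) s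
      (A.eval (s : ℂ) / B.eval (s : ℂ))) :
    ∃ Z : RatFunc ℂ, IsTopZeta E ε Zm Z ∧
      ∀ t : ℂ, B.eval t = 0 → A.eval t ≠ 0 → Z.denom.eval t = 0 := by
  have hB0 : B ≠ 0 := by
    rintro rfl
    exact hB 1 one_pos (by rw [Polynomial.eval_zero])
  set Z : RatFunc ℂ := algebraMap (Polynomial ℂ) (RatFunc ℂ) A /
    algebraMap (Polynomial ℂ) (RatFunc ℂ) B with hZdef
  have hnd : Z.num * B = A * Z.denom := by
    have h6 : algebraMap (Polynomial ℂ) (RatFunc ℂ) B ≠ 0 := by
      rw [Ne, map_eq_zero_iff _ (RatFunc.algebraMap_injective ℂ)]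
      exact hB0
    have h7 : algebraMap (Polynomial ℂ) (RatFunc ℂ) Z.denom ≠ 0 := by
      rw [Ne, map_eq_zero_iff _ (RatFunc.algebraMap_injective ℂ)]
      exact Z.denom_ne_zero
    have h8 := RatFunc.num_div_denom Z
    have h9 : algebraMap (Polynomial ℂ) (RatFunc ℂ) Z.num /
        algebraMap (Polynomial ℂ) (RatFunc ℂ) Z.denom =
        algebraMap (Polynomial ℂ) (RatFunc ℂ) A / algebraMap (Polynomial ℂ) (RatFunc ℂ) B :=
      h8.trans hZdef
    rw [div_eq_div_iff h7 h6, ← map_mul, ← map_mul] at h9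
    exact RatFunc.algebraMap_injective ℂ h9
  refine ⟨Z, fun s hs => ⟨_, h s hs, ?_⟩, fun t hBt hAt => ?_⟩
  · have h5 := congrArg (Polynomial.eval (s : ℂ)) hnd
    rw [Polynomial.eval_mul, Polynomial.eval_mul] at h5
    have h6 := hB s hs
    field_simp
    linear_combination h5
  · have h5 := congrArg (Polynomial.eval t) hnd
    rw [Polynomial.eval_mul, Polynomial.eval_mul, hBt, mul_zero] at h5
    exact (mul_eq_zero.1 h5.symm).resolve_left hAt

/-- **The pole moves along the chain**, possibly with a correction by `a + t / (s + 1)`. -/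
theorem pole_chain (h1 : ε (E ((Lu ℂ : (MK ℂ)ˣ) : MK ℂ)) = 1)
    (hu : E ((Lu ℂ : (MK ℂ)ˣ) : MK ℂ) ≠ 1) {n : ℕ} (f : MvPolynomial (Fin n) ℂ)
    {W : Set (Pt ℂ (Fin n))} (hW : Constr W) {Z : RatFunc ℂ}
    (hZ : IsTopZeta E ε (zetaG f W {a | a ≠ 0}) Z) {s₀ : ℂ} (hs : Z.denom.eval s₀ = 0)
    (κ : ℕ) (hs1 : s₀ ≠ -1) (hs2 : s₀ ≠ κ) {Zm : PowerSeries (MK ℂ)} (a t : MK ℂ)
    (hZm : zetaG (itr f κ) (Witr W κ) {a | a ≠ 0} =
      Zm + (PowerSeries.C a + PowerSeries.C t * PowerSeries.X * GG ℂ)) :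
    ∃ Z' : RatFunc ℂ, IsTopZeta E ε Zm Z' ∧ Z'.denom.eval (s₀ - κ) = 0 := by
  set w := ε (E (ph0 f W)) with hw
  set D : Polynomial ℂ := Z.denom.comp (Polynomial.X + Polynomial.C (κ : ℂ)) with hD
  set N : Polynomial ℂ := Z.num.comp (Polynomial.X + Polynomial.C (κ : ℂ)) with hN
  have hDe : ∀ z : ℂ, D.eval z = Z.denom.eval (z + κ) := fun z => by
    rw [hD, Polynomial.eval_comp, Polynomial.eval_add, Polynomial.eval_X, Polynomial.eval_C]
  have hNe : ∀ z : ℂ, N.eval z = Z.num.eval (z + κ) := fun z => by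
    rw [hN, Polynomial.eval_comp, Polynomial.eval_add, Polynomial.eval_X, Polynomial.eval_C]
  set X1 : Polynomial ℂ := Polynomial.X + 1 with hX1
  set Xk : Polynomial ℂ := Polynomial.X + Polynomial.C (κ : ℂ) with hXk
  set A : Polynomial ℂ := (Polynomial.C (w - ε (E a)) * X1 - Polynomial.C (ε (E t))) * Xk * D -
    (Polynomial.C w * D - N) * (Polynomial.X * (Xk + 1)) with hA
  set B : Polynomial ℂ := X1 * Xk * D with hB
  have hX1e : ∀ z : ℂ, X1.eval z = z + 1 := fun z => by
    rw [hX1, Polynomial.eval_add, Polynomial.eval_X, Polynomial.eval_one]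
  have hXke : ∀ z : ℂ, Xk.eval z = z + κ := fun z => by
    rw [hXk, Polynomial.eval_add, Polynomial.eval_X, Polynomial.eval_C]
  have hAe : ∀ z : ℂ, A.eval z = ((w - ε (E a)) * (z + 1) - ε (E t)) * (z + κ) *
      Z.denom.eval (z + κ) - (w * Z.denom.eval (z + κ) - Z.num.eval (z + κ)) *
        (z * (z + κ + 1)) := fun z => by
    simp only [hA, Polynomial.eval_sub, Polynomial.eval_mul, Polynomial.eval_add,
      Polynomial.eval_C, Polynomial.eval_X, Polynomial.eval_one, hX1e, hXke, hDe, hNe]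
  have hBe : ∀ z : ℂ, B.eval z = (z + 1) * (z + κ) * Z.denom.eval (z + κ) := fun z => by
    simp only [hB, Polynomial.eval_mul, hX1e, hXke, hDe]
  have hpos1 : ∀ s : ℕ, (s : ℂ) + 1 ≠ 0 := fun s => by exact_mod_cast (Nat.succ_ne_zero s)
  have hposk : ∀ s : ℕ, 0 < s → (s : ℂ) + κ ≠ 0 := fun s hs => by
    have : (s + κ : ℕ) ≠ 0 := by omega
    exact_mod_cast this
  have hDs : ∀ s : ℕ, 0 < s → Z.denom.eval ((s : ℂ) + κ) ≠ 0 := fun s hs => by
    have h3 := (top_denom hZ (s + κ) (by omega)).1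
    push_cast at h3
    exact h3
  have hBs : ∀ s : ℕ, 0 < s → B.eval (s : ℂ) ≠ 0 := by
    intro s hs
    rw [hBe]
    exact mul_ne_zero (mul_ne_zero (hpos1 s) (hposk s hs)) (hDs s hs)
  obtain ⟨Z', h2, h3⟩ := top_mk (E := E) (ε := ε) (Zm := Zm) A B hBs (by
    intro s hs
    have h4 := spec_chain h1 hu f hW (fun s => Z.num.eval (s : ℂ) / Z.denom.eval (s : ℂ))
      (fun s hs => (top_denom hZ s hs).2) κ s hs
    have h5 := specAt_add (specAt_C (u := uE E) (ε := ε) (E a) s)
      (specAt_mul (specAt_mul (specAt_C (u := uE E) (ε := ε) (E t) s)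
        (specAt_X (u := uE E) (ε := ε) (by rw [uE_val]; exact h1) s)) (spec_GG h1 hu s))
    have h6 := specAt_add h4 (specAt_mul (specAt_C (u := uE E) (ε := ε) (-1) s) h5)
    have e1 : PowerSeries.map E (zetaG (itr f κ) (Witr W κ) {a | a ≠ 0}) + PowerSeries.C (-1) *
        (PowerSeries.C (E a) + PowerSeries.C (E t) * PowerSeries.X * PowerSeries.map E (GG ℂ)) =
        PowerSeries.map E Zm := by
      rw [hZm, map_add, map_add, map_mul, map_mul, PowerSeries.map_C, PowerSeries.map_C,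
        PowerSeries.map_X, map_neg, map_one]
      ring
    rw [e1] at h6
    convert h6 using 1
    unfold cf
    have hn1 := hpos1 s
    have hnk := hposk s hs
    have hnd := hDs s hs
    rw [hAe, hBe, map_neg, map_one, ← hw]
    push_cast
    field_simp
    ring)
  refine ⟨Z', h2, h3 _ ?_ ?_⟩
  · rw [hBe, sub_add_cancel, hs, mul_zero]
  · have hn0 : Z.num.eval s₀ ≠ 0 := by
      intro h0
      obtain ⟨a, b, hab⟩ := Z.isCoprime_num_denom
      have h3 := congrArg (Polynomial.eval s₀) hab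
      rw [Polynomial.eval_add, Polynomial.eval_mul, Polynomial.eval_mul, h0, hs, mul_zero,
        mul_zero, add_zero, Polynomial.eval_one] at h3
      exact zero_ne_one h3
    rw [hAe, sub_add_cancel, hs, mul_zero, mul_zero, zero_sub, zero_sub]
    have e1 : s₀ - κ ≠ 0 := sub_ne_zero.2 hs2
    have e2 : s₀ + 1 ≠ 0 := fun h => hs1 (eq_neg_of_add_eq_zero_left h)
    exact neg_ne_zero.2 (mul_ne_zero (neg_ne_zero.2 hn0) (mul_ne_zero e1 e2))

end rat

end Pool.Agent.Q59.TR
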