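import Pool.Agent.Q59.TR.Top

/-!
# The topological monodromy conjectures and the chain `f, f + y z, …`
-/

set_option autoImplicit false

namespace Pool.Agent.Q59.TR

open MvPolynomial Pool.Agent.W428.MOT Pool.Agent.H628R4.TP
open Pool.Agent.W375.MG (JetG zetaG good_units)
open Pool.Agent.Y229.MS
open Pool.Agent.TH192.MU (SpecAt IsTopZeta)

variable {R : Type} [CommRing R] [IsDomain R] (E : MK ℂ →+* R) (ε : R →+* ℂ)

/-- The global conjecture, with roots up to shifts in `I`. -/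
def TopG (I : Set ℤ) {n : ℕ} (f : MvPolynomial (Fin n) ℂ) : Prop :=
  ∀ Z : RatFunc ℂ, IsTopZeta E ε (zetaG f Set.univ {a | a ≠ 0}) Z →
    ∀ s₀ : ℂ, Z.denom.eval s₀ = 0 → ∀ b : Polynomial ℂ, IsBFunction f b →
      ∃ i ∈ I, b.eval (s₀ + (i : ℂ)) = 0

/-- The local conjecture, with roots up to shifts in `I`. -/
def TopL (I : Set ℤ) {n : ℕ} (f : MvPolynomial (Fin n) ℂ) : Prop :=
  ∀ Z : RatFunc ℂ, IsTopZeta E ε (zetaG f {0} {a | a ≠ 0}) Z →
    ∀ s₀ : ℂ, Z.denom.eval s₀ = 0 → ∀ b : Polynomial ℂ, IsLocalBFunction f b →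
      ∃ i ∈ I, b.eval (s₀ + (i : ℂ)) = 0

/-- the choice of the number of the new variables -/
theorem choose_kappa {I : Set ℤ} (hI : I = {0} ∨ I = Set.univ) {s₀ : ℂ}
    (h : ∀ i ∈ I, s₀ + (i : ℂ) + 1 ≠ 0) (κ₀ : ℕ) :
    ∃ κ, κ₀ ≤ κ ∧ s₀ ≠ κ ∧ ∀ i ∈ I, s₀ - κ + (i : ℂ) + 1 ≠ 0 := by
  rcases hI with rfl | rfl
  · obtain ⟨m, hm⟩ := exists_nat_gt (s₀.re + 1)
    have hm' : s₀.re + 1 < (max κ₀ m : ℕ) := lt_of_lt_of_le hm (by
      exact_mod_cast le_max_right _ _)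
    refine ⟨max κ₀ m, le_max_left _ _, ?_, ?_⟩
    · intro h1
      rw [h1] at hm'
      simp only [Complex.natCast_re] at hm'
      linarith
    · rintro i (rfl : i = 0) h1
      have h2 := congrArg Complex.re h1
      simp only [Complex.add_re, Complex.sub_re, Complex.natCast_re, Complex.one_re,
        Complex.zero_re, Int.cast_zero] at h2
      linarith
  · refine ⟨κ₀, le_rfl, ?_, ?_⟩
    · intro h1
      apply h (-(κ₀ : ℤ) - 1) (Set.mem_univ _)
      rw [h1]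
      push_cast
      ring
    · intro i _ h1
      apply h (i - κ₀) (Set.mem_univ _)
      rw [← h1]
      push_cast
      ring

theorem eval_b {c : Polynomial ℂ} (κ : ℕ) (s : ℂ) :
    ((Polynomial.X + 1) * c.comp (Polynomial.X + Polynomial.C (κ : ℂ))).eval s =
      (s + 1) * c.eval (s + κ) := by
  rw [Polynomial.eval_mul, Polynomial.eval_comp, Polynomial.eval_add, Polynomial.eval_add,
    Polynomial.eval_X, Polynomial.eval_C, Polynomial.eval_one]

theorem zero_mem_I {I : Set ℤ} (hI : I = {0} ∨ I = Set.univ) : (0 : ℤ) ∈ I := by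
  rcases hI with rfl | rfl
  · exact Set.mem_singleton _
  · exact Set.mem_univ _

variable {E ε} (h1 : ε (E ((Lu ℂ : (MK ℂ)ˣ) : MK ℂ)) = 1)
  (hu : E ((Lu ℂ : (MK ℂ)ˣ) : MK ℂ) ≠ 1)

include h1 hu

/-- **The transfer**, topological, global. -/
theorem topG_transfer {I : Set ℤ} (hI : I = {0} ∨ I = Set.univ)
    (H : ∀ (n : ℕ) (f : MvPolynomial (Fin n) ℂ), f.totalDegree ≠ 0 → AffTri f → TopG E ε I f)
    {n : ℕ} (f : MvPolynomial (Fin n) ℂ) (hf : f.totalDegree ≠ 0) : TopG E ε I f := by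
  intro Z hZ s₀ hs b hb
  by_contra hne
  push Not at hne
  obtain ⟨c, rfl⟩ := factor hf hb
  have hev : ∀ s : ℂ, ((Polynomial.X + 1) * c).eval s = (s + 1) * c.eval s := fun s => by
    rw [Polynomial.eval_mul, Polynomial.eval_add, Polynomial.eval_X, Polynomial.eval_one]
  have hc : ∀ i ∈ I, c.eval (s₀ + (i : ℂ)) ≠ 0 := fun i hi h0 =>
    hne i hi (by rw [hev, h0, mul_zero])
  have hs1 : ∀ i ∈ I, s₀ + (i : ℂ) + 1 ≠ 0 := fun i hi h0 =>
    hne i hi (by rw [hev, h0, zero_mul])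
  obtain ⟨κ₀, hκ₀⟩ := exists_chain f
  obtain ⟨κ, hκ, hk1, hk2⟩ := choose_kappa hI hs1 κ₀
  obtain ⟨M, G, ψ, hM, hψ, hT, h0⟩ := hκ₀ κ hκ
  have hG : G.totalDegree ≠ 0 := by
    rw [← hψ]
    exact deg_iso ψ (itr_deg hf κ)
  have hz := zeta_iso Pool.Agent.Z864.MS.three hM ψ (itr f κ)
    (W := Witr Set.univ κ) (constr_Witr Constr.univ κ) (ce_good good_units)
  have h4 : {w : Pt ℂ (Fin M) | (fun i => aeval w (ψ (X i))) ∈
      Witr (K := ℂ) (Set.univ : Set (Pt ℂ (Fin n))) κ} = Set.univ := by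
    rw [Witr_univ]
    simp
  rw [h4, hψ] at hz
  have hsm1 : s₀ ≠ -1 := by
    intro h2
    apply hs1 0 (zero_mem_I hI)
    rw [h2, Int.cast_zero]
    ring
  obtain ⟨Z', h5, h6⟩ := pole_chain h1 hu f Constr.univ hZ hs κ hsm1 hk1
    (Zm := zetaG G Set.univ {a | a ≠ 0}) 0 0 (by
      rw [hz, map_zero, zero_mul, zero_mul, add_zero, add_zero])
  obtain ⟨i, hi, h7⟩ := H M G hG hT Z' h5 _ h6 _ (by
    rw [← hψ]
    exact Pool.Agent.W206.CU.isBFunction_iso ψ (b_itr hf hb κ))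
  rw [eval_b] at h7
  rcases mul_eq_zero.1 h7 with h8 | h8
  · exact hk2 i hi h8
  · apply hc i hi
    rw [← h8]
    congr 1
    ring

/-- **The transfer**, topological, local. -/
theorem topL_transfer {I : Set ℤ} (hI : I = {0} ∨ I = Set.univ)
    (H : ∀ (n : ℕ) (f : MvPolynomial (Fin n) ℂ), f.totalDegree ≠ 0 → constantCoeff f = 0 →
      AffTri f → TopL E ε I f)
    {n : ℕ} (f : MvPolynomial (Fin n) ℂ) (hf : f.totalDegree ≠ 0) (hf0 : constantCoeff f = 0) :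
    TopL E ε I f := by
  intro Z hZ s₀ hs b hb
  by_contra hne
  push Not at hne
  obtain ⟨c, rfl⟩ := factorL hf hf0 hb
  have hev : ∀ s : ℂ, ((Polynomial.X + 1) * c).eval s = (s + 1) * c.eval s := fun s => by
    rw [Polynomial.eval_mul, Polynomial.eval_add, Polynomial.eval_X, Polynomial.eval_one]
  have hc : ∀ i ∈ I, c.eval (s₀ + (i : ℂ)) ≠ 0 := fun i hi h0 =>
    hne i hi (by rw [hev, h0, mul_zero])
  have hs1 : ∀ i ∈ I, s₀ + (i : ℂ) + 1 ≠ 0 := fun i hi h0 =>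
    hne i hi (by rw [hev, h0, zero_mul])
  obtain ⟨κ₀, hκ₀⟩ := exists_chain0 f
  obtain ⟨κ, hκ, hk1, hk2⟩ := choose_kappa hI hs1 κ₀
  obtain ⟨M, G, ψ, hM, hψ, hψ0, hT, h0⟩ := hκ₀ κ hκ
  have hG : G.totalDegree ≠ 0 := by
    rw [← hψ]
    exact deg_iso ψ (itr_deg hf κ)
  have hz := zeta_iso Pool.Agent.Z864.MS.three hM ψ (itr f κ)
    (W := {0}) constr_zero (ce_good good_units)
  rw [pull_zero ψ hψ0, hψ] at hz
  have hsm1 : s₀ ≠ -1 := by
    intro h2
    apply hs1 0 (zero_mem_I hI)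
    rw [h2, Int.cast_zero]
    ring
  -- the smooth points over the origin
  have hW0 : Constr (Witr (K := ℂ) ({0} : Set (Pt ℂ (Fin n))) κ ∩ {w | w ≠ 0}) :=
    (constr_Witr constr_zero κ).inter (constr_zero (K := ℂ) (ι := Fin (n + 2 * κ))).not
  obtain ⟨a, t, hat⟩ := smooth_form (itr f κ) hW0 fun w hw => itr_smooth f κ w hw.1 hw.2
  have hsplit : zetaG (itr f κ) (Witr {0} κ) {a | a ≠ 0} =
      zetaG (itr f κ) {0} {a | a ≠ 0} +
        zetaG (itr f κ) (Witr {0} κ ∩ {w | w ≠ 0}) {a | a ≠ 0} := by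
    have e1 : Witr (K := ℂ) ({0} : Set (Pt ℂ (Fin n))) κ =
        {0} ∪ (Witr {0} κ ∩ {w | w ≠ 0}) := by
      ext w
      simp only [Set.mem_union, Set.mem_singleton_iff, Set.mem_inter_iff, Set.mem_ofPred_eq]
      constructor
      · intro h
        by_cases h0 : w = 0
        · exact Or.inl h0
        · exact Or.inr ⟨h, h0⟩
      · rintro (rfl | h)
        · exact zero_mem_Witr κ
        · exact h.1
    conv_lhs => rw [e1]
    refine zetaG_union _ constr_zero hW0 ?_ (ce_good good_units)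
    rw [Set.disjoint_left]
    rintro w hw ⟨-, hw'⟩
    exact hw' (Set.mem_singleton_iff.1 hw)
  obtain ⟨Z', h5, h6⟩ := pole_chain h1 hu f constr_zero hZ hs κ hsm1 hk1
    (Zm := zetaG G {0} {a | a ≠ 0}) a t (by rw [hsplit, hat, hz])
  obtain ⟨i, hi, h7⟩ := H M G hG (by rw [h0, hf0]) hT Z' h5 _ h6 _ (by
    rw [← hψ]
    exact isLocalB_iso hM ψ hψ0 (bL_itr hf hf0 hb κ))
  rw [eval_b] at h7
  rcases mul_eq_zero.1 h7 with h8 | h8
  · exact hk2 i hi h8
  · apply hc i hi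
    rw [← h8]
    congr 1
    ring

end Pool.Agent.Q59.TR
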