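import Mathlib

/-!
# Every polynomial as a polynomial of degree at most one in each of three groups of variables

The words `w` in the letters `1, …, n` of length between `2` and `D` and copies `c_j` of the variables
`x_j` are new variables `z`; the relations are `c_j - x_j` and `V(i w) - V(w) c_i`.
-/

set_option autoImplicit false

namespace Pool.Agent.Q59.TR

open MvPolynomial

/-! ### The degrees in three groups of variables -/

section deg

variable {R : Type} [CommRing R] {M : Type} [Fintype M]

/-- The degree of a monomial in the variables of the group `g`. -/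
def dg (col : M → Fin 3) (g : Fin 3) (w : M →₀ ℕ) : ℕ :=
  ∑ i ∈ Finset.univ.filter (fun i => col i = g), w i

/-- The degree of `F` in the variables of the group `g` is at most `d g`. -/
def Le3 (col : M → Fin 3) (d : Fin 3 → ℕ) (F : MvPolynomial M R) : Prop :=
  ∀ w ∈ F.support, ∀ g, dg col g w ≤ d g

variable {col : M → Fin 3} {d d' : Fin 3 → ℕ} {F G : MvPolynomial M R}

theorem dg_add (g : Fin 3) (w w' : M →₀ ℕ) : dg col g (w + w') = dg col g w + dg col g w' := by
  unfold dg
  rw [← Finset.sum_add_distrib]
  rfl

theorem dg_zero (g : Fin 3) : dg col g (0 : M →₀ ℕ) = 0 := by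
  simp [dg]

theorem dg_single (g : Fin 3) (i : M) :
    dg col g (Finsupp.single i 1) = if col i = g then 1 else 0 := by
  classical
  unfold dg
  by_cases h : col i = g
  · rw [if_pos h, Finset.sum_eq_single i]
    · simp
    · intro j _ hj
      rw [Finsupp.single_eq_of_ne hj]
    · intro h1
      simp [h] at h1
  · rw [if_neg h]
    refine Finset.sum_eq_zero fun j hj => ?_
    rw [Finsupp.single_eq_of_ne]
    rintro rfl
    exact h (Finset.mem_filter.1 hj).2

theorem Le3.mono (h : Le3 col d F) (hd : ∀ g, d g ≤ d' g) : Le3 col d' F :=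
  fun w hw g => (h w hw g).trans (hd g)

theorem Le3.add (h : Le3 col d F) (h' : Le3 col d G) : Le3 col d (F + G) := by
  classical
  intro w hw g
  rcases Finset.mem_union.1 (support_add hw) with h1 | h1
  · exact h w h1 g
  · exact h' w h1 g

theorem Le3.neg (h : Le3 col d F) : Le3 col d (-F) := by
  intro w hw g
  rw [support_neg] at hw
  exact h w hw g

theorem Le3.sub (h : Le3 col d F) (h' : Le3 col d G) : Le3 col d (F - G) := by
  rw [sub_eq_add_neg]
  exact h.add h'.neg

theorem le3_zero : Le3 col d (0 : MvPolynomial M R) := by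
  intro w hw
  simp at hw

theorem Le3.sum {α : Type} (s : Finset α) (F : α → MvPolynomial M R)
    (h : ∀ a ∈ s, Le3 col d (F a)) : Le3 col d (∑ a ∈ s, F a) := by
  classical
  induction s using Finset.induction_on with
  | empty => rw [Finset.sum_empty]; exact le3_zero
  | insert a s ha ih =>
    rw [Finset.sum_insert ha]
    exact (h a (Finset.mem_insert_self _ _)).add (ih fun b hb => h b (Finset.mem_insert_of_mem hb))

theorem Le3.mul (h : Le3 col d F) (h' : Le3 col d' G) : Le3 col (fun g => d g + d' g) (F * G) := by
  classical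
  intro w hw g
  obtain ⟨a, ha, b, hb, rfl⟩ := Finset.mem_add.1 (support_mul F G hw)
  rw [dg_add]
  exact Nat.add_le_add (h a ha g) (h' b hb g)

theorem le3_C (a : R) : Le3 col (fun _ => 0) (C a : MvPolynomial M R) := by
  classical
  intro w hw g
  rw [C_apply] at hw
  have := support_monomial_subset hw
  rw [Finset.mem_singleton] at this
  rw [this, dg_zero]

theorem le3_one : Le3 col (fun _ => 0) (1 : MvPolynomial M R) := by
  rw [← C_1]
  exact le3_C 1

theorem le3_X (i : M) : Le3 col (fun g => if col i = g then 1 else 0) (X i : MvPolynomial M R) := by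
  classical
  intro w hw g
  rw [X] at hw
  have := support_monomial_subset hw
  rw [Finset.mem_singleton] at this
  rw [this, dg_single]

/-- renaming -/
theorem Le3.rename {M' : Type} [Fintype M'] {col' : M' → Fin 3} {e : M → M'}
    (he : Function.Injective e) (hc : ∀ i, col' (e i) = col i) (h : Le3 col d F) :
    Le3 col' d (rename e F) := by
  classical
  intro w hw g
  rw [support_rename_of_injective he, Finset.mem_image] at hw
  obtain ⟨w', hw', rfl⟩ := hw
  refine le_trans (le_of_eq ?_) (h w' hw' g)
  unfold dg
  have h1 : ∀ j ∈ Finset.univ.filter (fun j => col' j = g), j ∉ Set.range e →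
      Finsupp.mapDomain e w' j = 0 := fun j _ hj => Finsupp.mapDomain_of_notMem_range _ _ hj
  rw [← Finset.sum_subset (s₁ := (Finset.univ.filter (fun i => col i = g)).image e)]
  · rw [Finset.sum_image fun a _ b _ hab => he hab]
    exact Finset.sum_congr rfl fun i _ => Finsupp.mapDomain_apply he _ _
  · intro j hj
    obtain ⟨i, hi, rfl⟩ := Finset.mem_image.1 hj
    rw [Finset.mem_filter] at hi ⊢
    exact ⟨Finset.mem_univ _, by rw [hc]; exact hi.2⟩
  · intro j hj hj'
    refine h1 j hj ?_
    rintro ⟨i, rfl⟩
    apply hj'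
    refine Finset.mem_image.2 ⟨i, Finset.mem_filter.2 ⟨Finset.mem_univ _, ?_⟩, rfl⟩
    rw [← hc]
    exact (Finset.mem_filter.1 hj).2

end deg

/-! ### The words -/

/-- The words of length between `2` and `D` in `n` letters. -/
abbrev Wd (n D : ℕ) : Type := {w : List (Fin n) // 2 ≤ w.length ∧ w.length ≤ D}

instance (n D : ℕ) : Finite (Wd n D) := by
  have h := List.finite_length_le (Fin n) D
  exact (h.subset fun w (hw : 2 ≤ w.length ∧ w.length ≤ D) => hw.2).to_subtype

/-- The new variables: the copies of the old ones, and the words. -/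
abbrev Zt (n D : ℕ) : Type := Fin n ⊕ Wd n D

section words

variable {R : Type} [CommRing R] {n D κ : ℕ} (e : Zt n D ≃ Fin κ)

/-- The copy of the variable `x_j`. -/
noncomputable def cc (j : Fin n) : MvPolynomial (Fin (n + κ)) R := X (Fin.natAdd n (e (Sum.inl j)))

/-- The variable `x_j`. -/
noncomputable def xx (j : Fin n) : MvPolynomial (Fin (n + κ)) R := X (Fin.castAdd κ j)

open Classical in
/-- The variable of a word, `1` for the empty word, `x_i` for the word of one letter `i`. -/
noncomputable def V : List (Fin n) → MvPolynomial (Fin (n + κ)) R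
  | [] => 1
  | [i] => xx i
  | i :: j :: w => if h : (i :: j :: w).length ≤ D then
      X (Fin.natAdd n (e (Sum.inr ⟨i :: j :: w, by simp, h⟩))) else 0

/-- The relations. -/
noncomputable def lZ : Zt n D → MvPolynomial (Fin (n + κ)) R
  | Sum.inl j => cc e j - xx j
  | Sum.inr ⟨[], _⟩ => 0
  | Sum.inr ⟨i :: w, _⟩ => V e (i :: w) - V e w * cc e i

/-- The relations, numbered. -/
noncomputable def ll (i : Fin κ) : MvPolynomial (Fin (n + κ)) R := lZ e (e.symm i)

/-- The inverse of `V ↦ l`. -/
noncomputable def U : List (Fin n) → MvPolynomial (Fin (n + κ)) R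
  | [] => 1
  | [i] => xx i
  | i :: j :: w => V e (i :: j :: w) + U (j :: w) * (cc e i + xx i)

/-- The inverse, on the new variables. -/
noncomputable def uZ : Zt n D → MvPolynomial (Fin (n + κ)) R
  | Sum.inl j => cc e j + xx j
  | Sum.inr w => U e w.1

/-- `x ↦ x`, `z_i ↦ l_i` -/
noncomputable def th : MvPolynomial (Fin (n + κ)) R →ₐ[R] MvPolynomial (Fin (n + κ)) R :=
  aeval (Fin.append (fun i => xx i) (fun i => ll e i))

/-- the inverse -/
noncomputable def th' : MvPolynomial (Fin (n + κ)) R →ₐ[R] MvPolynomial (Fin (n + κ)) R :=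
  aeval (Fin.append (fun i => xx i) (fun i => uZ e (e.symm i)))

theorem th_x (i : Fin n) : th (R := R) e (xx i) = xx i := by
  rw [th, xx, aeval_X, Fin.append_left]
  rfl

theorem th_z (z : Zt n D) : th (R := R) e (X (Fin.natAdd n (e z))) = lZ e z := by
  rw [th, aeval_X, Fin.append_right, ll, Equiv.symm_apply_apply]

theorem th'_x (i : Fin n) : th' (R := R) e (xx i) = xx i := by
  rw [th', xx, aeval_X, Fin.append_left]
  rfl

theorem th'_z (z : Zt n D) : th' (R := R) e (X (Fin.natAdd n (e z))) = uZ e z := by
  rw [th', aeval_X, Fin.append_right, Equiv.symm_apply_apply]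

theorem th_c (j : Fin n) : th (R := R) e (cc e j) = cc e j - xx j := th_z e _

theorem th'_c (j : Fin n) : th' (R := R) e (cc e j) = cc e j + xx j := th'_z e _

theorem th'_V : ∀ w : List (Fin n), w.length ≤ D → th' (R := R) e (V e w) = U e w
  | [], _ => by rw [V, U, map_one]
  | [i], _ => by rw [V, U, th'_x]
  | i :: j :: w, h => by
    rw [V, dif_pos h, th'_z]
    rfl

theorem th_U : ∀ w : List (Fin n), w.length ≤ D → th (R := R) e (U e w) = V e w
  | [], _ => by rw [V, U, map_one]
  | [i], _ => by rw [V, U, th_x]
  | i :: j :: w, h => by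
    have h1 := th_U (j :: w) (by simp only [List.length_cons] at h ⊢; omega)
    rw [U, map_add, map_mul, map_add, th_c, th_x, h1, sub_add_cancel, V, dif_pos h, th_z]
    simp only [lZ]
    rw [V, dif_pos h]
    ring

/-- The automorphism. -/
noncomputable def theta : MvPolynomial (Fin (n + κ)) R ≃ₐ[R] MvPolynomial (Fin (n + κ)) R :=
  AlgEquiv.ofAlgHom (th e) (th' e)
    (by
      apply MvPolynomial.algHom_ext
      intro i
      refine Fin.addCases (fun i => ?_) (fun i => ?_) i
      · have h1 := th'_x (R := R) e i
        have h2 := th_x (R := R) e i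
        unfold xx at h1 h2
        rw [AlgHom.comp_apply, h1, h2, AlgHom.id_apply]
      · obtain ⟨z, rfl⟩ := e.surjective i
        rw [AlgHom.comp_apply, AlgHom.id_apply, th'_z]
        rcases z with j | ⟨w, hw⟩
        · simp only [uZ]
          rw [map_add, th_c, th_x, sub_add_cancel]
          rfl
        · simp only [uZ]
          rw [th_U e w hw.2]
          match w, hw with
          | i :: j :: w, hw => rw [V, dif_pos hw.2])
    (by
      apply MvPolynomial.algHom_ext
      intro i
      refine Fin.addCases (fun i => ?_) (fun i => ?_) i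
      · have h1 := th'_x (R := R) e i
        have h2 := th_x (R := R) e i
        unfold xx at h1 h2
        rw [AlgHom.comp_apply, h2, h1, AlgHom.id_apply]
      · obtain ⟨z, rfl⟩ := e.surjective i
        rw [AlgHom.comp_apply, AlgHom.id_apply, th_z]
        rcases z with j | ⟨w, hw⟩
        · simp only [lZ]
          rw [map_sub, th'_c, th'_x, add_sub_cancel_right]
          rfl
        · match w, hw with
          | i :: j :: w, hw =>
            simp only [lZ]
            rw [map_sub, map_mul, th'_c, th'_V e _ hw.2, th'_V e (j :: w) (by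
              have := hw.2
              simp only [List.length_cons] at this ⊢
              omega), U, add_sub_cancel_right, V, dif_pos hw.2])

theorem theta_x (i : Fin n) : theta (R := R) e (X (Fin.castAdd κ i)) = X (Fin.castAdd κ i) :=
  th_x e i

theorem theta_z (i : Fin κ) : theta (R := R) e (X (Fin.natAdd n i)) = ll e i := by
  obtain ⟨z, rfl⟩ := e.surjective i
  rw [ll, Equiv.symm_apply_apply]
  exact th_z e z

/-! ### The polynomial -/

theorem lZ_mem (z : Zt n D) : lZ (R := R) e z ∈ Ideal.span (Set.range (ll (R := R) e)) := by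
  refine Ideal.subset_span ⟨e z, ?_⟩
  rw [ll, Equiv.symm_apply_apply]

/-- modulo the relations the variable of a word is the product of its letters -/
theorem V_mem : ∀ w : List (Fin n), w.length ≤ D →
    V (R := R) e w - (w.map fun i => xx i).prod ∈ Ideal.span (Set.range (ll (R := R) e))
  | [], _ => by
    rw [V, List.map_nil, List.prod_nil, sub_self]
    exact Ideal.zero_mem _
  | [i], _ => by
    rw [V, List.map_cons, List.map_nil, List.prod_cons, List.prod_nil, mul_one, sub_self]
    exact Ideal.zero_mem _
  | i :: j :: w, h => by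
    have h1 := V_mem (j :: w) (by simp only [List.length_cons] at h ⊢; omega)
    have h2 := lZ_mem (R := R) e (Sum.inr ⟨i :: j :: w, by simp, h⟩)
    have h3 := lZ_mem (R := R) e (Sum.inl i)
    simp only [lZ] at h2 h3
    have e1 : V (R := R) e (i :: j :: w) - ((i :: j :: w).map fun i => xx i).prod =
        (V e (i :: j :: w) - V e (j :: w) * cc e i) +
          (V e (j :: w) - ((j :: w).map fun i => xx i).prod) * cc e i +
          ((j :: w).map fun i => xx i).prod * (cc e i - xx i) := by
      rw [List.map_cons (l := j :: w), List.prod_cons]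
      ring
    rw [e1]
    exact Ideal.add_mem _ (Ideal.add_mem _ h2 (Ideal.mul_mem_right _ _ h1))
      (Ideal.mul_mem_left _ _ h3)

/-- A word for the monomial. -/
noncomputable def wd (m : Fin n →₀ ℕ) : List (Fin n) := (Finsupp.toMultiset m).toList

theorem wd_length (m : Fin n →₀ ℕ) : (wd m).length = m.degree := by
  rw [wd, Multiset.length_toList, Finsupp.card_toMultiset, Finsupp.degree_apply]
  rfl

theorem wd_prod (m : Fin n →₀ ℕ) (a : R) :
    C a * ((wd m).map fun i => xx (κ := κ) i).prod =
      rename (Fin.castAdd κ) (monomial m a : MvPolynomial (Fin n) R) := by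
  have h1 : ((wd m).map fun i => (xx (κ := κ) i : MvPolynomial (Fin (n + κ)) R)).prod =
      m.prod fun i k => xx i ^ k := by
    rw [wd, ← Multiset.prod_coe, ← Multiset.map_coe, Multiset.coe_toList,
      Finsupp.toMultiset_map, Finsupp.prod_toMultiset, Finsupp.prod_mapDomain_index]
    · intro a
      rw [pow_zero]
    · intro a b c
      rw [pow_add]
  rw [h1, monomial_eq, map_mul, rename_C]
  congr 1
  rw [Finsupp.prod, Finsupp.prod, map_prod]
  exact Finset.prod_congr rfl fun i _ => by rw [map_pow, rename_X]; rfl

/-- The polynomial which is linear in the variables of the words. -/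
noncomputable def Lin (f : MvPolynomial (Fin n) R) : MvPolynomial (Fin (n + κ)) R :=
  ∑ m ∈ f.support, C (f.coeff m) * V e (wd m)

theorem Lin_mem (f : MvPolynomial (Fin n) R) (hf : f.totalDegree ≤ D) :
    Lin e f - rename (Fin.castAdd κ) f ∈ Ideal.span (Set.range (ll (R := R) e)) := by
  have h1 : rename (Fin.castAdd κ) f =
      ∑ m ∈ f.support, C (f.coeff m) * ((wd m).map fun i => xx (κ := κ) i).prod := by
    conv_lhs => rw [f.as_sum, map_sum]
    exact Finset.sum_congr rfl fun m _ => (wd_prod m _).symm
  rw [h1, Lin, ← Finset.sum_sub_distrib]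
  refine Ideal.sum_mem _ fun m hm => ?_
  rw [← mul_sub]
  refine Ideal.mul_mem_left _ _ (V_mem e _ ?_)
  rw [wd_length]
  refine le_trans ?_ hf
  have := le_totalDegree hm
  rwa [Finsupp.sum] at this

theorem exists_q (f : MvPolynomial (Fin n) R) (hf : f.totalDegree ≤ D) :
    ∃ q : Fin κ → MvPolynomial (Fin (n + κ)) R,
      Lin e f = rename (Fin.castAdd κ) f + ∑ i, q i * ll e i := by
  obtain ⟨q, hq⟩ := Ideal.mem_span_range_iff_exists_fun.1 (Lin_mem e f hf)
  exact ⟨q, by rw [hq]; ring⟩

/-! ### The groups of the variables -/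

/-- The group of a new variable: the copies form the group `2`, the words the group `1`. -/
def cz : Zt n D → Fin 3
  | Sum.inl _ => 2
  | Sum.inr _ => 1

/-- The groups of the variables `x, z`. -/
def cxz : Fin (n + κ) → Fin 3 := Fin.append (fun _ => 1) fun i => cz (e.symm i)

/-- the unit vectors -/
def u3 (a : Fin 3) (g : Fin 3) : ℕ := if a = g then 1 else 0

theorem le_xx (j : Fin n) : Le3 (R := R) (cxz e) (u3 1) (xx j) := by
  have h := le3_X (R := R) (col := cxz e) (Fin.castAdd κ j)
  unfold cxz at h
  rw [Fin.append_left] at h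
  exact h

theorem le_z (z : Zt n D) : Le3 (R := R) (cxz e) (u3 (cz z)) (X (Fin.natAdd n (e z))) := by
  have h := le3_X (R := R) (col := cxz e) (Fin.natAdd n (e z))
  unfold cxz at h
  rw [Fin.append_right, Equiv.symm_apply_apply] at h
  exact h

theorem le_cc (j : Fin n) : Le3 (R := R) (cxz e) (u3 2) (cc e j) := le_z e (Sum.inl j)

theorem le_V : ∀ w : List (Fin n), Le3 (R := R) (cxz e) (u3 1) (V e w)
  | [] => by
    rw [V]
    exact le3_one.mono fun g => Nat.zero_le _
  | [i] => by
    rw [V]
    exact le_xx e i
  | i :: j :: w => by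
    rw [V]
    split_ifs with h
    · exact le_z e (Sum.inr ⟨i :: j :: w, by simp, h⟩)
    · exact le3_zero

theorem le_Lin (f : MvPolynomial (Fin n) R) : Le3 (cxz e) (u3 1) (Lin e f) := by
  unfold Lin
  refine Le3.sum _ _ fun m _ => ?_
  exact ((le3_C _).mul (le_V e _)).mono fun g => by simp

theorem le_ll (i : Fin κ) : Le3 (R := R) (cxz e) (fun g => u3 1 g + u3 2 g) (ll e i) := by
  unfold ll
  match h : e.symm i with
  | Sum.inl j =>
    simp only [lZ]
    exact ((le_cc e j).mono fun g => Nat.le_add_left _ _).sub
      ((le_xx e j).mono fun g => Nat.le_add_right _ _)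
  | Sum.inr ⟨[], hw⟩ =>
    simp only [lZ]
    exact le3_zero
  | Sum.inr ⟨a :: w, hw⟩ =>
    simp only [lZ]
    exact ((le_V e _).mono fun g => Nat.le_add_right _ _).sub ((le_V e w).mul (le_cc e a))

/-! ### The values at the origin -/

theorem cc_zero (j : Fin n) : constantCoeff (cc (R := R) e j) = 0 := constantCoeff_X R _

theorem xx_zero (j : Fin n) : constantCoeff (xx (R := R) (κ := κ) j) = 0 := constantCoeff_X R _

theorem V_zero : ∀ w : List (Fin n), w ≠ [] → constantCoeff (V (R := R) e w) = 0
  | [], h => absurd rfl h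
  | [i], _ => by rw [V]; exact xx_zero i
  | i :: j :: w, _ => by
    rw [V]
    split_ifs with h
    · exact constantCoeff_X R _
    · exact map_zero _

theorem ll_zero (i : Fin κ) : constantCoeff (ll (R := R) e i) = 0 := by
  unfold ll
  match h : e.symm i with
  | Sum.inl j =>
    simp only [lZ]
    rw [map_sub, cc_zero, xx_zero, sub_zero]
  | Sum.inr ⟨[], hw⟩ =>
    simp only [lZ]
    exact map_zero _
  | Sum.inr ⟨a :: w, hw⟩ =>
    simp only [lZ]
    rw [map_sub, map_mul, cc_zero, mul_zero, V_zero e _ (List.cons_ne_nil _ _), sub_zero]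

theorem Lin_zero (f : MvPolynomial (Fin n) R) :
    constantCoeff (Lin e f) = constantCoeff f := by
  classical
  unfold Lin
  rw [map_sum]
  have h1 : ∀ m ∈ f.support, constantCoeff (C (f.coeff m) * V (R := R) e (wd m)) =
      if m = 0 then f.coeff 0 else 0 := by
    intro m _
    rw [map_mul, constantCoeff_C]
    by_cases h : m = 0
    · rw [if_pos h, h]
      have : wd (0 : Fin n →₀ ℕ) = [] := by
        rw [wd, map_zero]
        exact Multiset.toList_zero
      rw [this, V, map_one, mul_one]
    · rw [if_neg h, V_zero, mul_zero]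
      intro h2
      apply h
      have h3 := wd_length m
      rw [h2, List.length_nil] at h3
      exact (Finsupp.degree_eq_zero_iff m).1 h3.symm
  rw [Finset.sum_congr rfl h1, Finset.sum_ite_eq', constantCoeff_eq]
  split_ifs with h
  · rfl
  · rw [notMem_support_iff.1 h]

end words

end Pool.Agent.Q59.TR
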